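import Mathlib

/-!
# Piece SA (Stepanov method for `y² = f(x)`): the auxiliary polynomial is not zero

Let `b = p / 2 = (p - 1) / 2`, `m = natDegree f`. Suppose not all of the `r j`, `s j`, `j < J`, are `0`, and let `k < J` be the
smallest index with `(r k, s k) ≠ (0, 0)`. Then `∑_{k ≤ j < J} (r j + s j * f ^ b) * X ^ (p * (j - k)) = 0` (cancel `X ^ (p * k)`), so
`X ^ p ∣ r k + s k * f ^ b`. Multiply by `r k - s k * f ^ b`: `X ^ p ∣ (r k) ^ 2 - (s k) ^ 2 * f ^ (p - 1)` (`2 * b = p - 1`), multiply by `f`: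
`X ^ p ∣ f * (r k) ^ 2 - (s k) ^ 2 * f ^ p`. Over `ZMod p` we have `f ^ p = expand p f` (`ZMod.expand_card`), so
`X ^ p ∣ f ^ p - C (f.eval 0)` (`expand p f = f.comp (X ^ p)`; `X ∣ f - C (f.eval 0)`). Hence `X ^ p ∣ f * (r k) ^ 2 - C (f.eval 0) * (s k) ^ 2`. The degree of
the right side is `< p` (`m + 2 * (a - 1) ≤ p - 1`), so `f * (r k) ^ 2 = C (f.eval 0) * (s k) ^ 2`. As `f` is separable of
degree `≥ 1`, take an irreducible factor `π` of `f`: its multiplicity in `f` is exactly one (`Squarefree`), so if `r k ≠ 0` the multiplicity of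
`π` in the left side is odd, in the right side even (or the right side is `0`): contradiction. So `r k = 0`, then
`s k = 0` as `f.eval 0 ≠ 0`. (Or by infinite descent: `f ∣ s k ^ 2` gives `f ∣ s k` by `Squarefree`, and so on.)
-/

namespace Pool.Agent.SkewGem

open Polynomial Finset

private theorem SA_descent {K : Type*} [Field K] (f : K[X]) (hf : Squarefree f) (h1 : 1 ≤ f.natDegree) (e : K)
    (he : e ≠ 0) : ∀ (n : ℕ) (r s : K[X]), r.natDegree ≤ n → f * r ^ 2 = C e * s ^ 2 → r = 0 := by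
  have hf0 : f ≠ 0 := by
    rintro rfl
    simp at h1
  have hu : IsUnit (C e : K[X]) := isUnit_C.2 (isUnit_iff_ne_zero.2 he)
  have hrad : ∀ u : K[X], f ∣ u ^ 2 → f ∣ u := fun u hu => hf.isRadical 2 u hu
  intro n
  induction n using Nat.strong_induction_on with
  | _ n ih =>
    intro r s hr h
    by_contra hr0
    obtain ⟨s₁, rfl⟩ : f ∣ s := by
      refine hrad s ?_
      refine (IsUnit.dvd_mul_left hu).1 ?_
      rw [← h]
      exact dvd_mul_right _ _
    have h2 : r ^ 2 = C e * (f * s₁ ^ 2) := by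
      refine mul_left_cancel₀ hf0 ?_
      rw [h]
      ring
    obtain ⟨r₁, rfl⟩ : f ∣ r := by
      refine hrad r ?_
      rw [h2]
      exact ⟨C e * s₁ ^ 2, by ring⟩
    have h3 : f * r₁ ^ 2 = C e * s₁ ^ 2 := by
      refine mul_left_cancel₀ hf0 ?_
      linear_combination h2
    have hr1 : r₁ ≠ 0 := by
      rintro rfl
      exact hr0 (mul_zero _)
    rw [natDegree_mul hf0 hr1] at hr
    exact hr1 (ih r₁.natDegree (by omega) r₁ s₁ le_rfl h3)

private theorem SA_key (p : ℕ) [Fact p.Prime] (hp2 : p ≠ 2) (f : (ZMod p)[X]) (hf : f.Separable)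
    (h1 : 1 ≤ f.natDegree) (h0 : f.eval 0 ≠ 0) (a : ℕ) (ha : f.natDegree + 2 * a ≤ p + 1)
    (r s : (ZMod p)[X]) (hr : r.degree < a) (hs : s.degree < a) (h : X ^ p ∣ r + s * f ^ (p / 2)) :
    r = 0 ∧ s = 0 := by
  have hp := (Fact.out : p.Prime)
  rcases Nat.eq_zero_or_pos a with ha0 | ha0
  · subst ha0
    have e : ∀ u : (ZMod p)[X], u.degree < ((0 : ℕ) : WithBot ℕ) → u = 0 := by
      intro u hu
      by_contra hne
      rw [degree_eq_natDegree hne] at hu
      exact absurd hu (by simp)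
    exact ⟨e r hr, e s hs⟩
  have hodd : 2 * (p / 2) + 1 = p := by
    have := hp.eq_two_or_odd
    omega
  have hnr : r.natDegree ≤ a - 1 := by
    rcases eq_or_ne r 0 with h2 | h2
    · rw [h2, natDegree_zero]
      exact Nat.zero_le _
    · have := (natDegree_lt_iff_degree_lt h2).2 hr
      omega
  have hns : s.natDegree ≤ a - 1 := by
    rcases eq_or_ne s 0 with h2 | h2
    · rw [h2, natDegree_zero]
      exact Nat.zero_le _
    · have := (natDegree_lt_iff_degree_lt h2).2 hs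
      omega
  have hfp : f * (f ^ (p / 2)) ^ 2 = f ^ p := by
    rw [← pow_mul, ← pow_succ']
    congr 1
    omega
  have d1 : X ^ p ∣ f * r ^ 2 - s ^ 2 * f ^ p := by
    refine h.trans ⟨f * (r - s * f ^ (p / 2)), ?_⟩
    rw [← hfp]
    ring
  have d2 : X ^ p ∣ f ^ p - C (f.eval 0) := by
    have h2 : (X : (ZMod p)[X]) ∣ f - C (f.eval 0) := by
      have h3 := X_sub_C_dvd_sub_C_eval (a := (0 : ZMod p)) (p := f)
      rwa [C_0, sub_zero] at h3
    have h4 := map_dvd (expand (ZMod p) p) h2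
    rwa [map_sub, expand_X, expand_C, ZMod.expand_card] at h4
  have d3 : X ^ p ∣ f * r ^ 2 - C (f.eval 0) * s ^ 2 := by
    have h5 : f * r ^ 2 - C (f.eval 0) * s ^ 2 =
        (f * r ^ 2 - s ^ 2 * f ^ p) + (f ^ p - C (f.eval 0)) * s ^ 2 := by ring
    rw [h5]
    exact dvd_add d1 (d2.mul_right _)
  have hdeg : (f * r ^ 2 - C (f.eval 0) * s ^ 2).natDegree < ((X : (ZMod p)[X]) ^ p).natDegree := by
    rw [natDegree_X_pow]
    refine lt_of_le_of_lt (natDegree_sub_le _ _) ?_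
    have b1 : (f * r ^ 2).natDegree ≤ f.natDegree + 2 * (a - 1) := by
      refine natDegree_mul_le.trans (Nat.add_le_add_left ?_ _)
      exact natDegree_pow_le.trans (Nat.mul_le_mul_left 2 hnr)
    have b2 : (C (f.eval 0) * s ^ 2).natDegree ≤ 2 * (a - 1) := by
      refine (natDegree_C_mul_le _ _).trans ?_
      exact natDegree_pow_le.trans (Nat.mul_le_mul_left 2 hns)
    rw [max_lt_iff]
    omega
  have hz := eq_zero_of_dvd_of_natDegree_lt d3 hdeg
  have he : f * r ^ 2 = C (f.eval 0) * s ^ 2 := sub_eq_zero.1 hz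
  have hr0 : r = 0 := SA_descent f hf.squarefree h1 (f.eval 0) h0 _ r s le_rfl he
  refine ⟨hr0, ?_⟩
  subst hr0
  have h6 : C (f.eval 0) * s ^ 2 = 0 := by
    rw [← he]
    ring
  rcases mul_eq_zero.1 h6 with h7 | h7
  · exact absurd (C_eq_zero.1 h7) h0
  · exact pow_eq_zero_iff (two_ne_zero) |>.1 h7

theorem st_nonvanish (p : ℕ) [Fact p.Prime] (hp2 : p ≠ 2) (f : (ZMod p)[X]) (hf : f.Separable)
    (h1 : 1 ≤ f.natDegree) (h0 : f.eval 0 ≠ 0) (a J : ℕ) (ha : f.natDegree + 2 * a ≤ p + 1)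
    (r s : ℕ → (ZMod p)[X]) (hr : ∀ j < J, (r j).degree < a) (hs : ∀ j < J, (s j).degree < a)
    (h : ∑ j ∈ range J, (r j + s j * f ^ (p / 2)) * X ^ (p * j) = 0) :
    ∀ j < J, r j = 0 ∧ s j = 0 := by
  intro j
  induction j using Nat.strong_induction_on with
  | _ j ih =>
    intro hj
    refine SA_key p hp2 f hf h1 h0 a ha (r j) (s j) (hr j hj) (hs j hj) ?_
    rw [← Finset.add_sum_erase _ _ (mem_range.2 hj)] at h
    have h2 : X ^ (p * (j + 1)) ∣ ∑ i ∈ (range J).erase j, (r i + s i * f ^ (p / 2)) * X ^ (p * i) := by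
      refine Finset.dvd_sum fun i hi => ?_
      obtain ⟨hij, hiJ⟩ := mem_erase.1 hi
      rcases lt_or_gt_of_ne hij with hlt | hgt
      · obtain ⟨e1, e2⟩ := ih i hlt (mem_range.1 hiJ)
        rw [e1, e2]
        simp
      · exact (pow_dvd_pow X (Nat.mul_le_mul_left p hgt)).mul_left _
    have h3 : X ^ (p * (j + 1)) ∣ (r j + s j * f ^ (p / 2)) * X ^ (p * j) := by
      have h4 := (dvd_add_left h2).1 (show X ^ (p * (j + 1)) ∣ (r j + s j * f ^ (p / 2)) * X ^ (p * j) +
        ∑ i ∈ (range J).erase j, (r i + s i * f ^ (p / 2)) * X ^ (p * i) by rw [h]; exact dvd_zero _)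
      exact h4
    have h5 : (X : (ZMod p)[X]) ^ (p * (j + 1)) = X ^ p * X ^ (p * j) := by
      rw [← pow_add]
      congr 1
      ring
    rw [h5] at h3
    exact (mul_dvd_mul_iff_right (pow_ne_zero _ X_ne_zero)).1 h3

end Pool.Agent.SkewGem
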