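import Mathlib

/-!
# Piece SB (Stepanov method): derivatives

`stW f l e k u` is the polynomial with `(f ^ (l + e) * u)^(k) = f ^ (l - k + e) * stW f l e k u`, `k ≤ l`. In characteristic `p` the factor
`X ^ (p * j)` behaves like a constant (its derivative is `0`).
`st_deriv`: induction on `k` (`Function.iterate_succ_apply'`); `l - k + e = (l - (k + 1) + e) + 1` for `k < l`.
`stW_degree`: induction on `k`; `(derivative f).degree ≤ natDegree f - 1`, `(derivative w).degree < w.degree` for `w ≠ 0`
(`degree_derivative_lt`), and `f' = 0` when `m = 0`.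
-/

namespace Pool.Agent.SkewGem

open Polynomial Finset

/-- The operators of the derivatives. -/
noncomputable def stW {F : Type*} [Field F] (f : F[X]) (l e : ℕ) : ℕ → F[X] →ₗ[F] F[X]
  | 0 => LinearMap.id
  | k + 1 => (LinearMap.mulLeft F (C ((l - k + e : ℕ) : F) * derivative f)).comp (stW f l e k) +
      (LinearMap.mulLeft F f).comp (derivative.comp (stW f l e k))

theorem stW_zero {F : Type*} [Field F] (f : F[X]) (l e : ℕ) (u : F[X]) : stW f l e 0 u = u := rfl

theorem stW_succ {F : Type*} [Field F] (f : F[X]) (l e k : ℕ) (u : F[X]) :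
    stW f l e (k + 1) u = C ((l - k + e : ℕ) : F) * derivative f * stW f l e k u +
      f * derivative (stW f l e k u) := rfl

theorem st_deriv (p : ℕ) [Fact p.Prime] (f : (ZMod p)[X]) (l e : ℕ) (u : (ZMod p)[X]) (j k : ℕ)
    (hk : k ≤ l) : derivative^[k] (f ^ (l + e) * u * X ^ (p * j)) =
      f ^ (l - k + e) * stW f l e k u * X ^ (p * j) := by
  have hX : derivative (X ^ (p * j) : (ZMod p)[X]) = 0 := by
    rw [derivative_X_pow]
    have h0 : ((p * j : ℕ) : ZMod p) = 0 := by
      rw [Nat.cast_mul, ZMod.natCast_self, zero_mul]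
    rw [h0, C_0, zero_mul]
  induction k with
  | zero => simp [stW_zero]
  | succ k ih =>
    rw [Function.iterate_succ_apply', ih (by omega), stW_succ]
    have h1 : l - k + e = (l - (k + 1) + e) + 1 := by omega
    rw [h1]
    generalize l - (k + 1) + e = N
    generalize stW f l e k u = w
    rw [derivative_mul, derivative_mul, hX, derivative_pow_succ]
    have h2 : (C ((N + 1 : ℕ) : ZMod p) : (ZMod p)[X]) = C ((N : ZMod p) + 1) := by
      push_cast
      rfl
    rw [h2]
    ring

private theorem SB_deg {F : Type*} [Field F] {p q : F[X]} {m D : ℕ} (hp : p.natDegree ≤ m)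
    (hq : q.degree < (D : ℕ)) : (p * q).degree < (D + m : ℕ) := by
  by_cases h0 : p * q = 0
  · rw [h0, degree_zero]
    exact WithBot.bot_lt_coe _
  · have hq0 : q ≠ 0 := right_ne_zero_of_mul h0
    have h1 : q.natDegree < D := (natDegree_lt_iff_degree_lt hq0).2 hq
    rw [← natDegree_lt_iff_degree_lt h0]
    have h2 := natDegree_mul_le (p := p) (q := q)
    omega

theorem stW_degree {F : Type*} [Field F] (f : F[X]) (m : ℕ) (hm : f.natDegree ≤ m) (l e k a : ℕ)
    (u : F[X]) (hu : u.degree < a) : (stW f l e k u).degree < (a + k * m : ℕ) := by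
  induction k with
  | zero => simpa [stW_zero] using hu
  | succ k ih =>
    rw [stW_succ]
    have h1 : a + (k + 1) * m = (a + k * m) + m := by ring
    rw [h1]
    refine lt_of_le_of_lt (degree_add_le _ _) (max_lt ?_ ?_)
    · apply SB_deg _ ih
      refine (natDegree_C_mul_le _ _).trans ?_
      exact (natDegree_derivative_le f).trans (by omega)
    · apply SB_deg hm
      exact lt_of_le_of_lt degree_derivative_le ih

end Pool.Agent.SkewGem
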