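import Mathlib
import Pool.Agent.Lib_MP_009b3c_lc.SA
import Pool.Agent.Lib_MP_009b3c_lc.SB

/-!
# Piece SC (Stepanov method): the auxiliary polynomial and the bound

`exists_ne_zero_of_small`: the map `V → (Fin l → degreeLT F B)`, `v ↦ (L k v)_k`, has a kernel since `finrank` of the target is `l * B`
(`LinearMap.exists_ne_zero_of_finrank_lt` or the like, `Polynomial.degreeLTEquiv`).

`stepanov`. Let `m = natDegree f`, `b = p / 2`, `q = Nat.sqrt p`, `l = 2 q`, `J = q + 7 m`, `a = (p - m) / 2`. `V` = pairs of functions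
`Fin J → degreeLT (ZMod p) a`, `finrank V = 2 J a`. For `k < l` let `L k (r, s) = ∑_j (stW f l 0 k (r j) + stW f l b k (s j)) * X ^ j`; its degree is
`< B := a + J + l * m` (`stW_degree`). `l * B < 2 J a` means `q (J + 2 q m) < 7 m a`, true as `q² ≤ p`, `961 m² < p` (so `31 m < √p`, `q ≤ p / 31`,
`a ≥ 0.49 p`, `q² (1 + 2 m) ≤ 3 m p`). Take `(r, s) ≠ 0` in all kernels and
`R = ∑_j (f ^ l * r j + f ^ (l + b) * s j) * X ^ (p * j) = f ^ l * ∑_j (r j + s j * f ^ b) * X ^ (p * j)`. `R ≠ 0` by `st_nonvanish`. For `x` with `f(x) ^ b = 1`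
and `k < l`: `R^(k)(x) = f(x) ^ (l - k) * (L k (r, s))(x) = 0` (`st_deriv`, `x ^ p = x`: `ZMod.pow_card`, `f(x) ^ (l - k + b) = f(x) ^ (l - k)`). So the
root multiplicity of `x` in `R` is `≥ l` (`l < p`, `Polynomial.lt_rootMultiplicity_iff_isRoot_iterate_derivative...`), hence
`l * N ≤ natDegree R ≤ (l + b) m + a + p (J - 1)`. This gives `N ≤ p / 2 + m + 3.75 m p / q ≤ p / 2 + 15 m √p`.
-/

namespace Pool.Agent.SkewGem

open Polynomial Finset

theorem exists_ne_zero_of_small {F V : Type*} [Field F] [AddCommGroup V] [Module F V]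
    [FiniteDimensional F V] (l B : ℕ) (L : ℕ → V →ₗ[F] F[X])
    (hB : ∀ k < l, ∀ v, (L k v).degree < B) (h : l * B < Module.finrank F V) :
    ∃ v : V, v ≠ 0 ∧ ∀ k < l, L k v = 0 := by
  let T : V →ₗ[F] (Fin l → degreeLT F B) :=
    LinearMap.pi fun k : Fin l =>
      (L k).codRestrict (degreeLT F B) (fun v => mem_degreeLT.2 (hB k k.2 v))
  have : FiniteDimensional F (degreeLT F B) :=
    FiniteDimensional.of_injective (degreeLTEquiv F B).toLinearMap (degreeLTEquiv F B).injective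
  have h1 : Module.finrank F (Fin l → degreeLT F B) = l * B := by
    rw [Module.finrank_pi_fintype]
    simp [(degreeLTEquiv F B).finrank_eq]
  have h2 : LinearMap.ker T ≠ ⊥ := LinearMap.ker_ne_bot_of_finrank_lt (by rwa [h1])
  obtain ⟨v, hv, hv0⟩ := Submodule.exists_mem_ne_zero_of_ne_bot h2
  refine ⟨v, hv0, fun k hk => ?_⟩
  have h3 : T v = 0 := LinearMap.mem_ker.1 hv
  have h4 := congrFun h3 ⟨k, hk⟩
  have h5 := congrArg (Subtype.val) h4
  simpa [T] using h5

/-- the linear maps of the auxiliary construction -/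
private noncomputable def SCL {F : Type*} [Field F] (f : F[X]) (l b a J : ℕ) (k : ℕ) :
    ((Fin J → degreeLT F a) × (Fin J → degreeLT F a)) →ₗ[F] F[X] :=
  ∑ j : Fin J, (LinearMap.mulRight F ((X : F[X]) ^ (j : ℕ))).comp
    ((stW f l 0 k).comp ((degreeLT F a).subtype.comp
        ((LinearMap.proj j).comp (LinearMap.fst F _ _))) +
      (stW f l b k).comp ((degreeLT F a).subtype.comp
        ((LinearMap.proj j).comp (LinearMap.snd F _ _))))

private theorem SCL_apply {F : Type*} [Field F] (f : F[X]) (l b a J : ℕ) (k : ℕ)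
    (v : (Fin J → degreeLT F a) × (Fin J → degreeLT F a)) :
    SCL f l b a J k v = ∑ j : Fin J, (stW f l 0 k (v.1 j : F[X]) +
      stW f l b k (v.2 j : F[X])) * X ^ (j : ℕ) := by
  simp [SCL, LinearMap.sum_apply]

private theorem SCL_degree {F : Type*} [Field F] (f : F[X]) (m : ℕ) (hm : f.natDegree ≤ m)
    (l b a J k : ℕ) (hk : k < l) (v : (Fin J → degreeLT F a) × (Fin J → degreeLT F a)) :
    (SCL f l b a J k v).degree < ((a + J + l * m : ℕ) : WithBot ℕ) := by
  rw [SCL_apply, ← mem_degreeLT]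
  refine Submodule.sum_mem _ fun j _ => ?_
  rw [mem_degreeLT]
  have h1 := stW_degree f m hm l 0 k a _ (mem_degreeLT.1 (v.1 j).2)
  have h2 := stW_degree f m hm l b k a _ (mem_degreeLT.1 (v.2 j).2)
  have h3 : (stW f l 0 k (v.1 j : F[X]) + stW f l b k (v.2 j : F[X])).degree <
      ((a + k * m : ℕ) : WithBot ℕ) := lt_of_le_of_lt (degree_add_le _ _) (max_lt h1 h2)
  rcases eq_or_ne (stW f l 0 k (v.1 j : F[X]) + stW f l b k (v.2 j : F[X])) 0 with h0 | h0
  · rw [h0, zero_mul, degree_zero]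
    exact WithBot.bot_lt_coe _
  · have h4 : (stW f l 0 k (v.1 j : F[X]) + stW f l b k (v.2 j : F[X])).natDegree < a + k * m :=
      (natDegree_lt_iff_degree_lt h0).2 h3
    have h5 : (stW f l 0 k (v.1 j : F[X]) + stW f l b k (v.2 j : F[X])) * X ^ (j : ℕ) ≠ 0 :=
      mul_ne_zero h0 (pow_ne_zero _ X_ne_zero)
    rw [← natDegree_lt_iff_degree_lt h5, natDegree_mul h0 (pow_ne_zero _ X_ne_zero),
      natDegree_X_pow]
    have h6 : k * m ≤ l * m := Nat.mul_le_mul_right _ hk.le
    have h7 := j.2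
    omega

/-- the multiplicities of the points of `A` in `R` add up -/
private theorem SC_roots {F : Type*} [Field F] (R : F[X]) (A : Finset F) (l : ℕ)
    (hA : ∀ x ∈ A, l ≤ R.rootMultiplicity x) : l * A.card ≤ R.natDegree := by
  classical
  rcases Nat.eq_zero_or_pos l with hl | hl
  · simp [hl]
  have h1 : A.card * l ≤ ∑ x ∈ A, R.roots.count x := by
    rw [← smul_eq_mul]
    refine Finset.card_nsmul_le_sum _ _ _ fun x hx => ?_
    rw [count_roots]
    exact hA x hx
  have h2 : A ⊆ R.roots.toFinset := by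
    intro x hx
    rw [Multiset.mem_toFinset, ← Multiset.count_pos, count_roots]
    exact lt_of_lt_of_le hl (hA x hx)
  have h3 : ∑ x ∈ A, R.roots.count x ≤ ∑ x ∈ R.roots.toFinset, R.roots.count x :=
    Finset.sum_le_sum_of_subset h2
  rw [Multiset.toFinset_sum_count_eq] at h3
  have h4 := card_roots' R
  rw [mul_comm]
  omega

/-- the final inequality -/
private theorem SC_final (p m q N : ℕ) (hm : 1 ≤ m) (hq : 31 * m ≤ q) (hqp : q * q ≤ p)
    (hqp' : p < (q + 1) * (q + 1))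
    (h : 2 * q * N ≤ (2 * q + p / 2) * m + (p - m) / 2 + p * (q + 7 * m - 1)) :
    (N : ℝ) ≤ p / 2 + 15 * m * √p := by
  have hm' : (1 : ℝ) ≤ m := by exact_mod_cast hm
  have hq' : 31 * (m : ℝ) ≤ q := by exact_mod_cast hq
  have hq0 : (0 : ℝ) < q := by linarith
  have hp0 : (0 : ℝ) ≤ p := Nat.cast_nonneg p
  have hqpR : (q : ℝ) * q ≤ p := by exact_mod_cast hqp
  have hqpR' : (p : ℝ) < (q + 1) * (q + 1) := by exact_mod_cast hqp'
  have h1 : ((2 * q * N : ℕ) : ℝ) ≤
      (((2 * q + p / 2) * m + (p - m) / 2 + p * (q + 7 * m - 1) : ℕ) : ℝ) := by exact_mod_cast h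
  have h2 : (((p / 2 : ℕ)) : ℝ) ≤ p / 2 := Nat.cast_div_le
  have h3 : ((((p - m) / 2 : ℕ)) : ℝ) ≤ p / 2 := by
    refine le_trans (b := (((p / 2 : ℕ)) : ℝ)) ?_ h2
    exact_mod_cast Nat.div_le_div_right (Nat.sub_le p m)
  have h4 : (((q + 7 * m - 1 : ℕ)) : ℝ) = q + 7 * m - 1 := by
    rw [Nat.cast_sub (by omega)]
    push_cast
    ring
  push_cast at h1
  rw [h4] at h1
  have h5 : 2 * (q : ℝ) * N ≤ (2 * q + p / 2) * m + p / 2 + p * (q + 7 * m - 1) := by
    have h6 : (2 * (q : ℝ) + ((p / 2 : ℕ) : ℝ)) * m ≤ (2 * q + p / 2) * m :=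
      mul_le_mul_of_nonneg_right (by linarith) (by linarith)
    linarith
  have hs : (q : ℝ) ≤ √p := by
    apply Real.le_sqrt_of_sq_le
    nlinarith
  -- `p ≤ (32 / 31) ^ 2 q ^ 2`
  have h7 : (p : ℝ) ≤ 2 * (q * q) := by
    nlinarith
  have h8 : 2 * (q : ℝ) * N ≤ 2 * q * (p / 2 + 15 * m * q) := by
    nlinarith [mul_nonneg hp0 (by linarith : (0 : ℝ) ≤ m - 1), mul_nonneg hq0.le hq0.le,
      mul_nonneg (by linarith : (0 : ℝ) ≤ m) hp0]
  have h9 : (N : ℝ) ≤ p / 2 + 15 * m * q := le_of_mul_le_mul_left h8 (by positivity)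
  have h10 : 15 * (m : ℝ) * q ≤ 15 * m * √p := mul_le_mul_of_nonneg_left hs (by positivity)
  linarith

/-- the dimension count -/
private theorem SC_dim (p m q : ℕ) (hm : 1 ≤ m) (hq : 31 * m ≤ q) (hqp : q * q ≤ p) :
    2 * q * ((p - m) / 2 + (q + 7 * m) + 2 * q * m) < 2 * ((q + 7 * m) * ((p - m) / 2)) := by
  obtain ⟨a, ha⟩ : ∃ a, a = (p - m) / 2 := ⟨_, rfl⟩
  rw [← ha]
  have hmp : m ≤ p := by nlinarith
  have h1 : p ≤ 2 * a + m + 1 := by omega
  have h2 : 961 ≤ q * q := by nlinarith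
  have h3 : q * (q + 7 * m + 2 * q * m) < 7 * m * a := by
    obtain ⟨d, hd⟩ : ∃ d, p = m + 1 + d := ⟨p - (m + 1), by
      have : m + 1 ≤ p := by nlinarith
      omega⟩
    have h4 : 2 * (q * (q + 7 * m + 2 * q * m)) < 7 * m * d := by
      have e1 : m * (q * q) ≤ m * (m + 1 + d) := Nat.mul_le_mul_left _ (by omega)
      have e2 : q * q ≤ m * (q * q) := Nat.le_mul_of_pos_left _ hm
      have e3 : m * (31 * q) ≤ m * (q * q) :=
        Nat.mul_le_mul_left _ (Nat.mul_le_mul_right _ (by omega))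
      have e4 : m * (31 * m) ≤ m * q := Nat.mul_le_mul_left _ hq
      have e5 : 961 * m ≤ m * (q * q) := by nlinarith
      nlinarith
    have h6 : 7 * m * d ≤ 7 * m * (2 * a) := Nat.mul_le_mul_left _ (by omega)
    nlinarith
  nlinarith

theorem stepanov (p : ℕ) [Fact p.Prime] (hp2 : p ≠ 2) (f : (ZMod p)[X]) (hf : f.Separable)
    (h1 : 1 ≤ f.natDegree) (h0 : f.eval 0 ≠ 0) (hm : 961 * f.natDegree ^ 2 < p) :
    ((univ.filter fun x : ZMod p => f.eval x ^ (p / 2) = 1).card : ℝ) ≤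
      p / 2 + 15 * f.natDegree * √p := by
  have hp : p.Prime := Fact.out
  obtain ⟨m, hmd⟩ : ∃ m, m = f.natDegree := ⟨_, rfl⟩
  rw [← hmd] at h1 hm ⊢
  obtain ⟨q, hqd⟩ : ∃ q, q = Nat.sqrt p := ⟨_, rfl⟩
  have hq : 31 * m ≤ q := by
    rw [hqd, Nat.le_sqrt]
    nlinarith
  have hqp : q * q ≤ p := by rw [hqd]; exact Nat.sqrt_le p
  have hqp' : p < (q + 1) * (q + 1) := by rw [hqd]; exact Nat.lt_succ_sqrt p
  obtain ⟨a, had⟩ : ∃ a, a = (p - m) / 2 := ⟨_, rfl⟩
  obtain ⟨b, hbd⟩ : ∃ b, b = p / 2 := ⟨_, rfl⟩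
  obtain ⟨J, hJd⟩ : ∃ J, J = q + 7 * m := ⟨_, rfl⟩
  obtain ⟨l, hld⟩ : ∃ l, l = 2 * q := ⟨_, rfl⟩
  have hmp : m < p := by nlinarith
  have hfne : f ≠ 0 := by
    rintro rfl
    simp at h0
  -- the auxiliary pair
  have : FiniteDimensional (ZMod p) (degreeLT (ZMod p) a) :=
    FiniteDimensional.of_injective (degreeLTEquiv (ZMod p) a).toLinearMap
      (degreeLTEquiv (ZMod p) a).injective
  have hfin : Module.finrank (ZMod p)
      ((Fin J → degreeLT (ZMod p) a) × (Fin J → degreeLT (ZMod p) a)) = 2 * (J * a) := by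
    rw [Module.finrank_prod, Module.finrank_pi_fintype]
    simp [(degreeLTEquiv (ZMod p) a).finrank_eq]
    ring
  obtain ⟨v, hv0, hv⟩ := exists_ne_zero_of_small l (a + J + l * m) (SCL f l b a J)
    (fun k hk v => SCL_degree f m hmd.ge l b a J k hk v)
    (by
      rw [hfin, hld, hJd, had]
      exact SC_dim p m q h1 hq hqp)
  -- as functions on `ℕ`
  obtain ⟨r, hr⟩ : ∃ r : ℕ → (ZMod p)[X],
      r = fun j => if h : j < J then (v.1 ⟨j, h⟩ : (ZMod p)[X]) else 0 := ⟨_, rfl⟩
  obtain ⟨s, hs⟩ : ∃ s : ℕ → (ZMod p)[X],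
      s = fun j => if h : j < J then (v.2 ⟨j, h⟩ : (ZMod p)[X]) else 0 := ⟨_, rfl⟩
  have hrF : ∀ j : Fin J, r j = (v.1 j : (ZMod p)[X]) := fun j => by
    rw [hr]; simp
  have hsF : ∀ j : Fin J, s j = (v.2 j : (ZMod p)[X]) := fun j => by
    rw [hs]; simp
  have hrd : ∀ j < J, (r j).degree < (a : WithBot ℕ) := fun j hj => by
    have := mem_degreeLT.1 (v.1 ⟨j, hj⟩).2
    rwa [← hrF ⟨j, hj⟩] at this
  have hsd : ∀ j < J, (s j).degree < (a : WithBot ℕ) := fun j hj => by
    have := mem_degreeLT.1 (v.2 ⟨j, hj⟩).2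
    rwa [← hsF ⟨j, hj⟩] at this
  have hLk : ∀ k < l, ∑ j ∈ range J, (stW f l 0 k (r j) + stW f l b k (s j)) * X ^ j = 0 := by
    intro k hk
    have h2 := hv k hk
    rw [SCL_apply] at h2
    rw [Finset.sum_range]
    rw [← h2]
    refine Finset.sum_congr rfl fun j _ => ?_
    rw [hrF j, hsF j]
  obtain ⟨P, hP⟩ : ∃ P : (ZMod p)[X],
      P = ∑ j ∈ range J, (f ^ (l + 0) * r j * X ^ (p * j) + f ^ (l + b) * s j * X ^ (p * j)) :=
    ⟨_, rfl⟩
  have hPne : P ≠ 0 := by
    intro hP0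
    have h2 : P = f ^ l * ∑ j ∈ range J, (r j + s j * f ^ (p / 2)) * X ^ (p * j) := by
      rw [hP, Finset.mul_sum]
      refine Finset.sum_congr rfl fun j _ => ?_
      rw [← hbd, add_zero, pow_add]
      ring
    rw [hP0] at h2
    have h3 : ∑ j ∈ range J, (r j + s j * f ^ (p / 2)) * X ^ (p * j) = 0 := by
      rcases mul_eq_zero.1 h2.symm with h4 | h4
      · exact absurd h4 (pow_ne_zero _ hfne)
      · exact h4
    have h4 := st_nonvanish p hp2 f hf (by rwa [← hmd]) h0 a J (by rw [← hmd]; omega) r s hrd hsd h3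
    apply hv0
    apply Prod.ext
    · funext j
      apply Subtype.ext
      have h5 := (h4 j j.2).1
      rw [hrF j] at h5
      simpa using h5
    · funext j
      apply Subtype.ext
      have h5 := (h4 j j.2).2
      rw [hsF j] at h5
      simpa using h5
  have hlp : l < p := by
    rw [hld]
    nlinarith
  -- the multiplicities
  have hmult : ∀ x ∈ univ.filter (fun x : ZMod p => f.eval x ^ (p / 2) = 1),
      l ≤ P.rootMultiplicity x := by
    intro x hx
    rw [Finset.mem_filter, ← hbd] at hx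
    have hx1 := hx.2
    have hl1 : l = (l - 1) + 1 := by omega
    rw [hl1]
    apply Nat.succ_le_of_lt
    apply lt_rootMultiplicity_of_isRoot_iterate_derivative_of_mem_nonZeroDivisors hPne
    · intro k hk
      have hkl : k < l := by omega
      have h2 : derivative^[k] P = ∑ j ∈ range J,
          (f ^ (l - k + 0) * stW f l 0 k (r j) * X ^ (p * j) +
            f ^ (l - k + b) * stW f l b k (s j) * X ^ (p * j)) := by
        rw [hP, Polynomial.iterate_derivative_sum]
        refine Finset.sum_congr rfl fun j _ => ?_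
        rw [iterate_map_add, st_deriv p f l 0 (r j) j k hkl.le,
          st_deriv p f l b (s j) j k hkl.le]
      rw [IsRoot.def, h2, eval_finsetSum]
      have h3 : ∀ j ∈ range J, eval x (f ^ (l - k + 0) * stW f l 0 k (r j) * X ^ (p * j) +
            f ^ (l - k + b) * stW f l b k (s j) * X ^ (p * j)) =
          eval x f ^ (l - k) * eval x ((stW f l 0 k (r j) + stW f l b k (s j)) * X ^ j) := by
        intro j _
        have h4 : x ^ (p * j) = x ^ j := by
          rw [pow_mul, ZMod.pow_card]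
        simp only [eval_add, eval_mul, eval_pow, eval_X]
        rw [h4, pow_add (eval x f) (l - k) b, hx1, add_zero]
        ring
      rw [Finset.sum_congr rfl h3, ← Finset.mul_sum, ← eval_finsetSum, hLk k hkl, eval_zero,
        mul_zero]
    · rw [mem_nonZeroDivisors_iff_ne_zero, Ne, ZMod.natCast_eq_zero_iff,
        hp.dvd_factorial]
      omega
  have hcount := SC_roots P _ l hmult
  -- the degree
  have hdeg : P.natDegree ≤ (l + b) * m + a + p * (J - 1) := by
    rw [hP]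
    refine natDegree_sum_le_of_forall_le _ _ fun j hj => ?_
    have hj' : j ≤ J - 1 := by
      rw [Finset.mem_range] at hj
      omega
    have hjJ : j < J := Finset.mem_range.1 hj
    have h2 : p * j ≤ p * (J - 1) := Nat.mul_le_mul_left _ hj'
    have h3 : (r j).natDegree ≤ a := natDegree_le_of_degree_le (hrd j hjJ).le
    have h4 : (s j).natDegree ≤ a := natDegree_le_of_degree_le (hsd j hjJ).le
    refine (natDegree_add_le _ _).trans (max_le ?_ ?_)
    · refine (natDegree_mul_le).trans ?_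
      rw [natDegree_X_pow]
      have h5 : (f ^ (l + 0) * r j).natDegree ≤ l * m + a := by
        refine (natDegree_mul_le).trans ?_
        rw [add_zero, natDegree_pow, ← hmd]
        omega
      have h6 : l * m ≤ (l + b) * m := Nat.mul_le_mul_right _ (by omega)
      omega
    · refine (natDegree_mul_le).trans ?_
      rw [natDegree_X_pow]
      have h5 : (f ^ (l + b) * s j).natDegree ≤ (l + b) * m + a := by
        refine (natDegree_mul_le).trans ?_
        rw [natDegree_pow, ← hmd]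
        omega
      omega
  refine SC_final p m q _ h1 hq hqp hqp' ?_
  rw [hld, hbd, had, hJd] at hdeg
  rw [hld] at hcount
  exact hcount.trans hdeg

end Pool.Agent.SkewGem
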