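import Mathlib
import Pool.Agent.Lib_MP_009b3c_lc.SC

/-!
# Piece SD: the Weil bound for the sum of `χ(f(x))`, `f` separable (with a weak constant)

If `p ≤ 961 m²` (`m = natDegree f`) the bound is trivial: the sum is at most `p = √p √p ≤ 31 m √p`. Otherwise there is `t` with `f(t) ≠ 0` (`m < p`), and we
may replace `f` by `f.comp (X + C t)` (still separable of degree `m`; the sum does not change: `Equiv.addRight`). `N₊`, `N₋`, `N₀` = number of `x`
with `χ(f(x)) = 1, -1, 0`. `N₊ ≤ p / 2 + 15 m √p` by `stepanov` (`quadraticChar_eq_pow_of_char_ne_two'`: `χ(y) = 1` iff `y ^ (p / 2) = 1`), and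
`N₋ ≤ p / 2 + 15 m √p` by `stepanov` for `C u * f`, `u` a non-square. `N₀ ≤ m`, `N₊ + N₋ + N₀ = p`, so
`|N₊ - N₋| ≤ 30 m √p + m ≤ 40 m √p`.
-/

namespace Pool.Agent.SkewGem

open Polynomial Finset

private theorem card_roots_le_SD (p : ℕ) [Fact p.Prime] (f : (ZMod p)[X]) (hf : f ≠ 0) :
    (univ.filter fun x : ZMod p => f.eval x = 0).card ≤ f.natDegree := by
  have h1 : (univ.filter fun x : ZMod p => f.eval x = 0) ⊆ f.roots.toFinset := by
    intro x hx
    rw [Finset.mem_filter] at hx
    rw [Multiset.mem_toFinset, Polynomial.mem_roots hf]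
    exact hx.2
  exact (Finset.card_le_card h1).trans ((Multiset.toFinset_card_le _).trans (card_roots' f))

private theorem sum_eq_SD (p : ℕ) [Fact p.Prime] (g : ZMod p → ZMod p) :
    ∑ x : ZMod p, (quadraticChar (ZMod p) (g x) : ℝ) =
      ((univ.filter fun x : ZMod p => quadraticChar (ZMod p) (g x) = 1).card : ℝ) -
      ((univ.filter fun x : ZMod p => quadraticChar (ZMod p) (g x) = -1).card : ℝ) := by
  rw [Finset.card_filter, Finset.card_filter]
  push_cast
  rw [← Finset.sum_sub_distrib]
  apply Finset.sum_congr rfl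
  intro x _
  rcases quadraticChar_isQuadratic (ZMod p) (g x) with h | h | h
  · rw [h]
    norm_num
  · rw [h]
    norm_num
  · rw [h]
    norm_num

private theorem card_eq_SD (p : ℕ) [Fact p.Prime] (g : ZMod p → ZMod p) :
    (p : ℝ) = ((univ.filter fun x : ZMod p => quadraticChar (ZMod p) (g x) = 1).card : ℝ) +
      ((univ.filter fun x : ZMod p => quadraticChar (ZMod p) (g x) = -1).card : ℝ) +
      ((univ.filter fun x : ZMod p => g x = 0).card : ℝ) := by
  rw [Finset.card_filter, Finset.card_filter, Finset.card_filter]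
  push_cast
  rw [← Finset.sum_add_distrib, ← Finset.sum_add_distrib]
  have h1 : (p : ℝ) = ∑ x : ZMod p, (1 : ℝ) := by
    rw [Finset.sum_const, Finset.card_univ, ZMod.card]
    simp
  rw [h1]
  apply Finset.sum_congr rfl
  intro x _
  by_cases hx : g x = 0
  · rw [hx]
    simp
  · rcases quadraticChar_dichotomy hx with h | h
    · rw [h, if_neg hx]
      norm_num
    · rw [h, if_neg hx]
      norm_num

private theorem case_SD (p : ℕ) [Fact p.Prime] (hp2 : p ≠ 2) (g : (ZMod p)[X]) (hg : g.Separable)
    (h1 : 1 ≤ g.natDegree) (h0 : g.eval 0 ≠ 0) (hm : 961 * g.natDegree ^ 2 < p) :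
    |∑ x : ZMod p, (quadraticChar (ZMod p) (g.eval x) : ℝ)| ≤ 40 * g.natDegree * √p := by
  have hchar : ringChar (ZMod p) ≠ 2 := by
    rw [ZMod.ringChar_zmod_n]
    exact hp2
  have hg0 : g ≠ 0 := by
    rintro rfl
    simp at h1
  obtain ⟨u, hu⟩ := quadraticChar_exists_neg_one' hchar
  have hu0 : (u : ZMod p) ≠ 0 := u.ne_zero
  have hC : IsUnit (C (u : ZMod p)) := Polynomial.isUnit_C.mpr u.isUnit
  have hsep : (C (u : ZMod p) * g).Separable := by
    have h2 : IsCoprime g (derivative g) := hg
    unfold Polynomial.Separable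
    rw [Polynomial.derivative_C_mul]
    rw [isCoprime_mul_unit_left hC]
    exact h2
  have hdeg : (C (u : ZMod p) * g).natDegree = g.natDegree := by
    rw [Polynomial.natDegree_C_mul hu0]
  have hP := stepanov p hp2 g hg h1 h0 hm
  have hQ := stepanov p hp2 (C (u : ZMod p) * g) hsep (by rw [hdeg]; exact h1) (by
    rw [Polynomial.eval_mul, Polynomial.eval_C]
    exact mul_ne_zero hu0 h0) (by rw [hdeg]; exact hm)
  rw [hdeg] at hQ
  have hpow : ∀ y : ZMod p, ((quadraticChar (ZMod p) y : ℤ) : ZMod p) = y ^ (p / 2) := by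
    intro y
    have := quadraticChar_eq_pow_of_char_ne_two' hchar y
    rw [ZMod.card] at this
    exact this
  have hP' : ((univ.filter fun x : ZMod p => quadraticChar (ZMod p) (g.eval x) = 1).card : ℝ) ≤
      p / 2 + 15 * g.natDegree * √p := by
    refine le_trans ?_ hP
    norm_cast
    apply Finset.card_le_card
    intro x hx
    simp only [Finset.mem_filter, Finset.mem_univ, true_and] at hx ⊢
    rw [← hpow, hx]
    simp
  have hQ' : ((univ.filter fun x : ZMod p => quadraticChar (ZMod p) (g.eval x) = -1).card : ℝ) ≤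
      p / 2 + 15 * g.natDegree * √p := by
    refine le_trans ?_ hQ
    norm_cast
    apply Finset.card_le_card
    intro x hx
    simp only [Finset.mem_filter, Finset.mem_univ, true_and] at hx ⊢
    rw [← hpow, Polynomial.eval_mul, Polynomial.eval_C, map_mul, hx, hu]
    simp
  have hN0 := card_roots_le_SD p g hg0
  have hN0' : ((univ.filter fun x : ZMod p => g.eval x = 0).card : ℝ) ≤ g.natDegree := by
    exact_mod_cast hN0
  have hsum := sum_eq_SD p (fun x => g.eval x)
  have hcard := card_eq_SD p (fun x => g.eval x)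
  rw [hsum]
  have hN0'' : (0 : ℝ) ≤ ((univ.filter fun x : ZMod p => g.eval x = 0).card : ℝ) := by positivity
  have hs1 : 1 ≤ √(p : ℝ) := by
    rw [Real.one_le_sqrt]
    exact_mod_cast (Fact.out : p.Prime).one_lt.le
  have hm1 : (g.natDegree : ℝ) ≤ g.natDegree * √p := by
    have : (0 : ℝ) ≤ g.natDegree := by positivity
    nlinarith
  rw [abs_le]
  constructor <;> linarith

theorem weil_bound (p : ℕ) [Fact p.Prime] (hp2 : p ≠ 2) (f : (ZMod p)[X]) (hf : f.Separable)
    (h1 : 1 ≤ f.natDegree) :
    |∑ x : ZMod p, (quadraticChar (ZMod p) (f.eval x) : ℝ)| ≤ 40 * f.natDegree * √p := by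
  by_cases hm : 961 * f.natDegree ^ 2 < p
  · have hf0 : f ≠ 0 := by
      rintro rfl
      simp at h1
    have hex : ∃ t, f.eval t ≠ 0 := by
      by_contra hc
      push Not at hc
      have h2 := card_roots_le_SD p f hf0
      rw [Finset.filter_true_of_mem (fun x _ => hc x), Finset.card_univ, ZMod.card] at h2
      nlinarith
    obtain ⟨t, ht⟩ := hex
    have hdeg : (f.comp (X + C t)).natDegree = f.natDegree := by
      rw [Polynomial.natDegree_comp, Polynomial.natDegree_X_add_C, mul_one]
    have hsep : (f.comp (X + C t)).Separable := by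
      have h2 : IsCoprime f (derivative f) := hf
      have h3 := h2.map (Polynomial.compRingHom (X + C t))
      unfold Polynomial.Separable
      rw [Polynomial.derivative_comp]
      simpa using h3
    have h4 := case_SD p hp2 (f.comp (X + C t)) hsep (by rw [hdeg]; exact h1) (by
      rw [Polynomial.eval_comp]
      simpa using ht) (by rw [hdeg]; exact hm)
    rw [hdeg] at h4
    have h5 : ∑ x : ZMod p, (quadraticChar (ZMod p) ((f.comp (X + C t)).eval x) : ℝ) =
        ∑ x : ZMod p, (quadraticChar (ZMod p) (f.eval x) : ℝ) := by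
      rw [← Equiv.sum_comp (Equiv.addRight t)
        (fun x : ZMod p => (quadraticChar (ZMod p) (f.eval x) : ℝ))]
      apply Finset.sum_congr rfl
      intro x _
      rw [Polynomial.eval_comp]
      simp
    rw [h5] at h4
    exact h4
  · push Not at hm
    have h2 : |∑ x : ZMod p, (quadraticChar (ZMod p) (f.eval x) : ℝ)| ≤ p := by
      refine (Finset.abs_sum_le_sum_abs _ _).trans ?_
      have h3 : ∀ x ∈ (univ : Finset (ZMod p)),
          |(quadraticChar (ZMod p) (f.eval x) : ℝ)| ≤ 1 := by
        intro x _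
        rcases quadraticChar_isQuadratic (ZMod p) (f.eval x) with h | h | h
        · rw [h]
          norm_num
        · rw [h]
          norm_num
        · rw [h]
          norm_num
      refine (Finset.sum_le_sum h3).trans ?_
      rw [Finset.sum_const, Finset.card_univ, ZMod.card]
      simp
    have h3 : √(p : ℝ) ≤ 31 * f.natDegree := by
      rw [Real.sqrt_le_left (by positivity)]
      have h4 : (p : ℝ) ≤ 961 * (f.natDegree : ℝ) ^ 2 := by exact_mod_cast hm
      nlinarith
    have h4 : √(p : ℝ) * √(p : ℝ) = p := Real.mul_self_sqrt (by positivity)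
    have h5 : 0 ≤ √(p : ℝ) := Real.sqrt_nonneg _
    have h6 : (0 : ℝ) ≤ f.natDegree := by positivity
    nlinarith [mul_le_mul_of_nonneg_right h3 h5, mul_nonneg h6 h5]

end Pool.Agent.SkewGem
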