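import Mathlib
import Pool.Agent.Lib_MP_009b3c_lc.SD

/-!
# Piece CNT: points where many independent polynomials are squares

Let `D = ∑_{a ∈ s} natDegree (h a)`. At most `D` elements of `A` are zeros of one of the `h a`. For the others
`∏_{a ∈ s} (1 + χ(h a (x))) = 2 ^ |s|`, and for every `x` this product is `≥ 0` and is `∑_{t ⊆ s} χ(∏_{a ∈ t} h a (x))` (`Finset.prod_one_add` /
`Finset.prod_add`). So `2 ^ |s| * (|A| - D) ≤ ∑_x ∑_t χ(∏_{a ∈ t} h a (x)) ≤ p + (2 ^ |s| - 1) * 40 D √p` by `weil_bound` for the products over the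
nonempty `t` (separable: `Polynomial.separable_prod'` or `Separable.mul`; degree between `1` and `D`).
-/

namespace Pool.Agent.SkewGem

open Polynomial Finset

private theorem bad_card_CNT (p : ℕ) [Fact p.Prime] {ι : Type*} (s : Finset ι)
    (h : ι → (ZMod p)[X]) (h0 : ∀ a ∈ s, h a ≠ 0) (A : Finset (ZMod p)) :
    (A.card : ℝ) ≤ ((A.filter fun x : ZMod p => ∀ a ∈ s, (h a).eval x ≠ 0).card : ℝ) +
      (∑ a ∈ s, (h a).natDegree : ℕ) := by
  classical
  have h1 : A ⊆ (A.filter fun x : ZMod p => ∀ a ∈ s, (h a).eval x ≠ 0) ∪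
      s.biUnion (fun a => (h a).roots.toFinset) := by
    intro x hx
    rw [Finset.mem_union, Finset.mem_filter, Finset.mem_biUnion]
    by_cases hc : ∀ a ∈ s, (h a).eval x ≠ 0
    · exact Or.inl ⟨hx, hc⟩
    · push Not at hc
      obtain ⟨a, ha, hxa⟩ := hc
      refine Or.inr ⟨a, ha, ?_⟩
      rw [Multiset.mem_toFinset, Polynomial.mem_roots (h0 a ha)]
      exact hxa
  have h2 : A.card ≤ (A.filter fun x : ZMod p => ∀ a ∈ s, (h a).eval x ≠ 0).card +
      ∑ a ∈ s, (h a).natDegree := by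
    refine (Finset.card_le_card h1).trans ((Finset.card_union_le _ _).trans ?_)
    refine Nat.add_le_add_left (Finset.card_biUnion_le.trans ?_) _
    exact Finset.sum_le_sum fun a _ => (Multiset.toFinset_card_le _).trans (card_roots' _)
  exact_mod_cast h2

private theorem sum_le_CNT (p : ℕ) [Fact p.Prime] (hp2 : p ≠ 2) {ι : Type*} (s : Finset ι)
    (h : ι → (ZMod p)[X]) (hsep : ∀ a ∈ s, (h a).Separable)
    (hdeg : ∀ a ∈ s, 1 ≤ (h a).natDegree)
    (hcop : ∀ a ∈ s, ∀ b ∈ s, a ≠ b → IsCoprime (h a) (h b)) (h0 : ∀ a ∈ s, h a ≠ 0)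
    (t : Finset ι) (ht : t ⊆ s) (hne : t.Nonempty) :
    ∑ x : ZMod p, ∏ a ∈ t, (quadraticChar (ZMod p) ((h a).eval x) : ℝ) ≤
      40 * (∑ a ∈ s, (h a).natDegree : ℕ) * √p := by
  classical
  have hsepT : (∏ a ∈ t, h a).Separable :=
    Polynomial.separable_prod' (fun a ha b hb hab => hcop a (ht ha) b (ht hb) hab)
      (fun a ha => hsep a (ht ha))
  have hdegT : (∏ a ∈ t, h a).natDegree = ∑ a ∈ t, (h a).natDegree :=
    Polynomial.natDegree_prod _ _ (fun a ha => h0 a (ht ha))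
  obtain ⟨a0, ha0⟩ := hne
  have h1 : 1 ≤ (∏ a ∈ t, h a).natDegree := by
    rw [hdegT]
    exact (hdeg a0 (ht ha0)).trans
      (Finset.single_le_sum (f := fun a => (h a).natDegree) (fun _ _ => Nat.zero_le _) ha0)
  have h2 : (∏ a ∈ t, h a).natDegree ≤ ∑ a ∈ s, (h a).natDegree := by
    rw [hdegT]
    exact Finset.sum_le_sum_of_subset ht
  have h3 := weil_bound p hp2 _ hsepT h1
  have h4 : ∑ x : ZMod p, ∏ a ∈ t, (quadraticChar (ZMod p) ((h a).eval x) : ℝ) =
      ∑ x : ZMod p, (quadraticChar (ZMod p) ((∏ a ∈ t, h a).eval x) : ℝ) := by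
    apply Finset.sum_congr rfl
    intro x _
    rw [Polynomial.eval_prod, map_prod]
    push_cast
    rfl
  rw [h4]
  refine (le_abs_self _).trans (h3.trans ?_)
  have h5 : ((∏ a ∈ t, h a).natDegree : ℝ) ≤ (∑ a ∈ s, (h a).natDegree : ℕ) := by
    exact_mod_cast h2
  have h6 := Real.sqrt_nonneg (p : ℝ)
  exact mul_le_mul_of_nonneg_right (mul_le_mul_of_nonneg_left h5 (by norm_num)) h6

private theorem point_CNT (p : ℕ) [Fact p.Prime] {ι : Type*} (s : Finset ι)
    (h : ι → (ZMod p)[X]) (x : ZMod p) :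
    0 ≤ ∏ a ∈ s, (1 + (quadraticChar (ZMod p) ((h a).eval x) : ℝ)) := by
  apply Finset.prod_nonneg
  intro a _
  rcases quadraticChar_isQuadratic (ZMod p) ((h a).eval x) with h1 | h1 | h1
  · rw [h1]
    norm_num
  · rw [h1]
    norm_num
  · rw [h1]
    norm_num

private theorem point_eq_CNT (p : ℕ) [Fact p.Prime] {ι : Type*} (s : Finset ι)
    (h : ι → (ZMod p)[X]) (x : ZMod p) (h0 : ∀ a ∈ s, (h a).eval x ≠ 0)
    (h2 : ∀ a ∈ s, IsSquare ((h a).eval x)) :
    ∏ a ∈ s, (1 + (quadraticChar (ZMod p) ((h a).eval x) : ℝ)) = 2 ^ s.card := by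
  rw [← Finset.prod_const]
  apply Finset.prod_congr rfl
  intro a ha
  rw [(quadraticChar_one_iff_isSquare (h0 a ha)).2 (h2 a ha)]
  norm_num

theorem count_squares (p : ℕ) [Fact p.Prime] (hp2 : p ≠ 2) {ι : Type*} (s : Finset ι)
    (h : ι → (ZMod p)[X]) (hsep : ∀ a ∈ s, (h a).Separable)
    (hdeg : ∀ a ∈ s, 1 ≤ (h a).natDegree)
    (hcop : ∀ a ∈ s, ∀ b ∈ s, a ≠ b → IsCoprime (h a) (h b)) (A : Finset (ZMod p))
    (hA : ∀ x ∈ A, ∀ a ∈ s, IsSquare ((h a).eval x)) :
    (A.card : ℝ) ≤ p / 2 ^ s.card + (∑ a ∈ s, (h a).natDegree : ℕ) * (40 * √p + 1) := by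
  classical
  have h0 : ∀ a ∈ s, h a ≠ 0 := by
    intro a ha h1
    have h2 := hdeg a ha
    rw [h1] at h2
    simp at h2
  have hb := bad_card_CNT p s h h0 A
  set A' := A.filter fun x : ZMod p => ∀ a ∈ s, (h a).eval x ≠ 0 with hA'
  have h1 : (2 : ℝ) ^ s.card * A'.card ≤
      ∑ x : ZMod p, ∏ a ∈ s, (1 + (quadraticChar (ZMod p) ((h a).eval x) : ℝ)) := by
    have h2 : ∑ x ∈ A', ∏ a ∈ s, (1 + (quadraticChar (ZMod p) ((h a).eval x) : ℝ)) =
        (2 : ℝ) ^ s.card * A'.card := by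
      rw [Finset.sum_congr rfl (fun x hx => point_eq_CNT p s h x (by
        rw [hA', Finset.mem_filter] at hx
        exact hx.2) (by
        rw [hA', Finset.mem_filter] at hx
        exact hA x hx.1)), Finset.sum_const, nsmul_eq_mul, mul_comm]
    rw [← h2]
    exact Finset.sum_le_sum_of_subset_of_nonneg (Finset.subset_univ _)
      (fun x _ _ => point_CNT p s h x)
  have h3 : ∑ x : ZMod p, ∏ a ∈ s, (1 + (quadraticChar (ZMod p) ((h a).eval x) : ℝ)) =
      ∑ t ∈ s.powerset, ∑ x : ZMod p, ∏ a ∈ t, (quadraticChar (ZMod p) ((h a).eval x) : ℝ) := by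
    rw [Finset.sum_comm]
    apply Finset.sum_congr rfl
    intro x _
    rw [Finset.prod_one_add]
  have h4 : ∑ t ∈ s.powerset, ∑ x : ZMod p,
      ∏ a ∈ t, (quadraticChar (ZMod p) ((h a).eval x) : ℝ) ≤
      p + 2 ^ s.card * (40 * (∑ a ∈ s, (h a).natDegree : ℕ) * √p) := by
    rw [← Finset.add_sum_erase _ _ (Finset.empty_mem_powerset s)]
    apply add_le_add
    · rw [Finset.sum_congr rfl (fun x _ => Finset.prod_empty), Finset.sum_const,
        Finset.card_univ, ZMod.card]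
      simp
    · have h5 : ∀ t ∈ s.powerset.erase ∅, ∑ x : ZMod p,
          ∏ a ∈ t, (quadraticChar (ZMod p) ((h a).eval x) : ℝ) ≤
          40 * (∑ a ∈ s, (h a).natDegree : ℕ) * √p := by
        intro t ht
        rw [Finset.mem_erase, Finset.mem_powerset] at ht
        exact sum_le_CNT p hp2 s h hsep hdeg hcop h0 t ht.2
          (Finset.nonempty_iff_ne_empty.2 ht.1)
      refine (Finset.sum_le_sum h5).trans ?_
      rw [Finset.sum_const, nsmul_eq_mul]
      have h6 : ((s.powerset.erase ∅).card : ℝ) ≤ 2 ^ s.card := by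
        have h7 : (s.powerset.erase ∅).card ≤ s.powerset.card :=
          Finset.card_le_card (Finset.erase_subset _ _)
        rw [Finset.card_powerset] at h7
        exact_mod_cast h7
      exact mul_le_mul_of_nonneg_right h6 (by positivity)
  have h8 : (2 : ℝ) ^ s.card * A'.card ≤
      p + 2 ^ s.card * (40 * (∑ a ∈ s, (h a).natDegree : ℕ) * √p) :=
    h1.trans (h3.le.trans h4)
  have h9 : (0 : ℝ) < 2 ^ s.card := by positivity
  have h10 : (A'.card : ℝ) ≤ p / 2 ^ s.card +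
      40 * (∑ a ∈ s, (h a).natDegree : ℕ) * √p := by
    rw [← sub_le_iff_le_add, le_div_iff₀ h9]
    linarith
  linarith

end Pool.Agent.SkewGem
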