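import Mathlib

/-!
# Uniqueness of the inner polynomial in a decomposition
-/

namespace Pool.Agent.SkewGem

open Polynomial Finset

variable {R : Type*} [CommRing R] [IsDomain R]

private theorem dec_low (A G : R[X]) {m d : ℕ} (hm : 1 ≤ m) (hA : A.natDegree = m)
    (hG : G.natDegree = d) :
    (A.comp G - C A.leadingCoeff * G ^ m).natDegree ≤ (m - 1) * d := by
  have h1 : A.comp G - C A.leadingCoeff * G ^ m = A.eraseLead.comp G := by
    have h2 := congrArg (fun P => P.comp G) (eraseLead_add_C_mul_X_pow A)
    simp only [add_comp, mul_comp, C_comp, X_pow_comp, hA] at h2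
    rw [← h2]
    ring
  rw [h1, natDegree_comp, hG]
  exact Nat.mul_le_mul_right _ ((eraseLead_natDegree_le A).trans (by rw [hA]))

/-- Two decompositions with inner polynomials of the same degree have the same inner polynomial,
up to an affine map. -/
theorem comp_unique [CharZero R] {A B G G' : R[X]} {m d : ℕ} (hd : 1 ≤ d) (hm : 1 ≤ m)
    (hA : A.natDegree = m) (hB : B.natDegree = m) (hG : G.natDegree = d)
    (hG' : G'.natDegree = d) (h : A.comp G = B.comp G') :
    ∃ β : R, C G'.leadingCoeff * G - C G.leadingCoeff * G' = C β := by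
  set a := G.leadingCoeff with ha
  set b := G'.leadingCoeff with hb
  have hG0 : G ≠ 0 := by
    rintro rfl
    rw [natDegree_zero] at hG
    omega
  have hG0' : G' ≠ 0 := by
    rintro rfl
    rw [natDegree_zero] at hG'
    omega
  have hA0 : A ≠ 0 := by
    rintro rfl
    rw [natDegree_zero] at hA
    omega
  have ha0 : a ≠ 0 := leadingCoeff_ne_zero.2 hG0
  have hb0 : b ≠ 0 := leadingCoeff_ne_zero.2 hG0'
  have hl : A.leadingCoeff * a ^ m = B.leadingCoeff * b ^ m := by
    have h1 := congrArg leadingCoeff h
    rw [leadingCoeff_comp (by omega), leadingCoeff_comp (by omega), hA, hB] at h1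
    exact h1
  set x := C b * G with hx
  set y := C a * G' with hy
  have hxd : x.natDegree = d := by rw [hx, natDegree_C_mul hb0, hG]
  have hyd : y.natDegree = d := by rw [hy, natDegree_C_mul ha0, hG']
  have hxl : x.leadingCoeff = a * b := by
    rw [hx, leadingCoeff_mul, leadingCoeff_C, mul_comm]
  have hyl : y.leadingCoeff = a * b := by
    rw [hy, leadingCoeff_mul, leadingCoeff_C]
  -- the powers agree up to low degree
  have hlow : (C (A.leadingCoeff * a ^ m) * (x ^ m - y ^ m)).natDegree ≤ (m - 1) * d := by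
    have h1 := dec_low A G hm hA hG
    have h2 := dec_low B G' hm hB hG'
    have e : C (A.leadingCoeff * a ^ m) * (x ^ m - y ^ m) =
        C (a ^ m * b ^ m) * (B.comp G' - C B.leadingCoeff * G' ^ m) -
          C (a ^ m * b ^ m) * (A.comp G - C A.leadingCoeff * G ^ m) := by
      rw [h]
      have e1 : C (A.leadingCoeff * a ^ m) * x ^ m =
          C (a ^ m * b ^ m) * (C A.leadingCoeff * G ^ m) := by
        rw [hx, mul_pow]
        simp only [C_mul, C_pow]
        ring
      have e2 : C (A.leadingCoeff * a ^ m) * y ^ m =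
          C (a ^ m * b ^ m) * (C B.leadingCoeff * G' ^ m) := by
        rw [hl, hy, mul_pow]
        simp only [C_mul, C_pow]
        ring
      rw [mul_sub, e1, e2]
      ring
    rw [e]
    exact (natDegree_sub_le _ _).trans (max_le ((natDegree_C_mul_le _ _).trans h2)
      ((natDegree_C_mul_le _ _).trans h1))
  have hl0 : A.leadingCoeff * a ^ m ≠ 0 :=
    mul_ne_zero (leadingCoeff_ne_zero.2 hA0) (pow_ne_zero _ ha0)
  rw [natDegree_C_mul hl0] at hlow
  -- the cofactor
  set S := ∑ k ∈ range m, x ^ k * y ^ (m - 1 - k) with hS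
  have hfac : S * (x - y) = x ^ m - y ^ m := (Commute.all x y).geom_sum₂_mul m
  have hcoef : S.coeff ((m - 1) * d) = m * (a * b) ^ (m - 1) := by
    rw [hS, finsetSum_coeff]
    have h1 : ∀ k ∈ range m, (x ^ k * y ^ (m - 1 - k)).coeff ((m - 1) * d) =
        (a * b) ^ (m - 1) := by
      intro k hk
      rw [mem_range] at hk
      have h2 : (x ^ k * y ^ (m - 1 - k)).natDegree = (m - 1) * d := by
        rw [natDegree_mul (pow_ne_zero _ ?_) (pow_ne_zero _ ?_), natDegree_pow, natDegree_pow, hxd,
          hyd, ← add_mul]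
        · congr 1
          omega
        · rw [← leadingCoeff_ne_zero, hxl]
          exact mul_ne_zero ha0 hb0
        · rw [← leadingCoeff_ne_zero, hyl]
          exact mul_ne_zero ha0 hb0
      rw [← h2, coeff_natDegree, leadingCoeff_mul, leadingCoeff_pow, leadingCoeff_pow, hxl, hyl,
        ← pow_add]
      congr 1
      omega
    rw [sum_congr rfl h1, sum_const, card_range, nsmul_eq_mul]
  have hcoef0 : S.coeff ((m - 1) * d) ≠ 0 := by
    rw [hcoef]
    exact mul_ne_zero (by exact_mod_cast (by omega : m ≠ 0)) (pow_ne_zero _ (mul_ne_zero ha0 hb0))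
  have hS0 : S ≠ 0 := by
    intro h0
    rw [h0, coeff_zero] at hcoef0
    exact hcoef0 rfl
  have hSd : (m - 1) * d ≤ S.natDegree := le_natDegree_of_ne_zero hcoef0
  rcases eq_or_ne (x - y) 0 with h0 | h0
  · exact ⟨0, by rw [h0, C_0]⟩
  · have h1 : (S * (x - y)).natDegree = S.natDegree + (x - y).natDegree := natDegree_mul hS0 h0
    rw [hfac] at h1
    have h2 : (x - y).natDegree = 0 := by omega
    exact ⟨(x - y).coeff 0, eq_C_of_natDegree_eq_zero h2⟩

end Pool.Agent.SkewGem
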