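import Mathlib

/-!
# Skew circuits and skew gems (MP_009b3c_lc)
-/

namespace Pool.Agent.SkewGem

open Polynomial

/-- The label of a node of a circuit with `N` nodes: the variable `x`, an integer, or an operation
together with its two inputs. -/
inductive Node (N : ℕ) where
  | var : Node N
  | int (a : ℤ) : Node N
  | mul (i j : Fin N) : Node N
  | add (i j : Fin N) : Node N
  | sub (i j : Fin N) : Node N

namespace Node

variable {N : ℕ}

/-- The node has `k` as an input. -/
def Reads : Node N → Fin N → Prop
  | var, _ => False
  | int _, _ => False
  | mul i j, k => k = i ∨ k = j
  | add i j, k => k = i ∨ k = j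
  | sub i j, k => k = i ∨ k = j

/-- The node is a product gate. -/
def IsMul : Node N → Prop
  | mul _ _ => True
  | _ => False

/-- The node is an input gate labelled by an integer. -/
def IsInt : Node N → Prop
  | int _ => True
  | _ => False

/-- The polynomial of a node, when `v` gives the polynomials of the other nodes. -/
noncomputable def val (v : Fin N → ℤ[X]) : Node N → ℤ[X]
  | var => X
  | int a => C a
  | mul i j => v i * v j
  | add i j => v i + v j
  | sub i j => v i - v j

end Node

/-- A circuit: a finite directed acyclic graph, the nodes numbered so that every node comes after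
its inputs, with one output node. -/
structure Circuit where
  size : ℕ
  node : Fin size → Node size
  acyclic : ∀ g i, (node g).Reads i → i < g
  out : Fin size

namespace Circuit

/-- The circuit computes `f`. -/
def Computes (K : Circuit) (f : ℤ[X]) : Prop :=
  ∃ v : Fin K.size → ℤ[X], (∀ g, v g = (K.node g).val v) ∧ v K.out = f

/-- Each additive gate adds or subtracts an integer: one of its two inputs is an input gate
labelled by an integer. -/
def Skew (K : Circuit) : Prop :=
  ∀ g i j, K.node g = .add i j ∨ K.node g = .sub i j → (K.node i).IsInt ∨ (K.node j).IsInt

/-- The number of product gates. -/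
noncomputable def products (K : Circuit) : ℕ := by
  classical
  exact (Finset.univ.filter fun g => (K.node g).IsMul).card

end Circuit

/-- `f` is computed by a skew `2 ^ n`-gem: a skew circuit with at most `n` product gates, `f` has
degree `2 ^ n` and `2 ^ n` distinct integer roots. -/
def IsSkewGem (n : ℕ) (f : ℤ[X]) : Prop :=
  (∃ K : Circuit, K.Skew ∧ K.Computes f ∧ K.products ≤ n) ∧ f.natDegree = 2 ^ n ∧
    f.roots.toFinset.card = 2 ^ n

end Pool.Agent.SkewGem
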