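import Mathlib
import Pool.Agent.Lib_MP_009b3c_lc.Defs

/-!
# The product gates of a skew gem

Every product gate of a skew circuit with at most `n` product gates and a polynomial `f` of degree
`2 ^ n` computes a polynomial `q` of degree `2 ^ i` with `f = h ∘ q`.
-/

namespace Pool.Agent.SkewGem

open Polynomial Finset

namespace Circuit

variable (K : Circuit)

/-- The number of product gates up to the node `g`. -/
noncomputable def cnt (g : Fin K.size) : ℕ := by
  classical
  exact (univ.filter fun u => u ≤ g ∧ (K.node u).IsMul).card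

variable {K}

theorem cnt_mono {g g' : Fin K.size} (h : g ≤ g') : K.cnt g ≤ K.cnt g' := by
  classical
  unfold cnt
  refine card_le_card fun u hu => ?_
  rw [mem_filter] at hu ⊢
  exact ⟨hu.1, hu.2.1.trans h, hu.2.2⟩

theorem cnt_le_products (g : Fin K.size) : K.cnt g ≤ K.products := by
  classical
  unfold cnt products
  refine card_le_card fun u hu => ?_
  rw [mem_filter] at hu ⊢
  exact ⟨hu.1, hu.2.2⟩

theorem le_of_cnt_eq {g g' : Fin K.size} (h : g ≤ g') (hc : K.cnt g = K.cnt g') {u : Fin K.size}
    (hu : u ≤ g') (hm : (K.node u).IsMul) : u ≤ g := by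
  classical
  unfold cnt at hc
  have hsub : (univ.filter fun u => u ≤ g ∧ (K.node u).IsMul) ⊆
      univ.filter fun u => u ≤ g' ∧ (K.node u).IsMul := by
    intro u hu
    rw [mem_filter] at hu ⊢
    exact ⟨hu.1, hu.2.1.trans h, hu.2.2⟩
  have heq := eq_of_subset_of_card_le hsub hc.ge
  have hmem : u ∈ univ.filter fun u => u ≤ g' ∧ (K.node u).IsMul := by
    rw [mem_filter]
    exact ⟨mem_univ u, hu, hm⟩
  rw [← heq, mem_filter] at hmem
  exact hmem.2.1

theorem le_of_cnt_eq_products {g : Fin K.size} (hc : K.cnt g = K.products) {u : Fin K.size}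
    (hm : (K.node u).IsMul) : u ≤ g := by
  classical
  unfold cnt products at hc
  have hsub : (univ.filter fun u => u ≤ g ∧ (K.node u).IsMul) ⊆
      univ.filter fun u => (K.node u).IsMul := by
    intro u hu
    rw [mem_filter] at hu ⊢
    exact ⟨hu.1, hu.2.2⟩
  have heq := eq_of_subset_of_card_le hsub hc.ge
  have hmem : u ∈ univ.filter fun u => (K.node u).IsMul := by
    rw [mem_filter]
    exact ⟨mem_univ u, hm⟩
  rw [← heq, mem_filter] at hmem
  exact hmem.2.1

theorem cnt_lt {g i : Fin K.size} (h : i < g) (hm : (K.node g).IsMul) :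
    K.cnt i + 1 ≤ K.cnt g ∧ (K.cnt i + 1 = K.cnt g → ∀ u ≤ g, (K.node u).IsMul → u ≠ g → u ≤ i) := by
  classical
  unfold cnt
  have hni : g ∉ univ.filter fun u => u ≤ i ∧ (K.node u).IsMul := by
    rw [mem_filter]
    rintro ⟨-, h1, -⟩
    exact absurd h1 (not_le.2 h)
  have hsub : insert g (univ.filter fun u => u ≤ i ∧ (K.node u).IsMul) ⊆
      univ.filter fun u => u ≤ g ∧ (K.node u).IsMul := by
    intro u hu
    rw [mem_insert, mem_filter] at hu
    rw [mem_filter]
    rcases hu with rfl | hu
    · exact ⟨mem_univ u, le_rfl, hm⟩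
    · exact ⟨hu.1, hu.2.1.trans h.le, hu.2.2⟩
  have hc := card_insert_of_notMem hni
  refine ⟨hc ▸ card_le_card hsub, fun heq u hu hum hne => ?_⟩
  have h2 := eq_of_subset_of_card_le hsub (by rw [hc]; exact heq.ge)
  have hmem : u ∈ univ.filter fun u => u ≤ g ∧ (K.node u).IsMul := by
    rw [mem_filter]
    exact ⟨mem_univ u, hu, hum⟩
  rw [← h2, mem_insert, mem_filter] at hmem
  exact (hmem.resolve_left hne).2.1

theorem isInt_val {v : Fin K.size → ℤ[X]} (hv : ∀ g, v g = (K.node g).val v) {i : Fin K.size}
    (h : (K.node i).IsInt) : ∃ a : ℤ, v i = C a := by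
  rw [hv i]
  cases hi : K.node i with
  | int a => exact ⟨a, rfl⟩
  | var => rw [hi] at h; exact h.elim
  | mul _ _ => rw [hi] at h; exact h.elim
  | add _ _ => rw [hi] at h; exact h.elim
  | sub _ _ => rw [hi] at h; exact h.elim

/-- An additive gate: up to sign and an integer it is one of its inputs. -/
theorem additive_val (hK : K.Skew) {v : Fin K.size → ℤ[X]} (hv : ∀ g, v g = (K.node g).val v)
    {g i j : Fin K.size} (h : K.node g = .add i j ∨ K.node g = .sub i j) :
    ∃ (k : Fin K.size) (h : ℤ[X]), k < g ∧ h.natDegree = 1 ∧ v g = h.comp (v k) := by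
  have hig : i < g := by
    refine K.acyclic g i ?_
    rcases h with h | h <;> rw [h] <;> exact Or.inl rfl
  have hjg : j < g := by
    refine K.acyclic g j ?_
    rcases h with h | h <;> rw [h] <;> exact Or.inr rfl
  rcases hK g i j h with hi | hj
  · obtain ⟨a, ha⟩ := isInt_val hv hi
    rcases h with h | h
    · refine ⟨j, X + C a, hjg, natDegree_X_add_C a, ?_⟩
      rw [hv g, h]
      show v i + v j = _
      rw [ha, add_comp, X_comp, C_comp, add_comm]
    · refine ⟨j, C (-1) * X + C a, hjg, natDegree_linear (by norm_num), ?_⟩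
      rw [hv g, h]
      show v i - v j = _
      rw [ha, add_comp, mul_comp, X_comp, C_comp, C_comp, C_neg, C_1]
      ring
  · obtain ⟨a, ha⟩ := isInt_val hv hj
    rcases h with h | h
    · refine ⟨i, X + C a, hig, natDegree_X_add_C a, ?_⟩
      rw [hv g, h]
      show v i + v j = _
      rw [ha, add_comp, X_comp, C_comp]
    · refine ⟨i, X + C (-a), hig, natDegree_X_add_C _, ?_⟩
      rw [hv g, h]
      show v i - v j = _
      rw [ha, add_comp, X_comp, C_comp, C_neg]
      ring

theorem natDegree_le (hK : K.Skew) {v : Fin K.size → ℤ[X]} (hv : ∀ g, v g = (K.node g).val v)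
    (g : Fin K.size) : (v g).natDegree ≤ 2 ^ K.cnt g := by
  induction g using WellFoundedLT.induction with
  | ind g ih =>
    cases hg : K.node g with
    | var =>
      rw [hv g, hg]
      show (X : ℤ[X]).natDegree ≤ _
      rw [natDegree_X]
      exact Nat.one_le_two_pow
    | int a =>
      rw [hv g, hg]
      show (C a : ℤ[X]).natDegree ≤ _
      rw [natDegree_C]
      exact Nat.zero_le _
    | mul i j =>
      have hm : (K.node g).IsMul := by rw [hg]; trivial
      have hi : i < g := K.acyclic g i (by rw [hg]; exact Or.inl rfl)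
      have hj : j < g := K.acyclic g j (by rw [hg]; exact Or.inr rfl)
      have h1 := (cnt_lt hi hm).1
      have h2 := (cnt_lt hj hm).1
      obtain ⟨k, hk⟩ : ∃ k, K.cnt g = k + 1 := ⟨K.cnt g - 1, by omega⟩
      have h3 : (v i).natDegree ≤ 2 ^ k :=
        (ih i hi).trans (Nat.pow_le_pow_right (by norm_num) (by omega))
      have h4 : (v j).natDegree ≤ 2 ^ k :=
        (ih j hj).trans (Nat.pow_le_pow_right (by norm_num) (by omega))
      have h5 : v g = v i * v j := by rw [hv g, hg]; rfl
      rw [h5, hk, pow_succ]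
      have := natDegree_mul_le (p := v i) (q := v j)
      omega
    | add i j =>
      obtain ⟨k, h, hk, hd, he⟩ := additive_val hK hv (Or.inl hg)
      rw [he, natDegree_comp, hd, one_mul]
      exact (ih k hk).trans (Nat.pow_le_pow_right (by norm_num) (cnt_mono hk.le))
    | sub i j =>
      obtain ⟨k, h, hk, hd, he⟩ := additive_val hK hv (Or.inr hg)
      rw [he, natDegree_comp, hd, one_mul]
      exact (ih k hk).trans (Nat.pow_le_pow_right (by norm_num) (cnt_mono hk.le))

/-- All product gates below a node of full degree have full degree, and the polynomial of the node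
is a polynomial in theirs. -/
theorem full_below (hK : K.Skew) {v : Fin K.size → ℤ[X]} (hv : ∀ g, v g = (K.node g).val v)
    (g : Fin K.size) : (v g).natDegree = 2 ^ K.cnt g → ∀ u ≤ g, (K.node u).IsMul →
      (v u).natDegree = 2 ^ K.cnt u ∧ ∃ h : ℤ[X], v g = h.comp (v u) := by
  induction g using WellFoundedLT.induction with
  | ind g ih =>
    intro hfull u hu hum
    have additive : (∃ i j, K.node g = .add i j ∨ K.node g = .sub i j) →
        (v u).natDegree = 2 ^ K.cnt u ∧ ∃ h : ℤ[X], v g = h.comp (v u) := by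
      rintro ⟨i, j, hg⟩
      obtain ⟨k, h, hk, hd, he⟩ := additive_val hK hv hg
      have h1 : (v k).natDegree = 2 ^ K.cnt g := by
        rw [← hfull, he, natDegree_comp, hd, one_mul]
      have h2 := natDegree_le hK hv k
      have h3 : K.cnt k = K.cnt g := by
        refine le_antisymm (cnt_mono hk.le) ?_
        rw [h1] at h2
        exact (Nat.pow_le_pow_iff_right (by norm_num)).1 h2
      obtain ⟨h4, q, h5⟩ := ih k hk (by rw [h1, h3]) u (le_of_cnt_eq hk.le h3 hu hum) hum
      exact ⟨h4, h.comp q, by rw [he, h5, comp_assoc]⟩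
    cases hg : K.node g with
    | var =>
      exfalso
      have h1 : v g = X := by rw [hv g, hg]; rfl
      rw [h1, natDegree_X] at hfull
      have h2 : K.cnt g = 0 := by
        by_contra hcon
        have : 2 ^ 1 ≤ 2 ^ K.cnt g := Nat.pow_le_pow_right (by norm_num) (by omega)
        omega
      rcases hu.lt_or_eq with h | rfl
      · have h3 : 0 < K.cnt u := by
          classical
          unfold cnt
          rw [card_pos]
          exact ⟨u, mem_filter.2 ⟨mem_univ u, le_rfl, hum⟩⟩
        have := cnt_mono h.le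
        omega
      · rw [hg] at hum
        exact hum
    | int a =>
      exfalso
      have h1 : v g = C a := by rw [hv g, hg]; rfl
      rw [h1, natDegree_C] at hfull
      exact absurd hfull.symm (pow_pos (by norm_num) _).ne'
    | mul i j =>
      have hm : (K.node g).IsMul := by rw [hg]; trivial
      have h5 : v g = v i * v j := by rw [hv g, hg]; rfl
      rcases eq_or_ne u g with rfl | hne
      · exact ⟨hfull, X, by rw [X_comp]⟩
      have hi : i < g := K.acyclic g i (by rw [hg]; exact Or.inl rfl)
      have hj : j < g := K.acyclic g j (by rw [hg]; exact Or.inr rfl)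
      have h1 := cnt_lt hi hm
      have h2 := cnt_lt hj hm
      obtain ⟨k, hk⟩ : ∃ k, K.cnt g = k + 1 := ⟨K.cnt g - 1, by omega⟩
      have h3 := natDegree_le hK hv i
      have h4 := natDegree_le hK hv j
      have h3' : 2 ^ K.cnt i ≤ 2 ^ k := Nat.pow_le_pow_right (by norm_num) (by omega)
      have h4' : 2 ^ K.cnt j ≤ 2 ^ k := Nat.pow_le_pow_right (by norm_num) (by omega)
      have h6 := natDegree_mul_le (p := v i) (q := v j)
      rw [← h5, hfull, hk, pow_succ] at h6
      have h7 : (v i).natDegree = 2 ^ K.cnt i ∧ 2 ^ K.cnt i = 2 ^ k := by omega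
      have h8 : (v j).natDegree = 2 ^ K.cnt j ∧ 2 ^ K.cnt j = 2 ^ k := by omega
      have h9 : K.cnt i = k := Nat.pow_right_injective (le_refl 2) h7.2
      have h10 : K.cnt j = k := Nat.pow_right_injective (le_refl 2) h8.2
      obtain ⟨a1, q1, b1⟩ := ih i hi h7.1 u (h1.2 (by omega) u hu hum hne) hum
      obtain ⟨a2, q2, b2⟩ := ih j hj h8.1 u (h2.2 (by omega) u hu hum hne) hum
      exact ⟨a1, q1 * q2, by rw [h5, mul_comp, ← b1, ← b2]⟩
    | add i j => exact additive ⟨i, j, Or.inl hg⟩
    | sub i j => exact additive ⟨i, j, Or.inr hg⟩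

/-- The product gates of a skew gem. -/
theorem product_gates (hK : K.Skew) {v : Fin K.size → ℤ[X]} (hv : ∀ g, v g = (K.node g).val v)
    {n : ℕ} (hn : K.products ≤ n) (hdeg : (v K.out).natDegree = 2 ^ n) (u : Fin K.size)
    (hu : (K.node u).IsMul) :
    ∃ (h : ℤ[X]) (i : ℕ), 1 ≤ i ∧ (v u).natDegree = 2 ^ i ∧ v K.out = h.comp (v u) := by
  have h1 := natDegree_le hK hv K.out
  rw [hdeg] at h1
  have h2 : n ≤ K.cnt K.out := (Nat.pow_le_pow_iff_right (by norm_num)).1 h1
  have h3 := cnt_le_products K.out
  have h4 : K.cnt K.out = K.products := by omega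
  have h5 : K.cnt K.out = n := by omega
  obtain ⟨h6, h, h7⟩ := full_below hK hv K.out (by rw [hdeg, h5]) u (le_of_cnt_eq_products h4 hu) hu
  refine ⟨h, K.cnt u, ?_, h6, h7⟩
  classical
  unfold cnt
  rw [Nat.one_le_iff_ne_zero, ← Nat.pos_iff_ne_zero, card_pos]
  exact ⟨u, mem_filter.2 ⟨mem_univ u, le_rfl, hu⟩⟩

end Circuit

end Pool.Agent.SkewGem
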