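import Mathlib

/-!
# Towers of quadratic polynomials, their critical values and root trees
-/

namespace Pool.Agent.SkewGem

open Polynomial

variable {R : Type*} [CommRing R]

/-- `twr c i = (… ((X² - c 0)² - c 1)² - … )² - c (i - 1)`. -/
noncomputable def twr (c : ℕ → R) : ℕ → R[X]
  | 0 => X
  | i + 1 => twr c i ^ 2 - C (c i)

/-- The critical values: `crit c m k` is the value after `k` steps of the number `0` at level `m`;
the critical values of `twr c i` are the numbers `crit c m k` with `m + k = i`, `1 ≤ k`. -/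
def crit (c : ℕ → R) (m : ℕ) : ℕ → R
  | 0 => 0
  | k + 1 => crit c m k ^ 2 - c (m + k)

/-- The tree of the roots: `S i` is the set of the values of `twr c i` at the roots. -/
structure Tree (c : ℕ → R) (n : ℕ) (S : ℕ → Finset R) : Prop where
  top : S n = {0}
  neg : ∀ i < n, ∀ w ∈ S i, -w ∈ S i
  down : ∀ i < n, ∀ w ∈ S i, w ^ 2 - c i ∈ S (i + 1)
  up : ∀ i < n, ∀ t ∈ S (i + 1), ∃ w ∈ S i, w ^ 2 - c i = t

/-! ### Towers -/

theorem twr_zero (c : ℕ → R) : twr c 0 = X := rfl

theorem twr_succ (c : ℕ → R) (i : ℕ) : twr c (i + 1) = twr c i ^ 2 - C (c i) := rfl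

theorem eval_twr_zero (c : ℕ → R) (x : R) : eval x (twr c 0) = x := eval_X

theorem eval_twr_succ (c : ℕ → R) (i : ℕ) (x : R) :
    eval x (twr c (i + 1)) = eval x (twr c i) ^ 2 - c i := by
  rw [twr_succ, eval_sub, eval_pow, eval_C]

theorem twr_map {R' : Type*} [CommRing R'] (φ : R →+* R') (c : ℕ → R) (i : ℕ) :
    (twr c i).map φ = twr (fun k => φ (c k)) i := by
  induction i with
  | zero => exact map_X φ
  | succ i ih => rw [twr_succ, twr_succ, Polynomial.map_sub, Polynomial.map_pow, ih, map_C]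

theorem crit_zero (c : ℕ → R) (m : ℕ) : crit c m 0 = 0 := rfl

theorem crit_succ (c : ℕ → R) (m k : ℕ) : crit c m (k + 1) = crit c m k ^ 2 - c (m + k) := rfl

theorem crit_one (c : ℕ → R) (m : ℕ) : crit c m 1 = -c m := by
  rw [crit_succ, crit_zero, add_zero]
  ring

/-- The part of the tower above level `i`. -/
theorem twr_add (c : ℕ → R) (i k : ℕ) :
    twr c (i + k) = (twr (fun m => c (i + m)) k).comp (twr c i) := by
  induction k with
  | zero => rw [add_zero, twr_zero, X_comp]
  | succ k ih =>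
    rw [← add_assoc, twr_succ, twr_succ, ih, sub_comp, pow_comp, C_comp]

theorem eval_twr_neg (c : ℕ → R) (i : ℕ) (x : R) :
    eval (-x) (twr c (i + 1)) = eval x (twr c (i + 1)) := by
  induction i with
  | zero =>
    rw [eval_twr_succ, eval_twr_succ, eval_twr_zero, eval_twr_zero]
    ring
  | succ i ih => rw [eval_twr_succ, eval_twr_succ c (i + 1), ih]

theorem monic_twr [Nontrivial R] (c : ℕ → R) (i : ℕ) :
    (twr c i).Monic ∧ (twr c i).natDegree = 2 ^ i := by
  induction i with
  | zero => exact ⟨monic_X, natDegree_X⟩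
  | succ i ih =>
    obtain ⟨h1, h2⟩ := ih
    have h3 : (twr c i ^ 2).Monic := h1.pow 2
    have h4 : (twr c i ^ 2).natDegree = 2 ^ (i + 1) := by
      rw [h1.natDegree_pow, h2, pow_succ]
      ring
    have h5 : (C (c i)).degree < (twr c i ^ 2).degree := by
      refine lt_of_le_of_lt degree_C_le ?_
      rw [degree_eq_natDegree h3.ne_zero, h4]
      exact_mod_cast pow_pos (by norm_num : 0 < 2) (i + 1)
    refine ⟨h3.sub_of_left h5, ?_⟩
    rw [twr_succ, natDegree_sub_C, h4]

theorem twr_monic [Nontrivial R] (c : ℕ → R) (i : ℕ) : (twr c i).Monic := (monic_twr c i).1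

theorem twr_natDegree [Nontrivial R] (c : ℕ → R) (i : ℕ) : (twr c i).natDegree = 2 ^ i :=
  (monic_twr c i).2

theorem eval_twr_crit (c : ℕ → R) (m k : ℕ) :
    eval 0 (twr (fun i => c (m + i)) k) = crit c m k := by
  induction k with
  | zero => exact eval_X
  | succ k ih => rw [eval_twr_succ, ih, crit_succ]

end Pool.Agent.SkewGem
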