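import Mathlib
import Pool.Agent.Lib_MP_009b3c_lc.Tower

/-!
# The root tree of a tower with `2 ^ n` roots, its images, and its sizes
-/

namespace Pool.Agent.SkewGem

open Polynomial Finset

section

variable {R : Type*} [CommRing R] [DecidableEq R]

/-- The values of the tower at the elements of `A`. -/
noncomputable def lev (c : ℕ → R) (A : Finset R) (i : ℕ) : Finset R :=
  A.image fun x => eval x (twr c i)

variable [IsDomain R]

theorem card_fibre (c : ℕ → R) (A : Finset R) (i : ℕ) (w : R) :
    (A.filter fun x => eval x (twr c i) = w).card ≤ 2 ^ i := by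
  have h1 : (twr c i - C w).natDegree = 2 ^ i := by
    rw [natDegree_sub_C, twr_natDegree]
  have h0 : twr c i - C w ≠ 0 := by
    intro h
    rw [h, natDegree_zero] at h1
    exact absurd h1.symm (pow_pos (by norm_num) i).ne'
  have h2 : (A.filter fun x => eval x (twr c i) = w) ⊆ (twr c i - C w).roots.toFinset := by
    intro x hx
    rw [mem_filter] at hx
    rw [Multiset.mem_toFinset, mem_roots h0, IsRoot, eval_sub, eval_C, hx.2, sub_self]
  calc _ ≤ (twr c i - C w).roots.toFinset.card := card_le_card h2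
    _ ≤ Multiset.card (twr c i - C w).roots := Multiset.toFinset_card_le _
    _ ≤ (twr c i - C w).natDegree := card_roots' _
    _ = 2 ^ i := h1

theorem lev_eq (c : ℕ → R) (n : ℕ) (A : Finset R) (hA : A.card = 2 ^ n)
    (hroot : ∀ x ∈ A, eval x (twr c n) = 0) (i : ℕ) (hi : i ≤ n) :
    lev c A i = (twr (fun m => c (i + m)) (n - i)).roots.toFinset ∧
      (lev c A i).card = 2 ^ (n - i) := by
  have hT0 : twr (fun m => c (i + m)) (n - i) ≠ 0 := (twr_monic _ _).ne_zero
  have hsub : lev c A i ⊆ (twr (fun m => c (i + m)) (n - i)).roots.toFinset := by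
    intro w hw
    unfold lev at hw
    rw [mem_image] at hw
    obtain ⟨x, hx, rfl⟩ := hw
    rw [Multiset.mem_toFinset, mem_roots hT0, IsRoot, ← eval_comp, ← twr_add,
      Nat.add_sub_cancel' hi]
    exact hroot x hx
  have hup : (twr (fun m => c (i + m)) (n - i)).roots.toFinset.card ≤ 2 ^ (n - i) := by
    calc _ ≤ Multiset.card (twr (fun m => c (i + m)) (n - i)).roots := Multiset.toFinset_card_le _
      _ ≤ (twr (fun m => c (i + m)) (n - i)).natDegree := card_roots' _
      _ = 2 ^ (n - i) := twr_natDegree _ _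
  have hlow : 2 ^ (n - i) ≤ (lev c A i).card := by
    have h1 : A.card ≤ (lev c A i).card * 2 ^ i := by
      rw [mul_comm]
      exact card_le_mul_card_image A (2 ^ i) fun w _ => card_fibre c A i w
    rw [hA] at h1
    have h2 : 2 ^ n = 2 ^ (n - i) * 2 ^ i := by
      rw [← pow_add, Nat.sub_add_cancel hi]
    rw [h2] at h1
    exact Nat.le_of_mul_le_mul_right h1 (pow_pos (by norm_num) i)
  exact ⟨eq_of_subset_of_card_le hsub (hup.trans hlow),
    le_antisymm ((card_le_card hsub).trans hup) hlow⟩

theorem tree_lev (c : ℕ → R) (n : ℕ) (A : Finset R) (hA : A.card = 2 ^ n)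
    (hroot : ∀ x ∈ A, eval x (twr c n) = 0) : Tree c n (lev c A) := by
  refine ⟨?_, ?_, ?_, ?_⟩
  · have h1 := (lev_eq c n A hA hroot n le_rfl).2
    rw [Nat.sub_self, pow_zero, card_eq_one] at h1
    obtain ⟨a, ha⟩ := h1
    have h2 : a ∈ lev c A n := by
      rw [ha]
      exact mem_singleton_self a
    unfold lev at h2
    rw [mem_image] at h2
    obtain ⟨x, hx, h3⟩ := h2
    rw [hroot x hx] at h3
    rw [ha, h3]
  · intro i hi w hw
    have h1 := (lev_eq c n A hA hroot i hi.le).1
    have hT0 : twr (fun m => c (i + m)) (n - i) ≠ 0 := (twr_monic _ _).ne_zero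
    rw [h1, Multiset.mem_toFinset, mem_roots hT0, IsRoot] at hw ⊢
    obtain ⟨k, hk⟩ : ∃ k, n - i = k + 1 := ⟨n - i - 1, by omega⟩
    rw [hk, eval_twr_neg, ← hk]
    exact hw
  · intro i hi w hw
    unfold lev at hw ⊢
    rw [mem_image] at hw ⊢
    obtain ⟨x, hx, rfl⟩ := hw
    exact ⟨x, hx, eval_twr_succ c i x⟩
  · intro i hi t ht
    unfold lev at ht
    rw [mem_image] at ht
    obtain ⟨x, hx, rfl⟩ := ht
    exact ⟨eval x (twr c i), mem_image_of_mem _ hx, (eval_twr_succ c i x).symm⟩

end

/-- The tree in a quotient. -/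
theorem Tree.map {R R' : Type*} [CommRing R] [CommRing R'] [DecidableEq R'] (φ : R →+* R')
    {c : ℕ → R} {n : ℕ} {S : ℕ → Finset R} (hS : Tree c n S) :
    Tree (fun k => φ (c k)) n fun i => (S i).image φ := by
  refine ⟨?_, ?_, ?_, ?_⟩
  · show (S n).image φ = {0}
    rw [hS.top, image_singleton, map_zero]
  · intro i hi w hw
    rw [mem_image] at hw ⊢
    obtain ⟨x, hx, rfl⟩ := hw
    exact ⟨-x, hS.neg i hi x hx, map_neg φ x⟩
  · intro i hi w hw
    rw [mem_image] at hw ⊢
    obtain ⟨x, hx, rfl⟩ := hw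
    exact ⟨x ^ 2 - c i, hS.down i hi x hx, by rw [map_sub, map_pow]⟩
  · intro i hi t ht
    rw [mem_image] at ht
    obtain ⟨x, hx, rfl⟩ := ht
    obtain ⟨w, hw, h⟩ := hS.up i hi x hx
    exact ⟨φ w, mem_image_of_mem _ hw, by rw [← h, map_sub, map_pow]⟩

section

variable {F : Type*} [Field F] [DecidableEq F] {c : ℕ → F} {n : ℕ} {S : ℕ → Finset F}

theorem Tree.card_step (hS : Tree c n S) {i : ℕ} (hi : i < n) :
    (S i).card ≤ 2 * (S (i + 1)).card := by
  refine (card_le_mul_card_image (f := fun w => w ^ 2 - c i) (S i) 2 ?_).trans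
    (Nat.mul_le_mul_left 2 (card_le_card ?_))
  · intro t _
    rcases ((S i).filter fun w => w ^ 2 - c i = t).eq_empty_or_nonempty with h | ⟨v, hv⟩
    · rw [h]
      exact Nat.zero_le 2
    · rw [mem_filter] at hv
      refine (card_le_card (t := {v, -v}) fun w hw => ?_).trans card_le_two
      rw [mem_filter] at hw
      have h1 : w ^ 2 = v ^ 2 := by
        have := hw.2.trans hv.2.symm
        linear_combination this
      rw [mem_insert, mem_singleton]
      exact sq_eq_sq_iff_eq_or_eq_neg.1 h1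
  · intro t ht
    rw [mem_image] at ht
    obtain ⟨w, hw, rfl⟩ := ht
    exact hS.down i hi w hw

theorem Tree.card_le (hS : Tree c n S) {j : ℕ} (hj : j ≤ n) :
    (S 0).card ≤ 2 ^ j * (S j).card := by
  induction j with
  | zero => rw [pow_zero, one_mul]
  | succ j ih =>
    refine (ih (by omega)).trans ?_
    rw [pow_succ, mul_assoc]
    exact Nat.mul_le_mul_left _ (hS.card_step (by omega))

theorem Tree.card_step' (h2 : (2 : F) ≠ 0) (hS : Tree c n S) {i : ℕ} (hi : i < n) :
    2 * (S (i + 1)).card ≤ (S i).card + 1 := by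
  have hex : ∀ t : F, ∃ w : F, t ∈ S (i + 1) → w ∈ S i ∧ w ^ 2 - c i = t := by
    intro t
    by_cases ht : t ∈ S (i + 1)
    · obtain ⟨w, hw, h⟩ := hS.up i hi t ht
      exact ⟨w, fun _ => ⟨hw, h⟩⟩
    · exact ⟨0, fun h => absurd h ht⟩
  choose g hg using hex
  set W := (S (i + 1)).image g with hW
  set W' := (S (i + 1)).image fun t => -g t with hW'
  have c1 : W.card = (S (i + 1)).card := by
    refine card_image_of_injOn fun t ht t' ht' h => ?_
    rw [← (hg t ht).2, ← (hg t' ht').2, h]
  have c2 : W'.card = (S (i + 1)).card := by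
    refine card_image_of_injOn fun t ht t' ht' h => ?_
    have h' : g t = g t' := neg_inj.1 h
    rw [← (hg t ht).2, ← (hg t' ht').2, h']
  have c3 : W ∪ W' ⊆ S i := by
    intro w hw
    rw [mem_union, mem_image, mem_image] at hw
    rcases hw with ⟨t, ht, rfl⟩ | ⟨t, ht, rfl⟩
    · exact (hg t ht).1
    · exact hS.neg i hi _ (hg t ht).1
  have c4 : W ∩ W' ⊆ {0} := by
    intro w hw
    rw [mem_inter, mem_image, mem_image] at hw
    obtain ⟨⟨t, ht, h1⟩, t', ht', h3⟩ := hw
    have e1 := (hg t ht).2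
    have e2 := (hg t' ht').2
    have e3 : t = t' := by
      rw [← e1, ← e2, h1, ← h3]
      ring
    rw [e3] at h1
    rw [mem_singleton]
    have e4 : 2 * w = 0 := by
      linear_combination -h1 - h3
    exact (mul_eq_zero.1 e4).resolve_left h2
  have c5 := card_union_add_card_inter W W'
  have c6 := card_le_card c3
  have c7 := card_le_card c4
  rw [card_singleton] at c7
  omega

theorem Tree.card_ge (h2 : (2 : F) ≠ 0) (hS : Tree c n S) {i : ℕ} (hi : i < n)
    (ht : ∃ t ∈ S i, t ≠ 0) : 2 ^ i + 1 ≤ (S 0).card := by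
  have key : ∀ k ≤ i, 2 ^ k + 1 ≤ (S (i - k)).card := by
    intro k hk
    induction k with
    | zero =>
      obtain ⟨t, ht, h0⟩ := ht
      have hn := hS.neg i hi t ht
      have hne : t ≠ -t := by
        intro h
        have : 2 * t = 0 := by linear_combination h
        exact h0 ((mul_eq_zero.1 this).resolve_left h2)
      have h1 : ({t, -t} : Finset F) ⊆ S i := by
        intro x hx
        rw [mem_insert, mem_singleton] at hx
        rcases hx with rfl | rfl
        · exact ht
        · exact hn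
      have h3 := card_le_card h1
      rw [card_pair hne] at h3
      exact h3
    | succ k ih =>
      have h1 := ih (by omega)
      have h3 := hS.card_step' h2 (i := i - (k + 1)) (by omega)
      have e : i - (k + 1) + 1 = i - k := by omega
      rw [e] at h3
      rw [pow_succ]
      omega
  have := key i le_rfl
  rwa [Nat.sub_self] at this

end

/-- The size of the nodes of the tree of an integer tower. -/
theorem Tree.size_le {c : ℕ → ℤ} {n : ℕ} {S : ℕ → Finset ℤ} (hS : Tree c n S) {M : ℤ}
    (hM : ∀ x ∈ S 0, |x| ≤ M) {i : ℕ} (hi : i < n) : ∀ t ∈ S i, |t| ≤ M ^ 2 ^ i := by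
  induction i with
  | zero =>
    intro t ht
    rw [pow_zero, pow_one]
    exact hM t ht
  | succ i ih =>
    intro t ht
    obtain ⟨w, hw, e1⟩ := hS.up i (by omega) t ht
    obtain ⟨w', hw', e2⟩ := hS.up i (by omega) (-t) (hS.neg _ hi t ht)
    have h1 := ih (by omega) w hw
    have h2 := ih (by omega) w' hw'
    have h3 : w ^ 2 ≤ M ^ 2 ^ (i + 1) := by
      rw [pow_succ 2 i, pow_mul, ← sq_abs w]
      exact pow_le_pow_left₀ (abs_nonneg w) h1 2
    have h4 : w' ^ 2 ≤ M ^ 2 ^ (i + 1) := by
      rw [pow_succ 2 i, pow_mul, ← sq_abs w']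
      exact pow_le_pow_left₀ (abs_nonneg w') h2 2
    have h5 := sq_nonneg w
    have h6 := sq_nonneg w'
    rw [abs_le]
    constructor <;> linarith

end Pool.Agent.SkewGem
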