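import Mathlib
import Pool.Agent.Lib_MP_009b3c_lc.Tower

/-!
# The root tree over a field in which `-1` and `2` are not squares

No two critical values of the towers coincide, up to sign.
-/

namespace Pool.Agent.SkewGem

open Polynomial

variable {F : Type*} [Field F] {c : ℕ → F} {n : ℕ} {S : ℕ → Finset F}

theorem Tree.node (hS : Tree c n S) {i : ℕ} (hi : i < n) {t : F} (ht : t ∈ S (i + 1)) :
    ∃ w ∈ S i, w ^ 2 = c i + t := by
  obtain ⟨w, hw, h⟩ := hS.up i hi t ht
  exact ⟨w, hw, by rw [← h]; ring⟩

theorem Tree.sq_one (hS : Tree c n S) {m : ℕ} (hm : m < n) {t : F} (ht : t ∈ S (m + 1)) :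
    IsSquare (c m + t) := by
  obtain ⟨w, -, h⟩ := hS.node hm ht
  exact ⟨w, by rw [← h]; ring⟩

/-- The critical values minus the nodes are squares. -/
theorem Tree.sq_crit (hS : Tree c n S) {m k : ℕ} (hm : m + (k + 2) ≤ n) {t : F}
    (ht : t ∈ S (m + (k + 2))) : IsSquare (crit c m (k + 2) - t) := by
  induction k generalizing t with
  | zero =>
    obtain ⟨w, hw, h⟩ := hS.node (i := m + 1) (by omega) ht
    have h1 : IsSquare (c m + w) := hS.sq_one (by omega) hw
    have h2 : IsSquare (c m + -w) := hS.sq_one (by omega) (hS.neg _ (by omega) w hw)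
    have h3 : crit c m (0 + 2) - t = (c m + w) * (c m + -w) := by
      have e : crit c m (0 + 2) = crit c m 1 ^ 2 - c (m + 1) := rfl
      rw [e, crit_one]
      linear_combination h
    rw [h3]
    exact h1.mul h2
  | succ k ih =>
    obtain ⟨w, hw, h⟩ := hS.node (i := m + (k + 2)) (by omega) ht
    have h1 := ih (by omega) hw
    have h2 := ih (by omega) (hS.neg _ (by omega) w hw)
    have h3 : crit c m (k + 1 + 2) - t =
        (crit c m (k + 2) - w) * (crit c m (k + 2) - -w) := by
      have e : crit c m (k + 1 + 2) = crit c m (k + 2) ^ 2 - c (m + (k + 2)) := rfl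
      rw [e]
      linear_combination h
    rw [h3]
    exact h1.mul h2

theorem eq_zero_of_sq (h1 : ¬ IsSquare (-1 : F)) {a : F} (ha : IsSquare a) (hb : IsSquare (-a)) :
    a = 0 := by
  by_contra h
  refine h1 ?_
  have h2 : (-1 : F) = -a / a := by
    field_simp
  rw [h2]
  exact hb.div ha

theorem two_ne (h2 : ¬ IsSquare (2 : F)) : (2 : F) ≠ 0 := by
  intro h
  refine h2 ?_
  rw [h]
  exact ⟨0, by ring⟩

/-- The key identity: `2 (G + w) (G + w') = (G + w + w')²` when `G² = w² + w'²`. -/
theorem key_sq (h2 : ¬ IsSquare (2 : F)) {G w w' : F} (hG : G ^ 2 = w ^ 2 + w' ^ 2)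
    (hw : IsSquare (G + w)) (hw1 : IsSquare (G - w)) (hw' : IsSquare (G + w'))
    (hw1' : IsSquare (G - w')) : w = 0 ∧ w' = 0 := by
  have aux : ∀ G w w' : F, G ^ 2 = w ^ 2 + w' ^ 2 → IsSquare (G - w) → IsSquare (G + w') →
      G + w = 0 → w = 0 ∧ w' = 0 := by
    intro G w w' hG hw1 hw' h
    have e1 : G = -w := by linear_combination h
    have e2 : w' = 0 := by
      have : w' ^ 2 = 0 := by
        rw [e1] at hG
        linear_combination -hG
      exact pow_eq_zero_iff (two_ne_zero) |>.1 this
    rw [e2, add_zero] at hw'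
    by_cases hG0 : G = 0
    · exact ⟨by rw [hG0] at e1; exact (neg_eq_zero.1 e1.symm), e2⟩
    · exfalso
      refine h2 ?_
      have e3 : (2 : F) = (G - w) / G := by
        have : G - w = 2 * G := by rw [e1]; ring
        rw [this, mul_div_assoc, div_self hG0, mul_one]
      rw [e3]
      exact hw1.div hw'
  by_cases h : G + w = 0
  · exact aux G w w' hG hw1 hw' h
  by_cases h' : G + w' = 0
  · exact (aux G w' w (by rw [hG]; ring) hw1' hw h').symm
  exfalso
  refine h2 ?_
  have e : (2 : F) = (G + w + w') ^ 2 / ((G + w) * (G + w')) := by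
    rw [eq_div_iff (mul_ne_zero h h')]
    linear_combination hG
  rw [e]
  exact (IsSquare.sq _).div (hw.mul hw')

section

variable (h1 : ¬ IsSquare (-1 : F)) (h2 : ¬ IsSquare (2 : F))
include h1 h2

/-- The constants of the tower are not zero. -/
theorem Tree.c_ne (hS : Tree c n S) {i : ℕ} (hi : i + 1 < n) {t : F} (ht : t ∈ S (i + 1))
    (h0 : t ≠ 0) : c i ≠ 0 := by
  intro hc
  have e1 := hS.sq_one (by omega) ht
  have e2 := hS.sq_one (by omega) (hS.neg _ hi t ht)
  rw [hc, zero_add] at e1 e2
  exact h0 (eq_zero_of_sq h1 e1 e2)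

theorem Tree.exists_ne (hS : Tree c n S) {i : ℕ} (hi : i + 1 < n)
    (ht : ∃ t ∈ S (i + 1), t ≠ 0) : ∃ w ∈ S i, w ≠ 0 := by
  obtain ⟨t, ht, h0⟩ := ht
  obtain ⟨w, hw, e1⟩ := hS.node (by omega) ht
  obtain ⟨w', hw', e2⟩ := hS.node (by omega) (hS.neg _ hi t ht)
  by_contra hcon
  push Not at hcon
  have e3 := hcon w hw
  have e4 := hcon w' hw'
  rw [e3] at e1
  rw [e4] at e2
  refine h0 ?_
  have e5 : 2 * t = 0 := by linear_combination e2 - e1
  exact (mul_eq_zero.1 e5).resolve_left (two_ne h2)

theorem Tree.crit_ne_c (hS : Tree c n S) {m k : ℕ} (hm : m + (k + 2) < n) {t : F}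
    (ht : t ∈ S (m + (k + 2))) (h0 : t ≠ 0) : crit c m (k + 2) ≠ c (m + (k + 1)) := by
  intro hc
  have e0 : crit c m (k + 2) = crit c m (k + 1) ^ 2 - c (m + (k + 1)) := rfl
  obtain ⟨w, hw, e1⟩ := hS.node (i := m + (k + 1)) (by omega) ht
  obtain ⟨w', hw', e2⟩ := hS.node (i := m + (k + 1)) (by omega) (hS.neg _ hm t ht)
  have e3 : crit c m (k + 1) ^ 2 = w ^ 2 + w' ^ 2 := by
    rw [e0] at hc
    linear_combination hc - e1 - e2
  have hwn := hS.neg _ (by omega) w hw
  have hwn' := hS.neg _ (by omega) w' hw'
  have key : w = 0 ∧ w' = 0 := by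
    rcases k with _ | k
    · have a1 := hS.sq_one (m := m) (by omega) hw
      have a2 := hS.sq_one (m := m) (by omega) hwn
      have a3 := hS.sq_one (m := m) (by omega) hw'
      have a4 := hS.sq_one (m := m) (by omega) hwn'
      refine key_sq h2 (G := c m) ?_ a1 (by rw [sub_eq_add_neg]; exact a2) a3
        (by rw [sub_eq_add_neg]; exact a4)
      rw [crit_one] at e3
      linear_combination e3
    · have a1 := hS.sq_crit (m := m) (k := k) (by omega) hw
      have a2 := hS.sq_crit (m := m) (k := k) (by omega) hwn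
      have a3 := hS.sq_crit (m := m) (k := k) (by omega) hw'
      have a4 := hS.sq_crit (m := m) (k := k) (by omega) hwn'
      rw [sub_neg_eq_add] at a2 a4
      exact key_sq h2 (G := crit c m (k + 2)) e3 a2 a1 a4 a3
  refine h0 ?_
  rw [key.1] at e1
  rw [key.2] at e2
  have e5 : 2 * t = 0 := by linear_combination e2 - e1
  exact (mul_eq_zero.1 e5).resolve_left (two_ne h2)

/-- The sum of two critical values of the same level is not zero. -/
theorem Tree.crit_add_ne (hS : Tree c n S) {m k m' k' : ℕ} (hk : 1 ≤ k) (hk' : 1 ≤ k')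
    (he : m + k = m' + k') (hm : m + k < n) (ht : ∃ t ∈ S (m + k), t ≠ 0) :
    crit c m k + crit c m' k' ≠ 0 := by
  obtain ⟨t, ht, h0⟩ := ht
  have one : ∀ m m' k' : ℕ, m + 1 = m' + k' → 2 ≤ k' → m + 1 < n → t ∈ S (m + 1) →
      crit c m 1 + crit c m' k' ≠ 0 := by
    intro m m' k' he hk' hm ht hs
    obtain ⟨k', rfl⟩ : ∃ q, k' = q + 2 := ⟨k' - 2, by omega⟩
    have e1 : m' + (k' + 1) = m := by omega
    have e2 : m' + (k' + 2) = m + 1 := by omega
    refine hS.crit_ne_c h1 h2 (m := m') (k := k') (by omega) (by rw [e2]; exact ht) h0 ?_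
    rw [e1]
    rw [crit_one] at hs
    linear_combination hs
  intro hs
  rcases Nat.lt_or_ge k 2 with hk2 | hk2
  · obtain rfl : k = 1 := by omega
    rcases Nat.lt_or_ge k' 2 with hk2' | hk2'
    · obtain rfl : k' = 1 := by omega
      obtain rfl : m = m' := by omega
      rw [crit_one] at hs
      refine hS.c_ne h1 h2 hm ht h0 ?_
      have : 2 * c m = 0 := by linear_combination -hs
      exact (mul_eq_zero.1 this).resolve_left (two_ne h2)
    · exact one m m' k' he hk2' hm ht hs
  · rcases Nat.lt_or_ge k' 2 with hk2' | hk2'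
    · obtain rfl : k' = 1 := by omega
      refine one m' m k he.symm hk2 (by omega) (by rw [← he]; exact ht) ?_
      rw [add_comm]
      exact hs
    · obtain ⟨k, rfl⟩ : ∃ q, k = q + 2 := ⟨k - 2, by omega⟩
      obtain ⟨k', rfl⟩ : ∃ q, k' = q + 2 := ⟨k' - 2, by omega⟩
      have hn := hS.neg _ hm t ht
      have a1 := hS.sq_crit (by omega) ht
      have a2 := hS.sq_crit (by omega) hn
      rw [he] at ht hn
      have a3 := hS.sq_crit (by omega) ht
      have a4 := hS.sq_crit (by omega) hn
      have b1 : crit c m (k + 2) - t = 0 := by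
        refine eq_zero_of_sq h1 a1 ?_
        have : -(crit c m (k + 2) - t) = crit c m' (k' + 2) - -t := by linear_combination -hs
        rw [this]
        exact a4
      have b2 : crit c m (k + 2) - -t = 0 := by
        refine eq_zero_of_sq h1 a2 ?_
        have : -(crit c m (k + 2) - -t) = crit c m' (k' + 2) - t := by linear_combination -hs
        rw [this]
        exact a3
      refine h0 ?_
      have : 2 * t = 0 := by linear_combination b2 - b1
      exact (mul_eq_zero.1 this).resolve_left (two_ne h2)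

/-- Different critical values of the same level are different. -/
theorem Tree.crit_ne (hS : Tree c n S) {m k m' k' : ℕ} (hk' : 1 ≤ k') (hlt : k' < k)
    (he : m + k = m' + k') (hm : m + k < n) (ht : ∃ t ∈ S (m + k), t ≠ 0) :
    crit c m k ≠ crit c m' k' := by
  induction k' generalizing k with
  | zero => omega
  | succ k' ih =>
    obtain ⟨k, rfl⟩ : ∃ q, k = q + 1 := ⟨k - 1, by omega⟩
    intro hs
    have e1 : m + k = m' + k' := by omega
    have ec : c (m + k) = c (m' + k') := by rw [e1]
    rcases Nat.eq_zero_or_pos k' with rfl | hk0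
    · obtain ⟨k, rfl⟩ : ∃ q, k = q + 1 := ⟨k - 1, by omega⟩
      obtain ⟨t, ht, h0⟩ := ht
      have hn := hS.neg _ hm t ht
      have a1 := hS.sq_crit (m := m) (k := k) (by omega) ht
      have a2 := hS.sq_crit (m := m) (k := k) (by omega) hn
      have hc : crit c m' (0 + 1) = -c m' := crit_one c m'
      rw [he] at ht hn
      have a3 := hS.sq_one (m := m') (by omega) ht
      have a4 := hS.sq_one (m := m') (by omega) hn
      have b1 : c m' + t = 0 := by
        refine eq_zero_of_sq h1 a3 ?_
        have : -(c m' + t) = crit c m (k + 2) - t := by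
          have : crit c m (k + 2) = -c m' := hs.trans hc
          rw [this]
          ring
        rw [this]
        exact a1
      have b2 : c m' + -t = 0 := by
        refine eq_zero_of_sq h1 a4 ?_
        have : -(c m' + -t) = crit c m (k + 2) - -t := by
          have : crit c m (k + 2) = -c m' := hs.trans hc
          rw [this]
          ring
        rw [this]
        exact a2
      refine h0 ?_
      have : 2 * t = 0 := by linear_combination b1 - b2
      exact (mul_eq_zero.1 this).resolve_left (two_ne h2)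
    · rw [crit_succ, crit_succ, ec] at hs
      have hsq : (crit c m k - crit c m' k') * (crit c m k + crit c m' k') = 0 := by
        linear_combination hs
      have hex : ∃ t ∈ S (m + k), t ≠ 0 := hS.exists_ne h1 h2 (i := m + k) (by omega) ht
      rcases mul_eq_zero.1 hsq with h | h
      · exact ih hk0 (by omega) e1 (by omega) hex (sub_eq_zero.1 h)
      · exact hS.crit_add_ne h1 h2 (by omega) hk0 e1 (by omega) hex h

end

/-- The values of the tower at a root are nodes. -/
theorem Tree.mem (hS : Tree c n S) {x : F} (hx : x ∈ S 0) {i : ℕ} (hi : i ≤ n) :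
    eval x (twr c i) ∈ S i := by
  induction i with
  | zero =>
    rw [eval_twr_zero]
    exact hx
  | succ i ih =>
    rw [eval_twr_succ]
    exact hS.down i (by omega) _ (ih (by omega))

/-- At a root, the values of the polynomials `± (twr c (m + k) + crit c m k)` are squares. -/
theorem Tree.sq_leaf (hS : Tree c n S) {x : F} (hx : x ∈ S 0) {m k : ℕ} (hk : 1 ≤ k)
    (hm : m + k < n) :
    IsSquare ((if k = 1 then -1 else 1) * (eval x (twr c (m + k)) + crit c m k)) := by
  have hy := hS.neg _ hm _ (hS.mem hx hm.le)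
  split_ifs with h
  · subst h
    have e := hS.sq_one (m := m) (by omega) hy
    rw [crit_one]
    have : -1 * (eval x (twr c (m + 1)) + -c m) = c m + -eval x (twr c (m + 1)) := by ring
    rw [this]
    exact e
  · obtain ⟨k, rfl⟩ : ∃ q, k = q + 2 := ⟨k - 2, by omega⟩
    have e := hS.sq_crit (m := m) (k := k) hm.le hy
    have : (1 : F) * (eval x (twr c (m + (k + 2))) + crit c m (k + 2)) =
        crit c m (k + 2) - -eval x (twr c (m + (k + 2))) := by ring
    rw [this]
    exact e

end Pool.Agent.SkewGem
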