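import Mathlib
import Pool.Agent.Lib_MP_009b3c_lc.Loc
import Pool.Agent.Lib_MP_009b3c_lc.Cnt

/-!
# The number of roots of a tower over `ZMod p`, `p = 3 mod 8`
-/

namespace Pool.Agent.SkewGem

open Polynomial Finset

section

variable {F : Type*} [Field F]

theorem isCoprime_of_dvd_sub_C {P Q : F[X]} {u : F} (hu : u ≠ 0) (h : Q ∣ P - C u) :
    IsCoprime P Q := by
  obtain ⟨R, hR⟩ := h
  refine ⟨C u⁻¹, -(C u⁻¹ * R), ?_⟩
  have e : C u⁻¹ * C u = (1 : F[X]) := by rw [← C_mul, inv_mul_cancel₀ hu, C_1]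
  linear_combination C u⁻¹ * hR + e

theorem dvd_comp_sub_C (P Q : F[X]) (v : F) : Q + C v ∣ P.comp Q - C (P.eval (-v)) := by
  have h1 : X - C (-v) ∣ P - C (P.eval (-v)) := by
    rw [dvd_iff_isRoot, IsRoot, eval_sub, eval_C, sub_self]
  obtain ⟨R, hR⟩ := h1
  refine ⟨R.comp Q, ?_⟩
  have h2 := congrArg (fun T => T.comp Q) hR
  simp only [sub_comp, mul_comp, X_comp, C_comp] at h2
  rw [h2, C_neg]
  ring

theorem eval_shift_crit (c : ℕ → F) (m k r : ℕ) :
    eval (crit c m k) (twr (fun i => c (m + k + i)) r) = crit c m (k + r) := by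
  induction r with
  | zero => exact eval_X
  | succ r ih =>
    rw [eval_twr_succ, ih, ← add_assoc, crit_succ, add_assoc]

/-- `twr c i + C a` is coprime to `twr c m`, `m < i`, unless `a` is minus a critical value. -/
theorem coprime_low (c : ℕ → F) {m k : ℕ} {a : F} (h : crit c m k + a ≠ 0) :
    IsCoprime (twr c (m + k) + C a) (twr c m) := by
  refine isCoprime_of_dvd_sub_C h ?_
  have h1 := dvd_comp_sub_C (twr (fun i => c (m + i)) k) (twr c m) 0
  rw [neg_zero, C_0, add_zero, eval_twr_crit, ← twr_add] at h1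
  refine h1.trans (dvd_of_eq ?_)
  rw [C_add]
  ring

theorem derivative_twr_coprime (c : ℕ → F) (h2 : (2 : F) ≠ 0) (i : ℕ) (Q : F[X])
    (h : ∀ m < i, IsCoprime Q (twr c m)) : IsCoprime Q (derivative (twr c i)) := by
  induction i with
  | zero =>
    rw [twr_zero, derivative_X]
    exact isCoprime_one_right
  | succ i ih =>
    rw [twr_succ, derivative_sub, derivative_C, sub_zero, derivative_pow]
    have e : (C ((2 : ℕ) : F) * twr c i ^ (2 - 1) * derivative (twr c i)) =
        C 2 * (twr c i * derivative (twr c i)) := by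
      rw [Nat.cast_ofNat, show 2 - 1 = 1 from rfl, pow_one]
      ring
    rw [e]
    have hu : IsUnit (C (2 : F)) := isUnit_C.2 (isUnit_iff_ne_zero.2 h2)
    refine (isCoprime_mul_unit_left_right hu _ _).2 ?_
    exact (h i (by omega)).mul_right (ih fun m hm => h m (by omega))

theorem separable_of (c : ℕ → F) (h2 : (2 : F) ≠ 0) (i : ℕ) (a : F)
    (h : ∀ m k, m + k = i → 1 ≤ k → crit c m k + a ≠ 0) : (twr c i + C a).Separable := by
  unfold Separable
  rw [derivative_add, derivative_C, add_zero]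
  refine derivative_twr_coprime c h2 i _ fun m hm => ?_
  have e : m + (i - m) = i := by omega
  have h1 := coprime_low c (h m (i - m) e (by omega))
  rwa [e] at h1

theorem coprime_of_lt (c : ℕ → F) {m k i : ℕ} (hi : m + k < i) {a : F}
    (h : crit c m (i - m) + a ≠ 0) :
    IsCoprime (twr c i + C a) (twr c (m + k) + C (crit c m k)) := by
  refine isCoprime_of_dvd_sub_C h ?_
  obtain ⟨r, rfl⟩ : ∃ r, i = m + k + (r + 1) := ⟨i - (m + k) - 1, by omega⟩
  have h1 := dvd_comp_sub_C (twr (fun i => c (m + k + i)) (r + 1)) (twr c (m + k)) (crit c m k)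
  rw [eval_twr_neg, eval_shift_crit, ← twr_add] at h1
  have e : m + k + (r + 1) - m = k + (r + 1) := by omega
  rw [e]
  refine h1.trans (dvd_of_eq ?_)
  rw [C_add]
  ring

theorem coprime_same (c : ℕ → F) {i : ℕ} {a b : F} (h : a ≠ b) :
    IsCoprime (twr c i + C a) (twr c i + C b) := by
  refine isCoprime_of_dvd_sub_C (sub_ne_zero.2 h) (dvd_of_eq ?_)
  rw [C_sub]
  ring

theorem coprime_unit_mul {P Q : F[X]} {u v : F} (hu : u ≠ 0) (hv : v ≠ 0) (h : IsCoprime P Q) :
    IsCoprime (C u * P) (C v * Q) := by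
  have hu' : IsUnit (C u) := isUnit_C.2 (isUnit_iff_ne_zero.2 hu)
  have hv' : IsUnit (C v) := isUnit_C.2 (isUnit_iff_ne_zero.2 hv)
  exact (isCoprime_mul_unit_left_left hu' _ _).2 ((isCoprime_mul_unit_left_right hv' _ _).2 h)

end

/-- The index set of the conditions up to level `j`. -/
def idx (j : ℕ) : Finset (Σ _ : ℕ, ℕ) := (range j).sigma fun i => range (i + 1)

theorem mem_idx {j : ℕ} {a : Σ _ : ℕ, ℕ} : a ∈ idx j ↔ a.1 < j ∧ a.2 ≤ a.1 := by
  unfold idx
  rw [mem_sigma, mem_range, mem_range]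
  omega

theorem card_idx (j : ℕ) : (idx j).card = j * (j + 1) / 2 := by
  unfold idx
  rw [card_sigma]
  simp only [card_range]
  have h : ∀ j : ℕ, (∑ i ∈ range j, (i + 1)) * 2 = j * (j + 1) := by
    intro j
    induction j with
    | zero => rfl
    | succ j ih =>
      rw [sum_range_succ, add_mul, ih]
      ring
  rw [← h j]
  omega

/-- The conditions. -/
noncomputable def hpol {F : Type*} [Field F] (c : ℕ → F) (a : Σ _ : ℕ, ℕ) : F[X] :=
  C (if a.1 + 1 - a.2 = 1 then -1 else 1) *
    (twr c (a.1 + 1) + C (crit c a.2 (a.1 + 1 - a.2)))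

theorem natDegree_hpol {F : Type*} [Field F] (c : ℕ → F) (a : Σ _ : ℕ, ℕ) :
    (hpol c a).natDegree = 2 ^ (a.1 + 1) := by
  unfold hpol
  have h : (if a.1 + 1 - a.2 = 1 then (-1 : F) else 1) ≠ 0 := by
    split_ifs
    · exact neg_ne_zero.2 one_ne_zero
    · exact one_ne_zero
  rw [natDegree_C_mul h, natDegree_add_C, twr_natDegree]

theorem sum_degree {F : Type*} [Field F] (c : ℕ → F) (j : ℕ) :
    ∑ a ∈ idx j, (hpol c a).natDegree ≤ j * 2 ^ (j + 1) := by
  have h1 : ∑ a ∈ idx j, (hpol c a).natDegree = ∑ i ∈ range j, (i + 1) * 2 ^ (i + 1) := by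
    unfold idx
    rw [sum_sigma]
    refine sum_congr rfl fun i _ => ?_
    simp only [natDegree_hpol, sum_const, card_range, smul_eq_mul]
  rw [h1]
  clear h1
  induction j with
  | zero => simp
  | succ j ih =>
    rw [sum_range_succ]
    have e : (j + 1) * 2 ^ (j + 1 + 1) = j * 2 ^ (j + 1) + (j + 1) * 2 ^ (j + 1) + 2 ^ (j + 1) := by
      ring
    have e2 := Nat.two_pow_pos (j + 1)
    linarith

theorem not_sq_two {p : ℕ} [Fact p.Prime] (hp : p % 8 = 3) : ¬ IsSquare (2 : ZMod p) := by
  have hp2 : p ≠ 2 := by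
    rintro rfl
    omega
  rw [ZMod.exists_sq_eq_two_iff hp2]
  omega

theorem not_sq_neg_one {p : ℕ} [Fact p.Prime] (hp : p % 8 = 3) : ¬ IsSquare (-1 : ZMod p) := by
  rw [ZMod.exists_sq_eq_neg_one_iff]
  omega

/-- All levels below a level with a node which is not zero have such a node. -/
theorem Tree.exists_ne_le {F : Type*} [Field F] {c : ℕ → F} {n : ℕ} {S : ℕ → Finset F}
    (h1 : ¬ IsSquare (-1 : F)) (h2 : ¬ IsSquare (2 : F)) (hS : Tree c n S) {j : ℕ} (hj : j < n)
    (ht : ∃ t ∈ S j, t ≠ 0) {i : ℕ} (hi : i ≤ j) : ∃ t ∈ S i, t ≠ 0 := by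
  induction j with
  | zero =>
    obtain rfl : i = 0 := by omega
    exact ht
  | succ j ih =>
    rcases Nat.lt_or_ge j i with h | h
    · obtain rfl : i = j + 1 := by omega
      exact ht
    · exact ih (by omega) (hS.exists_ne h1 h2 hj ht) h

/-- The bound for the number of roots. -/
theorem local_bound (p : ℕ) [Fact p.Prime] (hp : p % 8 = 3) (c : ℕ → ZMod p) (n : ℕ)
    (S : ℕ → Finset (ZMod p)) (hS : Tree c n S) (j : ℕ) (hj : j < n)
    (ht : ∃ t ∈ S j, t ≠ 0) :
    ((S 0).card : ℝ) ≤ p / 2 ^ (j * (j + 1) / 2) + (j * 2 ^ (j + 1) : ℕ) * (40 * √p + 1) := by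
  have hp2 : p ≠ 2 := by
    rintro rfl
    omega
  have h1 := not_sq_neg_one hp
  have h2 := not_sq_two hp
  have h20 := two_ne h2
  have hne : ∀ i ≤ j, ∃ t ∈ S i, t ≠ 0 := fun i hi => hS.exists_ne_le h1 h2 hj ht hi
  have sgn : ∀ a : Σ _ : ℕ, ℕ, (if a.1 + 1 - a.2 = 1 then (-1 : ZMod p) else 1) ≠ 0 := by
    intro a
    split_ifs
    · exact neg_ne_zero.2 one_ne_zero
    · exact one_ne_zero
  have key := count_squares p hp2 (idx j) (hpol c) ?_ ?_ ?_ (S 0) ?_
  · rw [card_idx] at key
    refine key.trans ?_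
    have e := sum_degree c j
    have e' : ((∑ a ∈ idx j, (hpol c a).natDegree : ℕ) : ℝ) ≤ ((j * 2 ^ (j + 1) : ℕ) : ℝ) := by
      exact_mod_cast e
    have e2 : (0 : ℝ) ≤ 40 * √p + 1 := by positivity
    have e3 := mul_le_mul_of_nonneg_right e' e2
    linarith
  · intro a ha
    rw [mem_idx] at ha
    unfold hpol
    have hu : IsUnit (C (if a.1 + 1 - a.2 = 1 then (-1 : ZMod p) else 1)) :=
      isUnit_C.2 (isUnit_iff_ne_zero.2 (sgn a))
    refine (separable_of c h20 (a.1 + 1) _ fun m k hmk hk => ?_).unit_mul hu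
    exact hS.crit_add_ne h1 h2 hk (by omega) (by omega) (by omega)
      (by rw [hmk]; exact hne _ (by omega))
  · intro a _
    rw [natDegree_hpol]
    exact Nat.one_le_two_pow
  · have main : ∀ a ∈ idx j, ∀ b ∈ idx j, a ≠ b → b.1 ≤ a.1 →
        IsCoprime (hpol c a) (hpol c b) := by
      rintro ⟨i, m⟩ ha ⟨i', m'⟩ hb hab hle
      rw [mem_idx] at ha hb
      simp only at ha hb hle
      unfold hpol
      refine coprime_unit_mul (sgn _) (sgn _) ?_
      simp only
      rcases Nat.lt_or_ge i' i with hlt | hge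
      · have e : m' + (i' + 1 - m') = i' + 1 := by omega
        have key := coprime_of_lt c (m := m') (k := i' + 1 - m') (i := i + 1) (by omega)
          (a := crit c m (i + 1 - m)) ?_
        · rwa [e] at key
        · exact hS.crit_add_ne h1 h2 (by omega) (by omega) (by omega) (by omega)
            (by rw [show m' + (i + 1 - m') = i + 1 by omega]; exact hne _ (by omega))
      · obtain rfl : i = i' := by omega
        refine coprime_same c ?_
        have hmm : m ≠ m' := by
          rintro rfl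
          exact hab rfl
        rcases Nat.lt_or_ge m m' with h | h
        · exact hS.crit_ne h1 h2 (by omega) (by omega) (by omega) (by omega)
            (by rw [show m + (i + 1 - m) = i + 1 by omega]; exact hne _ (by omega))
        · exact (hS.crit_ne h1 h2 (by omega) (by omega) (by omega) (by omega)
            (by rw [show m' + (i + 1 - m') = i + 1 by omega]; exact hne _ (by omega))).symm
    intro a ha b hb hab
    rcases le_total b.1 a.1 with h | h
    · exact main a ha b hb hab h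
    · exact (main b hb a ha hab.symm h).symm
  · intro x hx a ha
    rw [mem_idx] at ha
    unfold hpol
    rw [eval_mul, eval_C, eval_add, eval_C]
    have e : a.2 + (a.1 + 1 - a.2) = a.1 + 1 := by omega
    have key := hS.sq_leaf hx (m := a.2) (k := a.1 + 1 - a.2) (by omega) (by omega)
    rwa [e] at key

end Pool.Agent.SkewGem
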