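import Mathlib

/-!
# Piece MERA: Mertens' first theorem with the characters mod 8

`mert_char`: copy the proof of `Pool.Agent.GaussMR.mert_chi` (`Pool/Agent/Lib_MP_f1a94e_mr/MertChi.lean`) with `χ` in place of `χ₄`, `L` in place of `π / 4`.
`mert_chi8`, `mert_chi8'`: by `mert_char`. Partial sums of `χ₈` lie in `{-1, 0, 1}`, those of `χ₈'` in `{0, 1, 2}` (period `8`, sum `0`), so by
partial summation `|∑_{k < d ≤ N} χ(d) g(d)| ≤ 4 g(k + 1)` for antitone nonnegative `g`; `g(d) = 1 / d` gives the limit `L` (Cauchy) and the error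
`4 / (k + 1)`, and `L ≠ 0`: group `8 j + 1, 8 j + 3, 8 j + 5, 8 j + 7`: for `χ₈`: `1/(8j+1) - 1/(8j+3) - 1/(8j+5) + 1/(8j+7) ≥ 0`, for `χ₈'`:
`1/(8j+1) + 1/(8j+3) - 1/(8j+5) - 1/(8j+7) ≥ 0`, and the first group (`j = 0`) is `> 0`; so `L ≥ ` the first group `> 0`.
`g(d) = log d / d` is antitone for `d ≥ 3`. -/

namespace Pool.Agent.SkewGem

open Finset

open Filter Topology in
/-- Partial summation against a monotone weight. -/
private theorem MerA_abel (χ g : ℕ → ℝ) (B : ℝ)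
    (hB : ∀ k n, k ≤ n → |∑ d ∈ Ioc k n, χ d| ≤ B) (k : ℕ)
    (hg : ∀ d, k < d → g (d + 1) ≤ g d) (h0 : ∀ d, k < d → 0 ≤ g d) (N : ℕ) (hkN : k < N) :
    |∑ d ∈ Ioc k N, χ d * g d| ≤ B * g (k + 1) := by
  have hB0 : 0 ≤ B := (abs_nonneg _).trans (hB 0 0 le_rfl)
  have key : |∑ d ∈ Ioc k N, χ d * g d - (∑ d ∈ Ioc k N, χ d) * g N| ≤
      B * (g (k + 1) - g N) := by
    induction N, hkN using Nat.le_induction with
    | base =>
      rw [Nat.Ioc_succ_singleton]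
      simp
    | succ N hN ih =>
      have hN' : k < N := hN
      rw [sum_Ioc_succ_top (by omega), sum_Ioc_succ_top (by omega)]
      have e : ∑ d ∈ Ioc k N, χ d * g d + χ (N + 1) * g (N + 1) -
          (∑ d ∈ Ioc k N, χ d + χ (N + 1)) * g (N + 1) =
          (∑ d ∈ Ioc k N, χ d * g d - (∑ d ∈ Ioc k N, χ d) * g N) +
          (∑ d ∈ Ioc k N, χ d) * (g N - g (N + 1)) := by ring
      rw [e]
      refine (abs_add_le _ _).trans ?_
      have h1 := hg N hN'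
      have h2 : |(∑ d ∈ Ioc k N, χ d) * (g N - g (N + 1))| ≤ B * (g N - g (N + 1)) := by
        rw [abs_mul, abs_of_nonneg (sub_nonneg.2 h1)]
        exact mul_le_mul_of_nonneg_right (hB k N hN'.le) (sub_nonneg.2 h1)
      linarith
  have h2 : |(∑ d ∈ Ioc k N, χ d) * g N| ≤ B * g N := by
    rw [abs_mul, abs_of_nonneg (h0 N hkN)]
    exact mul_le_mul_of_nonneg_right (hB k N hkN.le) (h0 N hkN)
  have e : ∑ d ∈ Ioc k N, χ d * g d =
      (∑ d ∈ Ioc k N, χ d * g d - (∑ d ∈ Ioc k N, χ d) * g N) + (∑ d ∈ Ioc k N, χ d) * g N := by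
    ring
  rw [e]
  refine (abs_add_le _ _).trans ?_
  linarith

private theorem MerA_conv (χ : ℕ → ℝ) (hmul : ∀ a b, χ (a * b) = χ a * χ b)
    (F G : ArithmeticFunction ℝ)
    (hF : ∀ n, F n = χ n * ArithmeticFunction.vonMangoldt n / (n : ℝ))
    (hG : ∀ n, G n = χ n / (n : ℝ)) (n : ℕ) :
    (F * G) n = χ n * (Real.log n / n) := by
  rw [ArithmeticFunction.mul_apply]
  have h : ∀ p ∈ n.divisorsAntidiagonal, F p.1 * G p.2
      = (χ n / n) * ArithmeticFunction.vonMangoldt p.1 := by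
    intro p hp
    obtain ⟨h1, h2⟩ := Nat.mem_divisorsAntidiagonal.1 hp
    rw [hF, hG, ← h1, hmul]
    push_cast
    rw [div_mul_div_comm, div_mul_eq_mul_div]
    ring
  rw [Finset.sum_congr rfl h, ← Finset.mul_sum,
    Nat.sum_divisorsAntidiagonal (fun a _ => ArithmeticFunction.vonMangoldt a),
    ArithmeticFunction.vonMangoldt_sum]
  ring

theorem mert_char (χ : ℕ → ℝ) (hmul : ∀ a b, χ (a * b) = χ a * χ b) (habs : ∀ n, |χ n| ≤ 1)
    (L C₁ C₂ : ℝ) (hL : L ≠ 0)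
    (h1 : ∀ k : ℕ, |∑ d ∈ Ioc 0 k, χ d / (d : ℝ) - L| ≤ C₁ / ((k : ℝ) + 1))
    (h2 : ∀ N : ℕ, |∑ n ∈ Ioc 0 N, χ n * (Real.log n / n)| ≤ C₂) :
    ∃ K : ℝ, ∀ N : ℕ, 1 ≤ N →
      |∑ n ∈ Icc 1 N, χ n * ArithmeticFunction.vonMangoldt n / (n : ℝ)| ≤ K := by
  have hC₁ : 0 ≤ C₁ := by
    have := (abs_nonneg _).trans (h1 0)
    simpa using this
  refine ⟨(C₂ + C₁ * (Real.log 4 + 4)) / |L|, fun N hN => ?_⟩
  have hIcc : Finset.Icc 1 N = Finset.Ioc 0 N := by
    ext x; simp only [Finset.mem_Icc, Finset.mem_Ioc]; omega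
  rw [hIcc]
  have hNpos : (0 : ℝ) < N := by exact_mod_cast hN
  set F : ArithmeticFunction ℝ :=
    ⟨fun n => χ n * ArithmeticFunction.vonMangoldt n / (n : ℝ), by simp⟩ with hFdef
  set G : ArithmeticFunction ℝ := ⟨fun n => χ n / (n : ℝ), by simp⟩ with hGdef
  have hF : ∀ n, F n = χ n * ArithmeticFunction.vonMangoldt n / (n : ℝ) := fun n => rfl
  have hG : ∀ n, G n = χ n / (n : ℝ) := fun n => rfl
  have hT := h2 N
  have hconv := ArithmeticFunction.sum_Ioc_mul_eq_sum_sum F G N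
  rw [Finset.sum_congr rfl (fun n _ => MerA_conv χ hmul F G hF hG n)] at hconv
  rw [hconv] at hT
  have hinner : ∀ k : ℕ, |∑ d ∈ Finset.Ioc 0 k, G d - L| ≤ C₁ / ((k : ℝ) + 1) := h1
  have hpsi : ∑ n ∈ Finset.Ioc 0 N, ArithmeticFunction.vonMangoldt n ≤ (Real.log 4 + 4) * N := by
    have h1 := Chebyshev.psi_le_const_mul_self (x := (N : ℝ)) hNpos.le
    refine le_trans (le_of_eq ?_) h1
    unfold Chebyshev.psi
    rw [Nat.floor_natCast]
  set M : ℝ := ∑ n ∈ Finset.Ioc 0 N, F n with hM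
  have hdiff : |∑ n ∈ Finset.Ioc 0 N, F n * ∑ d ∈ Finset.Ioc 0 (N / n), G d
      - L * M| ≤ C₁ * (Real.log 4 + 4) := by
    have e1 : ∑ n ∈ Finset.Ioc 0 N, F n * ∑ d ∈ Finset.Ioc 0 (N / n), G d
        - L * M
        = ∑ n ∈ Finset.Ioc 0 N, F n * (∑ d ∈ Finset.Ioc 0 (N / n), G d - L) := by
      rw [hM, Finset.mul_sum, ← Finset.sum_sub_distrib]
      refine Finset.sum_congr rfl (fun n _ => ?_)
      ring
    rw [e1]
    refine (Finset.abs_sum_le_sum_abs _ _).trans ?_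
    have h1 : ∀ n ∈ Finset.Ioc 0 N, |F n * (∑ d ∈ Finset.Ioc 0 (N / n), G d - L)|
        ≤ C₁ * (ArithmeticFunction.vonMangoldt n / N) := by
      intro n hn
      rw [Finset.mem_Ioc] at hn
      have hn0 : (0 : ℝ) < n := by exact_mod_cast hn.1
      have hv : 0 ≤ ArithmeticFunction.vonMangoldt n := ArithmeticFunction.vonMangoldt_nonneg
      rw [abs_mul]
      have h2 : |F n| ≤ ArithmeticFunction.vonMangoldt n / n := by
        rw [hF, abs_div, abs_mul, abs_of_nonneg hv, abs_of_pos hn0]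
        apply div_le_div_of_nonneg_right _ hn0.le
        have := habs n
        nlinarith
      have h3 : |∑ d ∈ Finset.Ioc 0 (N / n), G d - L| ≤ C₁ * (n / N) := by
        refine (hinner (N / n)).trans ?_
        rw [div_eq_mul_one_div]
        apply mul_le_mul_of_nonneg_left _ hC₁
        rw [div_le_div_iff₀ (by positivity) hNpos, one_mul]
        have h4 : N < n * (N / n + 1) := by
          have := Nat.lt_mul_div_succ N hn.1
          simpa [Nat.succ_eq_add_one] using this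
        have h5 : (N : ℝ) < n * (((N / n : ℕ) : ℝ) + 1) := by exact_mod_cast h4
        linarith
      calc |F n| * |∑ d ∈ Finset.Ioc 0 (N / n), G d - L|
          ≤ (ArithmeticFunction.vonMangoldt n / n) * (C₁ * (n / N)) := by
            apply mul_le_mul h2 h3 (abs_nonneg _) (by positivity)
        _ = C₁ * (ArithmeticFunction.vonMangoldt n / N) := by
            field_simp
    refine (Finset.sum_le_sum h1).trans ?_
    rw [← Finset.mul_sum, ← Finset.sum_div]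
    apply mul_le_mul_of_nonneg_left _ hC₁
    rw [div_le_iff₀ hNpos]
    exact hpsi
  have hMeq : ∑ n ∈ Finset.Ioc 0 N, χ n *
      ArithmeticFunction.vonMangoldt n / (n : ℝ) = M := rfl
  rw [hMeq]
  have h6 : |L * M| ≤ C₂ + C₁ * (Real.log 4 + 4) := by
    have h7 := abs_le.1 hdiff
    have h8 := abs_le.1 hT
    rw [abs_le]
    constructor <;> linarith [h7.1, h7.2, h8.1, h8.2]
  rw [abs_mul] at h6
  rw [le_div_iff₀ (abs_pos.2 hL)]
  linarith

open Filter Topology in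
/-- The common end of the two cases. -/
private theorem MerA_main (χ : ℕ → ℝ) (hmul : ∀ a b, χ (a * b) = χ a * χ b)
    (habs : ∀ n, |χ n| ≤ 1) (B c : ℝ) (hB : ∀ k n, k ≤ n → |∑ d ∈ Ioc k n, χ d| ≤ B)
    (hc : 0 < c) (hpos : ∀ j : ℕ, c ≤ ∑ d ∈ Ioc 0 (8 * (j + 1)), χ d / (d : ℝ)) :
    ∃ K : ℝ, ∀ N : ℕ, 1 ≤ N →
      |∑ n ∈ Icc 1 N, χ n * ArithmeticFunction.vonMangoldt n / (n : ℝ)| ≤ K := by
  have hB0 : 0 ≤ B := (abs_nonneg _).trans (hB 0 0 le_rfl)
  set s : ℕ → ℝ := fun k => ∑ d ∈ Ioc 0 k, χ d / (d : ℝ) with hs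
  have hdiff : ∀ k N : ℕ, k ≤ N → |s N - s k| ≤ B / ((k : ℝ) + 1) := by
    intro k N hkN
    rcases hkN.eq_or_lt with rfl | hlt
    · simp only [sub_self, abs_zero]; positivity
    · have h1 := MerA_abel χ (fun d => 1 / (d : ℝ)) B hB k (fun d hd => by
        have hd0 : (0 : ℝ) < d := by exact_mod_cast (by omega : 0 < d)
        push_cast
        exact one_div_le_one_div_of_le hd0 (by linarith)) (fun d hd => by positivity) N hlt
      have e : s N - s k = ∑ d ∈ Ioc k N, χ d * (1 / (d : ℝ)) := by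
        have h2 := Finset.sum_Ioc_consecutive (fun d => χ d / (d : ℝ)) (Nat.zero_le k) hkN
        rw [hs]
        simp only
        rw [← h2, add_sub_cancel_left]
        exact Finset.sum_congr rfl fun d _ => by ring
      rw [e]
      refine h1.trans_eq ?_
      push_cast
      ring
  have hlim0 : Tendsto (fun k : ℕ => B / ((k : ℝ) + 1)) atTop (𝓝 0) := by
    have := (tendsto_one_div_add_atTop_nhds_zero_nat (𝕜 := ℝ)).const_mul B
    rw [mul_zero] at this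
    refine this.congr fun k => by ring
  have hcauchy : CauchySeq s := by
    refine cauchySeq_of_le_tendsto_0' (fun k : ℕ => B / ((k : ℝ) + 1)) (fun k N hkN => ?_) hlim0
    rw [Real.dist_eq, abs_sub_comm]
    exact hdiff k N hkN
  obtain ⟨L, hL⟩ := cauchySeq_tendsto_of_complete hcauchy
  have h1 : ∀ k : ℕ, |s k - L| ≤ B / ((k : ℝ) + 1) := by
    intro k
    have h2 : Tendsto (fun N => |s N - s k|) atTop (𝓝 |L - s k|) := (hL.sub_const (s k)).abs
    rw [abs_sub_comm]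
    refine le_of_tendsto h2 ?_
    filter_upwards [eventually_ge_atTop k] with N hN
    exact hdiff k N hN
  have hLpos : c ≤ L := by
    have h2 : Tendsto (fun j : ℕ => 8 * (j + 1)) atTop atTop := by
      refine tendsto_atTop_mono (fun j => ?_) tendsto_id
      simp only [id]
      omega
    exact ge_of_tendsto (hL.comp h2) (Eventually.of_forall fun j => hpos j)
  have hlog3 : 0 ≤ Real.log 3 := Real.log_nonneg (by norm_num)
  have h2 : ∀ N : ℕ, |∑ n ∈ Ioc 0 N, χ n * (Real.log n / n)| ≤ 1 + B * (Real.log 3 / 3) := by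
    intro N
    have hlog2 : Real.log 2 ≤ 1 := by
      have := Real.log_two_lt_d9
      linarith
    have hlog2' : 0 ≤ Real.log 2 := Real.log_nonneg (by norm_num)
    have hsmall : ∀ m, m ≤ 2 → |∑ n ∈ Ioc 0 m, χ n * (Real.log n / n)| ≤ 1 := by
      intro m hm
      interval_cases m
      · simp
      · rw [show Ioc 0 1 = {1} from rfl]
        simp
      · rw [show Ioc 0 2 = {1, 2} from rfl, Finset.sum_insert (by simp), Finset.sum_singleton]
        simp only [Nat.cast_one, Real.log_one, zero_div, mul_zero, zero_add, Nat.cast_ofNat]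
        rw [abs_mul, abs_of_nonneg (by positivity : 0 ≤ Real.log 2 / 2)]
        have := habs 2
        nlinarith
    rcases le_or_gt N 2 with h | h
    · exact (hsmall N h).trans (by
        have : 0 ≤ B * (Real.log 3 / 3) := by positivity
        linarith)
    · rw [← Finset.sum_Ioc_consecutive _ (Nat.zero_le 2) h.le]
      refine (abs_add_le _ _).trans (add_le_add (hsmall 2 le_rfl) ?_)
      have h3 := MerA_abel χ (fun d => Real.log d / (d : ℝ)) B hB 2 (fun d hd => by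
        have he : Real.exp 1 ≤ 3 := by
          have := Real.exp_one_lt_d9
          linarith
        have hd3 : (3 : ℝ) ≤ (d : ℝ) := by exact_mod_cast hd
        have hd4 : (d : ℝ) ≤ ((d + 1 : ℕ) : ℝ) := by push_cast; linarith
        exact Real.log_div_self_antitoneOn (he.trans hd3) (he.trans (hd3.trans hd4)) hd4)
        (fun d hd => by
          have : (1 : ℝ) ≤ (d : ℝ) := by exact_mod_cast (by omega : 1 ≤ d)
          have := Real.log_nonneg this
          positivity) N h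
      refine h3.trans_eq ?_
      norm_num
  exact mert_char χ hmul habs L B (1 + B * (Real.log 3 / 3)) (by linarith) h1 h2

/-- Difference of partial sums of a sequence of integers with bounded partial sums. -/
private theorem MerA_bound (χ : ℕ → ℤ) (a b : ℤ)
    (h : ∀ n, a ≤ ∑ d ∈ Ioc 0 n, χ d ∧ ∑ d ∈ Ioc 0 n, χ d ≤ b) (k n : ℕ) (hkn : k ≤ n) :
    |∑ d ∈ Ioc k n, ((χ d : ℤ) : ℝ)| ≤ ((b - a : ℤ) : ℝ) := by
  have h1 := Finset.sum_Ioc_consecutive χ (Nat.zero_le k) hkn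
  have h2 := h k
  have h3 := h n
  have h4 : |∑ d ∈ Ioc k n, χ d| ≤ b - a := by
    rw [abs_le]
    constructor <;> linarith [h2.1, h2.2, h3.1, h3.2]
  have h5 : ((|∑ d ∈ Ioc k n, χ d| : ℤ) : ℝ) ≤ ((b - a : ℤ) : ℝ) := by exact_mod_cast h4
  rw [Int.cast_abs, Int.cast_sum] at h5
  exact h5

private theorem MerA_cast (j i : ℕ) : ((8 * j + i : ℕ) : ZMod 8) = (i : ZMod 8) := by
  push_cast
  rw [show (8 : ZMod 8) = 0 from rfl]
  ring

/-- Lower bound of the partial sums by groups of eight. -/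
private theorem MerA_groups (χ : ℕ → ℝ) (c : ℝ) (h0 : c ≤ ∑ d ∈ Ioc 0 8, χ d / (d : ℝ))
    (h : ∀ j : ℕ, 0 ≤ ∑ d ∈ Ioc (8 * j) (8 * j + 8), χ d / (d : ℝ)) (j : ℕ) :
    c ≤ ∑ d ∈ Ioc 0 (8 * (j + 1)), χ d / (d : ℝ) := by
  induction j with
  | zero => simpa using h0
  | succ j ih =>
    rw [show 8 * (j + 1 + 1) = 8 * (j + 1) + 8 by ring,
      ← Finset.sum_Ioc_consecutive _ (Nat.zero_le (8 * (j + 1))) (by omega)]
    have := h (j + 1)
    linarith

private theorem MerA_expand (χ : ℕ → ℝ) (x : ℕ) :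
    ∑ d ∈ Ioc x (x + 8), χ d / (d : ℝ) =
      χ (x + 1) / ((x + 1 : ℕ) : ℝ) + χ (x + 2) / ((x + 2 : ℕ) : ℝ) + χ (x + 3) / ((x + 3 : ℕ) : ℝ) +
      χ (x + 4) / ((x + 4 : ℕ) : ℝ) + χ (x + 5) / ((x + 5 : ℕ) : ℝ) + χ (x + 6) / ((x + 6 : ℕ) : ℝ) +
      χ (x + 7) / ((x + 7 : ℕ) : ℝ) + χ (x + 8) / ((x + 8 : ℕ) : ℝ) := by
  rw [sum_Ioc_succ_top (by omega), sum_Ioc_succ_top (by omega), sum_Ioc_succ_top (by omega),
    sum_Ioc_succ_top (by omega), sum_Ioc_succ_top (by omega), sum_Ioc_succ_top (by omega),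
    sum_Ioc_succ_top (by omega), sum_Ioc_succ_top (by omega), Ioc_self, sum_empty]
  ring

theorem mert_chi8 : ∃ K : ℝ, ∀ N : ℕ, 1 ≤ N →
    |∑ n ∈ Icc 1 N, (ZMod.χ₈ (n : ZMod 8) : ℝ) * ArithmeticFunction.vonMangoldt n / (n : ℝ)| ≤
      K := by
  have hS : ∀ n : ℕ, ∑ d ∈ Ioc 0 n, ZMod.χ₈ (d : ZMod 8) =
      if n % 8 = 1 ∨ n % 8 = 2 then 1 else if n % 8 = 5 ∨ n % 8 = 6 then -1 else 0 := by
    intro n
    induction n with
    | zero => simp
    | succ n ih =>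
      rw [sum_Ioc_succ_top (Nat.zero_le n), ih, ZMod.χ₈_nat_eq_if_mod_eight]
      split_ifs <;> omega
  have hexp : ∀ j : ℕ, ∑ d ∈ Ioc (8 * j) (8 * j + 8), (ZMod.χ₈ (d : ZMod 8) : ℝ) / (d : ℝ) =
      1 / (((8 * j : ℕ) : ℝ) + 1) - 1 / (((8 * j : ℕ) : ℝ) + 3) - 1 / (((8 * j : ℕ) : ℝ) + 5)
        + 1 / (((8 * j : ℕ) : ℝ) + 7) := by
    intro j
    rw [MerA_expand (fun d => (ZMod.χ₈ (d : ZMod 8) : ℝ))]
    simp only [MerA_cast]
    have e1 : ZMod.χ₈ ((1 : ℕ) : ZMod 8) = 1 := by decide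
    have e2 : ZMod.χ₈ ((2 : ℕ) : ZMod 8) = 0 := by decide
    have e3 : ZMod.χ₈ ((3 : ℕ) : ZMod 8) = -1 := by decide
    have e4 : ZMod.χ₈ ((4 : ℕ) : ZMod 8) = 0 := by decide
    have e5 : ZMod.χ₈ ((5 : ℕ) : ZMod 8) = -1 := by decide
    have e6 : ZMod.χ₈ ((6 : ℕ) : ZMod 8) = 0 := by decide
    have e7 : ZMod.χ₈ ((7 : ℕ) : ZMod 8) = 1 := by decide
    have e8 : ZMod.χ₈ ((8 : ℕ) : ZMod 8) = 0 := by decide
    rw [e1, e2, e3, e4, e5, e6, e7, e8]
    push_cast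
    ring
  refine MerA_main (fun n => (ZMod.χ₈ (n : ZMod 8) : ℝ)) (fun a b => by push_cast; rw [map_mul]; push_cast; ring)
    (fun n => ?_) ((1 - (-1) : ℤ) : ℝ) (1 / 2) (MerA_bound _ _ _ fun n => ?_) (by norm_num)
    (MerA_groups _ _ ?_ fun j => ?_)
  · rcases ZMod.isQuadratic_χ₈ (n : ZMod 8) with h | h | h <;> rw [h] <;> simp
  · rw [hS n]
    constructor <;> split_ifs <;> omega
  · have := hexp 0
    simp only [mul_zero, zero_add] at this
    rw [this]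
    norm_num
  · rw [hexp j]
    have hx : (0 : ℝ) ≤ ((8 * j : ℕ) : ℝ) := Nat.cast_nonneg _
    set x : ℝ := ((8 * j : ℕ) : ℝ) with hxd
    have e : 1 / (x + 1) - 1 / (x + 3) - 1 / (x + 5) + 1 / (x + 7) =
        (16 * x + 64) / ((x + 1) * (x + 3) * (x + 5) * (x + 7)) := by
      field_simp
      ring
    rw [e]
    positivity

theorem mert_chi8' : ∃ K : ℝ, ∀ N : ℕ, 1 ≤ N →
    |∑ n ∈ Icc 1 N, (ZMod.χ₈' (n : ZMod 8) : ℝ) * ArithmeticFunction.vonMangoldt n / (n : ℝ)| ≤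
      K := by
  have hS : ∀ n : ℕ, ∑ d ∈ Ioc 0 n, ZMod.χ₈' (d : ZMod 8) =
      if n % 8 = 3 ∨ n % 8 = 4 then 2 else if n % 8 = 0 ∨ n % 8 = 7 then 0 else 1 := by
    intro n
    induction n with
    | zero => simp
    | succ n ih =>
      rw [sum_Ioc_succ_top (Nat.zero_le n), ih, ZMod.χ₈'_nat_eq_if_mod_eight]
      split_ifs <;> omega
  have hexp : ∀ j : ℕ, ∑ d ∈ Ioc (8 * j) (8 * j + 8), (ZMod.χ₈' (d : ZMod 8) : ℝ) / (d : ℝ) =
      1 / (((8 * j : ℕ) : ℝ) + 1) + 1 / (((8 * j : ℕ) : ℝ) + 3) - 1 / (((8 * j : ℕ) : ℝ) + 5)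
        - 1 / (((8 * j : ℕ) : ℝ) + 7) := by
    intro j
    rw [MerA_expand (fun d => (ZMod.χ₈' (d : ZMod 8) : ℝ))]
    simp only [MerA_cast]
    have e1 : ZMod.χ₈' ((1 : ℕ) : ZMod 8) = 1 := by decide
    have e2 : ZMod.χ₈' ((2 : ℕ) : ZMod 8) = 0 := by decide
    have e3 : ZMod.χ₈' ((3 : ℕ) : ZMod 8) = 1 := by decide
    have e4 : ZMod.χ₈' ((4 : ℕ) : ZMod 8) = 0 := by decide
    have e5 : ZMod.χ₈' ((5 : ℕ) : ZMod 8) = -1 := by decide
    have e6 : ZMod.χ₈' ((6 : ℕ) : ZMod 8) = 0 := by decide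
    have e7 : ZMod.χ₈' ((7 : ℕ) : ZMod 8) = -1 := by decide
    have e8 : ZMod.χ₈' ((8 : ℕ) : ZMod 8) = 0 := by decide
    rw [e1, e2, e3, e4, e5, e6, e7, e8]
    push_cast
    ring
  refine MerA_main (fun n => (ZMod.χ₈' (n : ZMod 8) : ℝ)) (fun a b => by push_cast; rw [map_mul]; push_cast; ring)
    (fun n => ?_) ((2 - 0 : ℤ) : ℝ) (1 / 2) (MerA_bound _ _ _ fun n => ?_) (by norm_num)
    (MerA_groups _ _ ?_ fun j => ?_)
  · rcases ZMod.isQuadratic_χ₈' (n : ZMod 8) with h | h | h <;> rw [h] <;> simp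
  · rw [hS n]
    constructor <;> split_ifs <;> omega
  · have := hexp 0
    simp only [mul_zero, zero_add] at this
    rw [this]
    norm_num
  · rw [hexp j]
    have hx : (0 : ℝ) ≤ ((8 * j : ℕ) : ℝ) := Nat.cast_nonneg _
    set x : ℝ := ((8 * j : ℕ) : ℝ) with hxd
    have e : 1 / (x + 1) + 1 / (x + 3) - 1 / (x + 5) - 1 / (x + 7) =
        4 / ((x + 1) * (x + 5)) + 4 / ((x + 3) * (x + 7)) := by
      field_simp
      ring
    rw [e]
    positivity

end Pool.Agent.SkewGem
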