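import Mathlib
import Pool.Agent.Lib_MP_009b3c_lc.MerA
import Pool.Agent.Lib_MP_f1a94e_mr.MertensA

/-!
# Piece MERB: primes congruent to 3 mod 8

`mert38`: as `Pool.Agent.GaussMR.mertens_log` (`Pool/Agent/Lib_MP_f1a94e_mr/MertensA.lean`, there for `1 mod 4`): for odd `n` the indicator of `n = 3 mod 8` is
`(1 - χ₄(n) - χ₈(n) + χ₈'(n)) / 4`; `mert_one`, `mert_chi` (namespace `Pool.Agent.GaussMR`), `mert_chi8`, `mert_chi8'`; the prime `2` and proper
prime powers (`mertensA_powers`) contribute `O(1)`.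
`theta38`: `∑_{Q / M < p ≤ Q} log p / p ≥ (log M) / 4 - 2 C ≥ 1` for a large constant `M`, and
`∑_{Q / M < p ≤ Q} log p ≥ (Q / M) ∑_{Q / M < p ≤ Q} log p / p`.
-/

namespace Pool.Agent.SkewGem

open Finset

/-- The four characters on the odd residues modulo 8. -/
private theorem merB_char {n : ℕ} (h : n % 2 = 1) :
    (1 - (ZMod.χ₄ (n : ZMod 4) : ℝ) - (ZMod.χ₈ (n : ZMod 8) : ℝ) + (ZMod.χ₈' (n : ZMod 8) : ℝ)) / 4 =
      if n % 8 = 3 then 1 else 0 := by
  rw [ZMod.χ₄_nat_eq_if_mod_four, ZMod.χ₈_nat_eq_if_mod_eight, ZMod.χ₈'_nat_eq_if_mod_eight]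
  have h8 : n % 8 = 1 ∨ n % 8 = 3 ∨ n % 8 = 5 ∨ n % 8 = 7 := by omega
  rw [if_neg (by omega : ¬ n % 2 = 0), if_neg (by omega : ¬ n % 2 = 0),
    if_neg (by omega : ¬ n % 2 = 0)]
  rcases h8 with h8 | h8 | h8 | h8
  · rw [if_pos (by omega : n % 4 = 1), if_pos (by omega : n % 8 = 1 ∨ n % 8 = 7),
      if_pos (by omega : n % 8 = 1 ∨ n % 8 = 3), if_neg (by omega)]
    norm_num
  · rw [if_neg (by omega : ¬ n % 4 = 1), if_neg (by omega : ¬ (n % 8 = 1 ∨ n % 8 = 7)),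
      if_pos (by omega : n % 8 = 1 ∨ n % 8 = 3), if_pos (by omega)]
    norm_num
  · rw [if_pos (by omega : n % 4 = 1), if_neg (by omega : ¬ (n % 8 = 1 ∨ n % 8 = 7)),
      if_neg (by omega : ¬ (n % 8 = 1 ∨ n % 8 = 3)), if_neg (by omega)]
    norm_num
  · rw [if_neg (by omega : ¬ n % 4 = 1), if_pos (by omega : n % 8 = 1 ∨ n % 8 = 7),
      if_neg (by omega : ¬ (n % 8 = 1 ∨ n % 8 = 3)), if_neg (by omega)]
    norm_num

theorem mert38 : ∃ K : ℝ, ∀ x : ℝ, 2 ≤ x →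
    |∑ p ∈ (Icc 1 ⌊x⌋₊).filter (fun p => p.Prime ∧ p % 8 = 3), Real.log p / p -
      Real.log x / 4| ≤ K := by
  obtain ⟨C1, h1⟩ := Pool.Agent.GaussMR.mert_one
  obtain ⟨C2, h2⟩ := Pool.Agent.GaussMR.mert_chi
  obtain ⟨C3, h3⟩ := Pool.Agent.GaussMR.mertensA_powers
  obtain ⟨C4, h4⟩ := mert_chi8
  obtain ⟨C5, h5⟩ := mert_chi8'
  refine ⟨C1 / 4 + C2 / 4 + C4 / 4 + C5 / 4 + (C3 + 1) + Real.log 2 / 4, fun x hx => ?_⟩
  set N := ⌊x⌋₊ with hN
  have hN1 : 1 ≤ N := by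
    rw [hN, Nat.one_le_floor_iff]
    linarith
  have hNpos : (0 : ℝ) < N := by exact_mod_cast hN1
  have k1 := h1 N hN1
  have k2 := h2 N hN1
  have k3 := h3 N
  have k4 := h4 N hN1
  have k5 := h5 N hN1
  set S1 := ∑ n ∈ Finset.Icc 1 N, ArithmeticFunction.vonMangoldt n / (n : ℝ) with hS1
  set S2 := ∑ n ∈ Finset.Icc 1 N,
    (ZMod.χ₄ (n : ZMod 4) : ℝ) * ArithmeticFunction.vonMangoldt n / (n : ℝ) with hS2
  set S4 := ∑ n ∈ Finset.Icc 1 N,
    (ZMod.χ₈ (n : ZMod 8) : ℝ) * ArithmeticFunction.vonMangoldt n / (n : ℝ) with hS4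
  set S5 := ∑ n ∈ Finset.Icc 1 N,
    (ZMod.χ₈' (n : ZMod 8) : ℝ) * ArithmeticFunction.vonMangoldt n / (n : ℝ) with hS5
  set A := ∑ p ∈ (Finset.Icc 1 N).filter (fun p => p.Prime ∧ p % 8 = 3), Real.log p / p with hA
  -- comparison of the logarithms
  have hlog : |Real.log N - Real.log x| ≤ Real.log 2 := by
    have a1 : (N : ℝ) ≤ x := Nat.floor_le (by linarith)
    have a2 : x ≤ 2 * N := by
      have := Nat.lt_floor_add_one x
      rw [← hN] at this
      have : (1 : ℝ) ≤ N := by exact_mod_cast hN1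
      linarith
    have b1 := Real.log_le_log hNpos a1
    have b2 := Real.log_le_log (by linarith) a2
    rw [Real.log_mul (by norm_num) hNpos.ne'] at b2
    rw [abs_le]
    constructor <;> linarith [Real.log_nonneg (by norm_num : (1 : ℝ) ≤ 2)]
  -- termwise comparison
  have hterm : ∀ n ∈ Finset.Icc 1 N,
      |(if n.Prime ∧ n % 8 = 3 then Real.log n / (n : ℝ) else 0) -
        (ArithmeticFunction.vonMangoldt n / (n : ℝ) -
          (ZMod.χ₄ (n : ZMod 4) : ℝ) * ArithmeticFunction.vonMangoldt n / (n : ℝ) -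
          (ZMod.χ₈ (n : ZMod 8) : ℝ) * ArithmeticFunction.vonMangoldt n / (n : ℝ) +
          (ZMod.χ₈' (n : ZMod 8) : ℝ) * ArithmeticFunction.vonMangoldt n / (n : ℝ)) / 4| ≤
      (if n.Prime then 0 else ArithmeticFunction.vonMangoldt n) / (n : ℝ) +
        (if n = 2 then 1 else 0) := by
    intro n hn
    have hn1 : 1 ≤ n := (Finset.mem_Icc.1 hn).1
    have hnpos : (0 : ℝ) < n := by exact_mod_cast hn1
    by_cases hp : n.Prime
    · have hΛ : ArithmeticFunction.vonMangoldt n = Real.log n :=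
        ArithmeticFunction.vonMangoldt_apply_prime hp
      rw [if_pos hp, zero_div, zero_add, hΛ]
      rcases hp.eq_two_or_odd with h2 | hodd
      · subst h2
        have hχ : ZMod.χ₄ ((2 : ℕ) : ZMod 4) = 0 := by decide
        have hχ8 : ZMod.χ₈ ((2 : ℕ) : ZMod 8) = 0 := by decide
        have hχ8' : ZMod.χ₈' ((2 : ℕ) : ZMod 8) = 0 := by decide
        rw [hχ, hχ8, hχ8']
        simp only [Nat.reduceMod, Int.cast_zero, if_true]
        have l1 := Real.log_two_lt_d9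
        have l2 := Real.log_two_gt_d9
        rw [if_neg (by norm_num), abs_le]
        push_cast
        constructor <;> linarith
      · have hne : n ≠ 2 := by
          rintro rfl
          simp at hodd
        rw [if_neg hne]
        have hc := merB_char hodd
        have e : (if n.Prime ∧ n % 8 = 3 then Real.log n / (n : ℝ) else 0) =
            (if n % 8 = 3 then (1 : ℝ) else 0) * (Real.log n / n) := by
          by_cases h3 : n % 8 = 3
          · rw [if_pos ⟨hp, h3⟩, if_pos h3, one_mul]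
          · rw [if_neg (fun h => h3 h.2), if_neg h3, zero_mul]
        rw [e, ← hc]
        have e0 : (1 - (ZMod.χ₄ (n : ZMod 4) : ℝ) - (ZMod.χ₈ (n : ZMod 8) : ℝ) +
            (ZMod.χ₈' (n : ZMod 8) : ℝ)) / 4 * (Real.log n / n) -
            (Real.log n / (n : ℝ) - (ZMod.χ₄ (n : ZMod 4) : ℝ) * Real.log n / (n : ℝ) -
            (ZMod.χ₈ (n : ZMod 8) : ℝ) * Real.log n / (n : ℝ) +
            (ZMod.χ₈' (n : ZMod 8) : ℝ) * Real.log n / (n : ℝ)) / 4 = 0 := by ring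
        rw [e0, abs_zero]
    · have hne : n ≠ 2 := by
        rintro rfl
        exact hp Nat.prime_two
      rw [if_neg hp, if_neg hne, if_neg (fun h => hp h.1), add_zero, zero_sub, abs_neg]
      have hΛ : 0 ≤ ArithmeticFunction.vonMangoldt n / (n : ℝ) :=
        div_nonneg ArithmeticFunction.vonMangoldt_nonneg hnpos.le
      have hχ : |(ZMod.χ₄ (n : ZMod 4) : ℝ)| ≤ 1 := by
        rw [ZMod.χ₄_nat_eq_if_mod_four]
        split_ifs <;> norm_num
      have hχ8 : |(ZMod.χ₈ (n : ZMod 8) : ℝ)| ≤ 1 := by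
        rw [ZMod.χ₈_nat_eq_if_mod_eight]
        split_ifs <;> norm_num
      have hχ8' : |(ZMod.χ₈' (n : ZMod 8) : ℝ)| ≤ 1 := by
        rw [ZMod.χ₈'_nat_eq_if_mod_eight]
        split_ifs <;> norm_num
      rw [mul_div_assoc, mul_div_assoc, mul_div_assoc]
      set L := ArithmeticFunction.vonMangoldt n / (n : ℝ) with hL
      set c := (ZMod.χ₄ (n : ZMod 4) : ℝ) with hc
      set c8 := (ZMod.χ₈ (n : ZMod 8) : ℝ) with hc8
      set c8' := (ZMod.χ₈' (n : ZMod 8) : ℝ) with hc8'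
      have e : (L - c * L - c8 * L + c8' * L) / 4 = (1 - c - c8 + c8') / 4 * L := by ring
      rw [e, abs_mul, abs_of_nonneg hΛ]
      have hb : |(1 - c - c8 + c8') / 4| ≤ 1 := by
        rw [abs_le] at hχ hχ8 hχ8' ⊢
        constructor <;> linarith [hχ.1, hχ.2, hχ8.1, hχ8.2, hχ8'.1, hχ8'.2]
      exact mul_le_of_le_one_left hΛ hb
  have hAsum : A = ∑ n ∈ Finset.Icc 1 N, (if n.Prime ∧ n % 8 = 3 then Real.log n / (n : ℝ) else 0) := by
    rw [hA, Finset.sum_filter]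
  have hdiff : |A - (S1 - S2 - S4 + S5) / 4| ≤ C3 + 1 := by
    have e1 : A - (S1 - S2 - S4 + S5) / 4 = ∑ n ∈ Finset.Icc 1 N,
        ((if n.Prime ∧ n % 8 = 3 then Real.log n / (n : ℝ) else 0) -
        (ArithmeticFunction.vonMangoldt n / (n : ℝ) -
          (ZMod.χ₄ (n : ZMod 4) : ℝ) * ArithmeticFunction.vonMangoldt n / (n : ℝ) -
          (ZMod.χ₈ (n : ZMod 8) : ℝ) * ArithmeticFunction.vonMangoldt n / (n : ℝ) +
          (ZMod.χ₈' (n : ZMod 8) : ℝ) * ArithmeticFunction.vonMangoldt n / (n : ℝ)) / 4) := by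
      rw [Finset.sum_sub_distrib, ← hAsum, ← Finset.sum_div, Finset.sum_add_distrib,
        Finset.sum_sub_distrib, Finset.sum_sub_distrib]
    rw [e1]
    refine (Finset.abs_sum_le_sum_abs _ _).trans ((Finset.sum_le_sum hterm).trans ?_)
    rw [Finset.sum_add_distrib]
    refine add_le_add k3 ?_
    rw [Finset.sum_ite_eq']
    split_ifs <;> norm_num
  rw [abs_le] at k1 k2 k4 k5 hdiff hlog ⊢
  constructor <;>
  linarith [k1.1, k1.2, k2.1, k2.2, k4.1, k4.2, k5.1, k5.2, hdiff.1, hdiff.2, hlog.1, hlog.2]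

theorem theta38 : ∃ K : ℝ, 1 ≤ K ∧ ∀ Q : ℕ, K ≤ Q →
    (Q : ℝ) / K ≤ ∑ p ∈ (Icc 1 Q).filter (fun p => p.Prime ∧ p % 8 = 3), Real.log p := by
  obtain ⟨C, hC⟩ := mert38
  set M : ℝ := Real.exp (8 * |C| + 4) with hM
  have hM1 : 1 ≤ M := Real.one_le_exp (by positivity)
  have hM0 : 0 < M := by linarith
  have hlogM : Real.log M = 8 * |C| + 4 := Real.log_exp _
  refine ⟨2 * M, by linarith, fun Q hQ => ?_⟩
  have hQ0 : (0 : ℝ) < Q := by linarith
  have hQ2 : (2 : ℝ) ≤ Q := by linarith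
  set x : ℝ := Q / M with hx
  have hx2 : 2 ≤ x := by
    rw [hx, le_div_iff₀ hM0]
    exact hQ
  have hx0 : 0 < x := by linarith
  have c1 := hC Q hQ2
  have c2 := hC x hx2
  rw [Nat.floor_natCast] at c1
  have hlogx : Real.log x = Real.log Q - Real.log M := Real.log_div hQ0.ne' hM0.ne'
  have hxQ : x ≤ Q := div_le_self hQ0.le hM1
  have hfl : ⌊x⌋₊ ≤ Q := by
    have := Nat.floor_le_floor hxQ
    rwa [Nat.floor_natCast] at this
  set F : ℕ → Prop := fun p => p.Prime ∧ p % 8 = 3 with hF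
  have hsub : (Icc 1 ⌊x⌋₊).filter (fun p => p.Prime ∧ p % 8 = 3) ⊆
      (Icc 1 Q).filter (fun p => p.Prime ∧ p % 8 = 3) := by
    intro p hp
    rw [Finset.mem_filter, Finset.mem_Icc] at hp ⊢
    exact ⟨⟨hp.1.1, hp.1.2.trans hfl⟩, hp.2⟩
  have hsd := Finset.sum_sdiff hsub (f := fun p : ℕ => Real.log p / (p : ℝ))
  have hbig : 1 ≤ ∑ p ∈ (Icc 1 Q).filter (fun p => p.Prime ∧ p % 8 = 3) \
      (Icc 1 ⌊x⌋₊).filter (fun p => p.Prime ∧ p % 8 = 3), Real.log p / (p : ℝ) := by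
    rw [abs_le] at c1 c2
    have := le_abs_self C
    linarith [c1.1, c2.2]
  have hterm : ∀ p ∈ (Icc 1 Q).filter (fun p => p.Prime ∧ p % 8 = 3) \
      (Icc 1 ⌊x⌋₊).filter (fun p => p.Prime ∧ p % 8 = 3),
      x * (Real.log p / (p : ℝ)) ≤ Real.log p := by
    intro p hp
    rw [Finset.mem_sdiff, Finset.mem_filter, Finset.mem_filter, Finset.mem_Icc, Finset.mem_Icc] at hp
    obtain ⟨⟨⟨hp1, hpQ⟩, hpp⟩, hn⟩ := hp
    have hlt : ⌊x⌋₊ < p := by
      by_contra hcon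
      exact hn ⟨⟨hp1, not_lt.mp hcon⟩, hpp⟩
    have hxp : x ≤ p := (Nat.lt_of_floor_lt hlt).le
    have hp0 : (0 : ℝ) < p := by exact_mod_cast hp1
    have hl : 0 ≤ Real.log p := Real.log_nonneg (by exact_mod_cast hp1)
    rw [← mul_div_assoc, div_le_iff₀ hp0]
    nlinarith
  have h1 : (Q : ℝ) / (2 * M) ≤ x := by
    rw [hx]
    exact div_le_div_of_nonneg_left hQ0.le hM0 (by linarith)
  have h2 : x ≤ ∑ p ∈ (Icc 1 Q).filter (fun p => p.Prime ∧ p % 8 = 3) \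
      (Icc 1 ⌊x⌋₊).filter (fun p => p.Prime ∧ p % 8 = 3), Real.log p := by
    calc x = x * 1 := (mul_one x).symm
      _ ≤ x * ∑ p ∈ (Icc 1 Q).filter (fun p => p.Prime ∧ p % 8 = 3) \
          (Icc 1 ⌊x⌋₊).filter (fun p => p.Prime ∧ p % 8 = 3), Real.log p / (p : ℝ) :=
        mul_le_mul_of_nonneg_left hbig hx0.le
      _ = ∑ p ∈ (Icc 1 Q).filter (fun p => p.Prime ∧ p % 8 = 3) \
          (Icc 1 ⌊x⌋₊).filter (fun p => p.Prime ∧ p % 8 = 3), x * (Real.log p / (p : ℝ)) :=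
        Finset.mul_sum _ _ _
      _ ≤ _ := Finset.sum_le_sum hterm
  have h3 : ∑ p ∈ (Icc 1 Q).filter (fun p => p.Prime ∧ p % 8 = 3) \
      (Icc 1 ⌊x⌋₊).filter (fun p => p.Prime ∧ p % 8 = 3), Real.log p ≤
      ∑ p ∈ (Icc 1 Q).filter (fun p => p.Prime ∧ p % 8 = 3), Real.log p := by
    refine Finset.sum_le_sum_of_subset_of_nonneg Finset.sdiff_subset fun p hp _ => ?_
    rw [Finset.mem_filter, Finset.mem_Icc] at hp
    exact Real.log_nonneg (by exact_mod_cast hp.1.1)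
  exact h1.trans (h2.trans h3)

end Pool.Agent.SkewGem
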