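import Mathlib
import Pool.Agent.Lib_MP_009b3c_lc.Defs
import Pool.Agent.Lib_MP_009b3c_lc.Tower

/-!
# Piece NF: the normal form of skew gems

Call `NFk k P` the statement `∃ e c σ, (σ = 1 ∨ σ = -1) ∧ C (2 ^ 2 ^ k) * P = C σ * (twr c k).comp (C 2 * X + C e)`.
* `NFk 0 X`.
* `NFk k P → NFk k (C σ' * P + C w)` (`σ' = ±1`, `w : ℤ`): for `k = 0` change `e` by `± 2 w` (`twr c 0 = X`), for `k + 1` change `c k` (only the last
  constant: `Function.update`, `twr c k` does not see `c k`).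
* `NFk k P → NFk (k + 1) ((σ₁ P + w₁) * (σ₂ P + w₂))`: up to sign this is `(P + u) * (P + v)` with integers `u`, `v`; with `F = twr c k` composed,
  `2 ^ 2 ^ (k + 1) (P + u) (P + v) = (F + σ 2 ^ 2 ^ k u) (F + σ 2 ^ 2 ^ k v) = (F + σ 2 ^ (2 ^ k - 1) (u + v)) ^ 2 - (2 ^ (2 ^ k - 1) (u - v)) ^ 2` up to sign. For
  `k = 0` the shift changes `e`, for `k ≥ 1` it changes `c (k - 1)`.

Invariant for the nodes with number `< t` (induction on `t`), `k` = number of product gates with number `< t`: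
`∃ P, ∀ g < t, (v g).natDegree ≤ 2 ^ k ∧ ((v g).natDegree = 2 ^ k → NFk k P ∧ ∃ σ w, (σ = 1 ∨ σ = -1) ∧ v g = C σ * P + C w)`.
Start: `k = 0`, `P = X`, no nodes. A node `x`: degree `1 < 2 ^ k` if `k ≥ 1`; for `k = 0` we need `P = X`: so carry also `k = 0 → P = X`. An integer: degree
`0 < 2 ^ k`. An additive gate: one of the inputs is an integer `C a`, `k` and `P` do not change. A product gate: `k` becomes `k + 1`, old nodes have degree
`≤ 2 ^ k < 2 ^ (k + 1)`, the new node `v i * v j` has degree `≤ 2 ^ (k + 1)`; if equal then both factors have degree `2 ^ k`, take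
`P' = v i * v j`. At the end (`t = size`, `k = products ≤ n`, `natDegree f = 2 ^ n`): `2 ^ n ≤ 2 ^ k`, so `k = n` and `f = ± P + w` with `NFk n P`.
-/

namespace Pool.Agent.SkewGem

open Polynomial

private theorem NF_twr_congr (k : ℕ) : ∀ (c c' : ℕ → ℤ), (∀ i < k, c i = c' i) → twr c k = twr c' k := by
  induction k with
  | zero => intro c c' _; rfl
  | succ k ih =>
    intro c c' h
    rw [twr_succ, twr_succ, ih c c' fun i hi => h i (Nat.lt_succ_of_lt hi), h k (Nat.lt_succ_self k)]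

private theorem NF_shift (k : ℕ) (c : ℕ → ℤ) (e t : ℤ) : ∃ (e' : ℤ) (c' : ℕ → ℤ),
    (twr c k).comp (C 2 * X + C e) + C t = (twr c' k).comp (C 2 * X + C e') := by
  cases k with
  | zero =>
    refine ⟨e + t, c, ?_⟩
    rw [twr_zero, X_comp, X_comp, C_add]
    ring
  | succ k =>
    refine ⟨e, Function.update c k (c k - t), ?_⟩
    have h1 : twr (Function.update c k (c k - t)) k = twr c k :=
      NF_twr_congr k _ _ fun i hi => Function.update_of_ne (ne_of_lt hi) _ _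
    rw [twr_succ, twr_succ, h1, Function.update_self, sub_comp, sub_comp, C_comp, C_comp, C_sub]
    ring

private def NFk (k : ℕ) (P : ℤ[X]) : Prop :=
  ∃ (e : ℤ) (c : ℕ → ℤ) (σ : ℤ), (σ = 1 ∨ σ = -1) ∧
    C (2 ^ 2 ^ k) * P = C σ * (twr c k).comp (C 2 * X + C e)

private theorem NF_zero : NFk 0 X := by
  refine ⟨0, fun _ => 0, 1, Or.inl rfl, ?_⟩
  rw [twr_zero, X_comp]
  simp

private theorem NF_sq {σ : ℤ} (h : σ = 1 ∨ σ = -1) : σ * σ = 1 := by
  rcases h with h | h <;> rw [h] <;> norm_num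

private theorem NF_mul {σ τ : ℤ} (h : σ = 1 ∨ σ = -1) (h' : τ = 1 ∨ τ = -1) :
    σ * τ = 1 ∨ σ * τ = -1 := by
  rcases h with h | h <;> rcases h' with h' | h' <;> rw [h, h'] <;> norm_num

private theorem NF_affine {k : ℕ} {P : ℤ[X]} (h : NFk k P) {τ : ℤ} (hτ : τ = 1 ∨ τ = -1) (w : ℤ) :
    NFk k (C τ * P + C w) := by
  obtain ⟨e, c, σ, hσ, hP⟩ := h
  obtain ⟨e', c', h'⟩ := NF_shift k c e (τ * σ * (2 ^ 2 ^ k) * w)
  refine ⟨e', c', τ * σ, NF_mul hτ hσ, ?_⟩
  have hs : (C (τ * σ) : ℤ[X]) * C (τ * σ) = 1 := by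
    rw [← C_mul, NF_sq (NF_mul hτ hσ), C_1]
  rw [← h']
  have h1 : C (τ * σ) * ((twr c k).comp (C 2 * X + C e) + C (τ * σ * (2 ^ 2 ^ k) * w)) =
      C τ * (C σ * (twr c k).comp (C 2 * X + C e)) +
        (C (τ * σ) * C (τ * σ)) * (C (2 ^ 2 ^ k) * C w) := by
    simp only [C_mul]
    ring
  rw [h1, ← hP, hs]
  ring

private theorem NF_prod {k : ℕ} {P : ℤ[X]} (h : NFk k P) (u v : ℤ) :
    NFk (k + 1) ((P + C u) * (P + C v)) := by
  obtain ⟨e, c, σ, hσ, hP⟩ := h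
  obtain ⟨e', c', h'⟩ := NF_shift k c e (σ * 2 ^ (2 ^ k - 1) * (u + v))
  have hk : 2 ^ k = (2 ^ k - 1) + 1 := (Nat.sub_add_cancel Nat.one_le_two_pow).symm
  set b : ℤ := 2 ^ (2 ^ k - 1) with hb
  have hs1 : (2 : ℤ) ^ 2 ^ k = 2 * b := by
    rw [hk, pow_succ, hb]
    ring
  have hs2 : (2 : ℤ) ^ 2 ^ (k + 1) = 2 ^ 2 ^ k * 2 ^ 2 ^ k := by
    rw [← pow_add, pow_succ, mul_two]
  refine ⟨e', Function.update c' k (b ^ 2 * (u - v) ^ 2), 1, Or.inl rfl, ?_⟩
  have h1 : twr (Function.update c' k (b ^ 2 * (u - v) ^ 2)) k = twr c' k :=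
    NF_twr_congr k _ _ fun i hi => Function.update_of_ne (ne_of_lt hi) _ _
  rw [twr_succ, h1, Function.update_self, sub_comp, C_comp, pow_comp, ← h']
  set F := (twr c k).comp (C 2 * X + C e) with hF
  have hσ2 : (C σ : ℤ[X]) * C σ = 1 := by
    rw [← C_mul, NF_sq hσ, C_1]
  have hP' : C (2 * b) * P = C σ * F := by
    rw [← hs1]
    exact hP
  have h2 : (C (2 ^ 2 ^ (k + 1)) : ℤ[X]) * ((P + C u) * (P + C v)) =
      (C (2 * b) * P + C (2 * b) * C u) * (C (2 * b) * P + C (2 * b) * C v) := by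
    rw [hs2, hs1, C_mul (a := 2 * b) (b := 2 * b)]
    ring
  rw [h2, hP']
  simp only [C_mul, C_add, C_sub, C_pow, C_1, C_ofNat]
  linear_combination (F ^ 2 - C b ^ 2 * (C u + C v) ^ 2) * hσ2

private theorem NF_prod' {k : ℕ} {P : ℤ[X]} (h : NFk k P) {σ₁ σ₂ : ℤ} (h1 : σ₁ = 1 ∨ σ₁ = -1)
    (h2 : σ₂ = 1 ∨ σ₂ = -1) (w₁ w₂ : ℤ) :
    NFk (k + 1) ((C σ₁ * P + C w₁) * (C σ₂ * P + C w₂)) := by
  have h3 := NF_affine (NF_prod h (σ₁ * w₁) (σ₂ * w₂)) (NF_mul h1 h2) 0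
  have h4 : (C σ₁ * P + C w₁) * (C σ₂ * P + C w₂) =
      C (σ₁ * σ₂) * ((P + C (σ₁ * w₁)) * (P + C (σ₂ * w₂))) + C 0 := by
    have e1 : (C σ₁ : ℤ[X]) * C σ₁ = 1 := by rw [← C_mul, NF_sq h1, C_1]
    have e2 : (C σ₂ : ℤ[X]) * C σ₂ = 1 := by rw [← C_mul, NF_sq h2, C_1]
    rw [C_0, add_zero, C_mul, C_mul, C_mul]
    linear_combination (-(C σ₂ * C w₁ * P) - C w₁ * C w₂ * (C σ₂ * C σ₂)) * e1 +
      (-(C σ₁ * C w₂ * P) - C w₁ * C w₂) * e2
  rw [h4]
  exact h3

private noncomputable def NF_cnt (K : Circuit) (t : ℕ) : ℕ := by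
  classical
  exact (Finset.univ.filter fun g : Fin K.size => g.val < t ∧ (K.node g).IsMul).card

private theorem NF_cnt_zero (K : Circuit) : NF_cnt K 0 = 0 := by
  classical
  unfold NF_cnt
  rw [Finset.card_eq_zero, Finset.filter_eq_empty_iff]
  rintro g _ ⟨h, _⟩
  exact absurd h (Nat.not_lt_zero _)

private theorem NF_cnt_size (K : Circuit) : NF_cnt K K.size = K.products := by
  classical
  unfold NF_cnt Circuit.products
  refine congrArg Finset.card ?_
  ext g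
  simp only [Finset.mem_filter, Finset.mem_univ, true_and]
  exact ⟨fun h => h.2, fun h => ⟨g.2, h⟩⟩

private theorem NF_cnt_mul (K : Circuit) (g₀ : Fin K.size) (h : (K.node g₀).IsMul) :
    NF_cnt K (g₀.val + 1) = NF_cnt K g₀.val + 1 := by
  classical
  unfold NF_cnt
  have h1 : (Finset.univ.filter fun g : Fin K.size => g.val < g₀.val + 1 ∧ (K.node g).IsMul) =
      insert g₀ (Finset.univ.filter fun g : Fin K.size => g.val < g₀.val ∧ (K.node g).IsMul) := by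
    ext g
    simp only [Finset.mem_filter, Finset.mem_univ, true_and, Finset.mem_insert]
    constructor
    · rintro ⟨h2, h3⟩
      rcases Nat.lt_succ_iff_lt_or_eq.1 h2 with h4 | h4
      · exact Or.inr ⟨h4, h3⟩
      · exact Or.inl (Fin.ext h4)
    · rintro (h2 | ⟨h2, h3⟩)
      · rw [h2]
        exact ⟨Nat.lt_succ_self _, h⟩
      · exact ⟨Nat.lt_succ_of_lt h2, h3⟩
  rw [h1, Finset.card_insert_of_notMem]
  simp

private theorem NF_cnt_not (K : Circuit) (g₀ : Fin K.size) (h : ¬ (K.node g₀).IsMul) :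
    NF_cnt K (g₀.val + 1) = NF_cnt K g₀.val := by
  classical
  unfold NF_cnt
  refine congrArg Finset.card ?_
  ext g
  simp only [Finset.mem_filter, Finset.mem_univ, true_and]
  constructor
  · rintro ⟨h2, h3⟩
    rcases Nat.lt_succ_iff_lt_or_eq.1 h2 with h4 | h4
    · exact ⟨h4, h3⟩
    · have h5 : g = g₀ := Fin.ext h4
      rw [h5] at h3
      exact absurd h3 h
  · rintro ⟨h2, h3⟩
    exact ⟨Nat.lt_succ_of_lt h2, h3⟩

/-- the invariant -/
private def NFInv (K : Circuit) (v : Fin K.size → ℤ[X]) (t : ℕ) (k : ℕ) (P : ℤ[X]) : Prop :=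
  (k = 0 → P = X) ∧ NFk k P ∧ ∀ g : Fin K.size, g.val < t → (v g).natDegree ≤ 2 ^ k ∧
    ((v g).natDegree = 2 ^ k → ∃ σ w : ℤ, (σ = 1 ∨ σ = -1) ∧ v g = C σ * P + C w)

private theorem NF_step_same {K : Circuit} {v : Fin K.size → ℤ[X]} {g₀ : Fin K.size} {k : ℕ}
    {P : ℤ[X]} (h : NFInv K v g₀.val k P)
    (h1 : (v g₀).natDegree ≤ 2 ^ k)
    (h2 : (v g₀).natDegree = 2 ^ k → ∃ σ w : ℤ, (σ = 1 ∨ σ = -1) ∧ v g₀ = C σ * P + C w) :
    NFInv K v (g₀.val + 1) k P := by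
  refine ⟨h.1, h.2.1, fun g hg => ?_⟩
  rcases Nat.lt_succ_iff_lt_or_eq.1 hg with h4 | h4
  · exact h.2.2 g h4
  · have h5 : g = g₀ := Fin.ext h4
    rw [h5]
    exact ⟨h1, h2⟩

private theorem NF_step_affine {K : Circuit} {v : Fin K.size → ℤ[X]} {g₀ : Fin K.size} {k : ℕ}
    {P : ℤ[X]} (h : NFInv K v g₀.val k P) (j : Fin K.size) (hj : j < g₀) {τ : ℤ}
    (hτ : τ = 1 ∨ τ = -1) (a : ℤ) (hv : v g₀ = C τ * v j + C a) :
    NFInv K v (g₀.val + 1) k P := by
  have h3 := h.2.2 j hj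
  have h4 : (v g₀).natDegree = (v j).natDegree := by
    rw [hv, natDegree_add_C]
    rcases hτ with h5 | h5
    · rw [h5, C_1, one_mul]
    · rw [h5, C_neg, C_1, neg_one_mul, natDegree_neg]
  refine NF_step_same h (by rw [h4]; exact h3.1) fun h5 => ?_
  rw [h4] at h5
  obtain ⟨σ, w, hσ, hw⟩ := h3.2 h5
  refine ⟨τ * σ, τ * w + a, NF_mul hτ hσ, ?_⟩
  rw [hv, hw]
  simp only [C_mul, C_add]
  ring

private theorem NF_step {K : Circuit} (hS : K.Skew) {v : Fin K.size → ℤ[X]}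
    (hv : ∀ g, v g = (K.node g).val v) (g₀ : Fin K.size) {P : ℤ[X]}
    (h : NFInv K v g₀.val (NF_cnt K g₀.val) P) :
    ∃ P', NFInv K v (g₀.val + 1) (NF_cnt K (g₀.val + 1)) P' := by
  have hint : ∀ i : Fin K.size, (K.node i).IsInt → ∃ a : ℤ, v i = C a := by
    intro i hi
    rcases hn : K.node i with _ | a | ⟨i', j'⟩ | ⟨i', j'⟩ | ⟨i', j'⟩
    · rw [hn] at hi
      exact absurd hi (by simp [Node.IsInt])
    · refine ⟨a, ?_⟩
      rw [hv i, hn]
      rfl
    all_goals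
      rw [hn] at hi
      exact absurd hi (by simp [Node.IsInt])
  rcases hn : K.node g₀ with _ | a | ⟨i, j⟩ | ⟨i, j⟩ | ⟨i, j⟩
  · -- the variable
    rw [NF_cnt_not K g₀ (by rw [hn]; simp [Node.IsMul])]
    have h1 : v g₀ = X := by
      rw [hv g₀, hn]
      rfl
    refine ⟨P, NF_step_same h ?_ fun h2 => ?_⟩
    · rw [h1, natDegree_X]
      exact Nat.one_le_two_pow
    · rw [h1, natDegree_X] at h2
      have h3 : NF_cnt K g₀.val = 0 := by
        by_contra h4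
        have h5 : 2 ^ 1 ≤ 2 ^ NF_cnt K g₀.val :=
          Nat.pow_le_pow_right (by norm_num) (Nat.one_le_iff_ne_zero.2 h4)
        omega
      refine ⟨1, 0, Or.inl rfl, ?_⟩
      rw [h1, h.1 h3]
      simp
  · -- an integer
    rw [NF_cnt_not K g₀ (by rw [hn]; simp [Node.IsMul])]
    have h1 : v g₀ = C a := by
      rw [hv g₀, hn]
      rfl
    refine ⟨P, NF_step_same h ?_ fun h2 => ?_⟩
    · rw [h1, natDegree_C]
      exact Nat.zero_le _
    · rw [h1, natDegree_C] at h2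
      have h3 : 0 < 2 ^ NF_cnt K g₀.val := by positivity
      omega
  · -- a product gate
    rw [NF_cnt_mul K g₀ (by rw [hn]; simp [Node.IsMul])]
    have hi : i < g₀ := K.acyclic g₀ i (by rw [hn]; exact Or.inl rfl)
    have hj : j < g₀ := K.acyclic g₀ j (by rw [hn]; exact Or.inr rfl)
    have h1 : v g₀ = v i * v j := by
      rw [hv g₀, hn]
      rfl
    set k := NF_cnt K g₀.val with hk
    have hpos : 0 < 2 ^ k := by positivity
    have hdi := h.2.2 i hi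
    have hdj := h.2.2 j hj
    have hd : (v g₀).natDegree ≤ 2 ^ (k + 1) := by
      rw [h1, pow_succ]
      exact natDegree_mul_le.trans (by omega)
    by_cases he : (v g₀).natDegree = 2 ^ (k + 1)
    · have hle : (v g₀).natDegree ≤ (v i).natDegree + (v j).natDegree := by
        rw [h1]
        exact natDegree_mul_le
      rw [pow_succ] at he
      obtain ⟨σ₁, w₁, hσ₁, hw₁⟩ := hdi.2 (by omega)
      obtain ⟨σ₂, w₂, hσ₂, hw₂⟩ := hdj.2 (by omega)
      refine ⟨v g₀, fun h2 => absurd h2 (Nat.succ_ne_zero _), ?_, fun g hg => ?_⟩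
      · rw [h1, hw₁, hw₂]
        exact NF_prod' h.2.1 hσ₁ hσ₂ w₁ w₂
      · rcases Nat.lt_succ_iff_lt_or_eq.1 hg with h4 | h4
        · have h5 := (h.2.2 g h4).1
          rw [pow_succ]
          exact ⟨by omega, fun h6 => by omega⟩
        · have h5 : g = g₀ := Fin.ext h4
          rw [h5]
          refine ⟨hd, fun _ => ⟨1, 0, Or.inl rfl, ?_⟩⟩
          simp
    · refine ⟨P * P, fun h2 => absurd h2 (Nat.succ_ne_zero _), ?_, fun g hg => ?_⟩
      · have h2 := NF_prod h.2.1 0 0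
        rwa [C_0, add_zero] at h2
      · rcases Nat.lt_succ_iff_lt_or_eq.1 hg with h4 | h4
        · have h5 := (h.2.2 g h4).1
          rw [pow_succ]
          exact ⟨by omega, fun h6 => by omega⟩
        · have h5 : g = g₀ := Fin.ext h4
          rw [h5]
          exact ⟨hd, fun h6 => absurd h6 he⟩
  · -- addition
    rw [NF_cnt_not K g₀ (by rw [hn]; simp [Node.IsMul])]
    have hi : i < g₀ := K.acyclic g₀ i (by rw [hn]; exact Or.inl rfl)
    have hj : j < g₀ := K.acyclic g₀ j (by rw [hn]; exact Or.inr rfl)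
    have h1 : v g₀ = v i + v j := by
      rw [hv g₀, hn]
      rfl
    refine ⟨P, ?_⟩
    rcases hS g₀ i j (Or.inl hn) with h2 | h2
    · obtain ⟨a, ha⟩ := hint i h2
      refine NF_step_affine h j hj (Or.inl rfl) a ?_
      rw [h1, ha, C_1]
      ring
    · obtain ⟨a, ha⟩ := hint j h2
      refine NF_step_affine h i hi (Or.inl rfl) a ?_
      rw [h1, ha, C_1]
      ring
  · -- subtraction
    rw [NF_cnt_not K g₀ (by rw [hn]; simp [Node.IsMul])]
    have hi : i < g₀ := K.acyclic g₀ i (by rw [hn]; exact Or.inl rfl)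
    have hj : j < g₀ := K.acyclic g₀ j (by rw [hn]; exact Or.inr rfl)
    have h1 : v g₀ = v i - v j := by
      rw [hv g₀, hn]
      rfl
    refine ⟨P, ?_⟩
    rcases hS g₀ i j (Or.inr hn) with h2 | h2
    · obtain ⟨a, ha⟩ := hint i h2
      refine NF_step_affine h j hj (Or.inr rfl) a ?_
      rw [h1, ha, C_neg, C_1]
      ring
    · obtain ⟨a, ha⟩ := hint j h2
      refine NF_step_affine h i hi (Or.inl rfl) (-a) ?_
      rw [h1, ha, C_1, C_neg]
      ring

private theorem NF_all {K : Circuit} (hS : K.Skew) {v : Fin K.size → ℤ[X]}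
    (hv : ∀ g, v g = (K.node g).val v) :
    ∀ t ≤ K.size, ∃ P, NFInv K v t (NF_cnt K t) P := by
  intro t
  induction t with
  | zero =>
    intro _
    rw [NF_cnt_zero]
    exact ⟨X, fun _ => rfl, NF_zero, fun g hg => absurd hg (Nat.not_lt_zero _)⟩
  | succ t ih =>
    intro ht
    obtain ⟨P, hP⟩ := ih (Nat.le_of_succ_le ht)
    exact NF_step hS hv ⟨t, ht⟩ hP

theorem normal_form {n : ℕ} {f : ℤ[X]} (hf : IsSkewGem n f) :
    ∃ (e : ℤ) (c : ℕ → ℤ) (σ : ℤ), (σ = 1 ∨ σ = -1) ∧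
      C (2 ^ 2 ^ n) * f = C σ * (twr c n).comp (C 2 * X + C e) := by
  obtain ⟨⟨K, hS, ⟨v, hv, hout⟩, hprod⟩, hdeg, -⟩ := hf
  obtain ⟨P, hP⟩ := NF_all hS hv K.size le_rfl
  rw [NF_cnt_size] at hP
  have h1 := hP.2.2 K.out K.out.2
  rw [hout, hdeg] at h1
  have h2 : n ≤ K.products := (Nat.pow_le_pow_iff_right (by norm_num)).1 h1.1
  have h3 : K.products = n := le_antisymm hprod h2
  rw [h3] at hP h1
  obtain ⟨σ, w, hσ, hw⟩ := h1.2 rfl
  have h4 := NF_affine hP.2.1 hσ w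
  rw [← hw] at h4
  exact h4

end Pool.Agent.SkewGem
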