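import Mathlib
import Pool.Agent.Lib_MP_009b3c_lc.NF
import Pool.Agent.Lib_MP_009b3c_lc.LocP
import Pool.Agent.Lib_MP_009b3c_lc.Glob
import Pool.Agent.Lib_MP_009b3c_lc.MerB

/-!
# Residues and sizes of the roots of skew gems
-/

namespace Pool.Agent.SkewGem

open Polynomial Finset

/-- The roots of a gem, the tower and its tree. -/
theorem gem_data {n : ℕ} {f : ℤ[X]} (hf : IsSkewGem n f) :
    ∃ (e : ℤ) (c : ℕ → ℤ), (∃ σ : ℤ, (σ = 1 ∨ σ = -1) ∧
        C (2 ^ 2 ^ n) * f = C σ * (twr c n).comp (C 2 * X + C e)) ∧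
      Tree c n (lev c (f.roots.toFinset.image fun x => 2 * x + e)) ∧
      (∀ i ≤ n, (lev c (f.roots.toFinset.image fun x => 2 * x + e) i).card = 2 ^ (n - i)) := by
  obtain ⟨e, c, σ, hσ, h⟩ := normal_form hf
  have hinj : Function.Injective fun x : ℤ => 2 * x + e := fun a b hab => by
    simp only at hab
    omega
  have hA : (f.roots.toFinset.image fun x => 2 * x + e).card = 2 ^ n := by
    rw [card_image_of_injective _ hinj, hf.2.2]
  have hroot : ∀ x ∈ (f.roots.toFinset.image fun x => 2 * x + e), eval x (twr c n) = 0 := by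
    intro x hx
    rw [mem_image] at hx
    obtain ⟨y, hy, rfl⟩ := hx
    rw [Multiset.mem_toFinset, mem_roots'] at hy
    have h1 := congrArg (eval y) h
    rw [eval_mul, eval_mul, hy.2.eq_zero, mul_zero, eval_C, eval_comp, eval_add, eval_mul, eval_C,
      eval_X, eval_C] at h1
    rcases hσ with rfl | rfl
    · linarith
    · linarith
  exact ⟨e, c, ⟨σ, hσ, h⟩, tree_lev c n _ hA hroot, fun i hi => (lev_eq c n _ hA hroot i hi).2⟩

theorem lev_zero {R : Type*} [CommRing R] [DecidableEq R] (c : ℕ → R) (A : Finset R) :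
    lev c A 0 = A := by
  unfold lev
  simp only [eval_twr_zero, image_id']

/-- The bound for the number of residue classes. -/
noncomputable def bnd (p j : ℕ) : ℝ :=
  2 ^ j + (p / 2 ^ (j * (j + 1) / 2) + (j * 2 ^ (j + 1) : ℕ) * (40 * √p + 1))

theorem tree_bnd (p : ℕ) [Fact p.Prime] (hp : p % 8 = 3) {c : ℕ → ZMod p} {n : ℕ}
    {S : ℕ → Finset (ZMod p)} (hS : Tree c n S) (j : ℕ) : ((S 0).card : ℝ) ≤ bnd p j := by
  unfold bnd
  have h0 : (0 : ℝ) ≤ p / 2 ^ (j * (j + 1) / 2) + (j * 2 ^ (j + 1) : ℕ) * (40 * √p + 1) := by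
    positivity
  rcases Nat.lt_or_ge j n with hj | hj
  · by_cases ht : ∃ t ∈ S j, t ≠ 0
    · have h1 := local_bound p hp c n S hS j hj ht
      have h2 : (0 : ℝ) ≤ 2 ^ j := by positivity
      linarith
    · push Not at ht
      have h1 : (S j).card ≤ 1 := by
        refine card_le_one.2 fun a ha b hb => ?_
        rw [ht a ha, ht b hb]
      have h2 : (S 0).card ≤ 2 ^ j := by
        refine (hS.card_le hj.le).trans ?_
        calc 2 ^ j * (S j).card ≤ 2 ^ j * 1 := Nat.mul_le_mul_left _ h1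
          _ = 2 ^ j := mul_one _
      have h3 : ((S 0).card : ℝ) ≤ 2 ^ j := by exact_mod_cast h2
      linarith
  · have h1 := hS.card_le le_rfl
    rw [hS.top, card_singleton, mul_one] at h1
    have h2 : (S 0).card ≤ 2 ^ j := h1.trans (Nat.pow_le_pow_right (by norm_num) hj)
    have h3 : ((S 0).card : ℝ) ≤ 2 ^ j := by exact_mod_cast h2
    linarith

theorem residues_bnd {n : ℕ} {f : ℤ[X]} (hf : IsSkewGem n f) (p : ℕ) [Fact p.Prime]
    (hp : p % 8 = 3) (j : ℕ) :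
    ((f.roots.toFinset.image fun x : ℤ => (x : ZMod p)).card : ℝ) ≤ bnd p j := by
  obtain ⟨e, c, -, hT, -⟩ := gem_data hf
  have h1 := tree_bnd p hp (hT.map (Int.castRingHom (ZMod p))) j
  simp only [lev_zero] at h1
  rw [image_image] at h1
  have h2 : (f.roots.toFinset.image fun x : ℤ => (x : ZMod p)).card =
      (f.roots.toFinset.image ((Int.castRingHom (ZMod p)) ∘ fun x => 2 * x + e)).card := by
    have h3 : (f.roots.toFinset.image ((Int.castRingHom (ZMod p)) ∘ fun x => 2 * x + e)) =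
        (f.roots.toFinset.image fun x : ℤ => (x : ZMod p)).image
          fun y => 2 * y + (e : ZMod p) := by
      rw [image_image]
      refine image_congr fun x _ => ?_
      simp
    have hinj : Function.Injective fun y : ZMod p => 2 * y + (e : ZMod p) := by
      intro a b hab
      have h20 := two_ne (not_sq_two hp)
      have h4 : 2 * (a - b) = 0 := by
        simp only at hab
        linear_combination hab
      exact sub_eq_zero.1 ((mul_eq_zero.1 h4).resolve_left h20)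
    rw [h3]
    exact (card_image_of_injective _ hinj).symm
  rw [h2]
  exact h1

/-- A prime `3 mod 8` for which the bound is small divides the nodes of the level. -/
theorem dvd_level {n : ℕ} {c : ℕ → ℤ} {S : ℕ → Finset ℤ} (hS : Tree c n S) {i : ℕ} (hi : i < n)
    (p : ℕ) (hpr : p.Prime) (hp : p % 8 = 3) (j : ℕ) (hb : bnd p j < 2 ^ i + 1) {s : ℤ}
    (hs : s ∈ S i) : (p : ℤ) ∣ s := by
  have : Fact p.Prime := ⟨hpr⟩
  have hT := hS.map (Int.castRingHom (ZMod p))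
  by_contra hcon
  have h1 : ((s : ℤ) : ZMod p) ≠ 0 := by
    intro h
    exact hcon ((ZMod.intCast_zmod_eq_zero_iff_dvd s p).1 h)
  have h2 := Tree.card_ge (two_ne (not_sq_two hp)) hT hi
    ⟨(s : ZMod p), mem_image_of_mem (Int.castRingHom (ZMod p)) hs, h1⟩
  have h3 := tree_bnd p hp hT j
  have h4 : (2 : ℝ) ^ i + 1 ≤ (((S 0).image (Int.castRingHom (ZMod p))).card : ℝ) := by
    exact_mod_cast h2
  linarith

theorem height_core : ∃ K : ℝ, 1 ≤ K ∧ ∀ (N j Q : ℕ) (f : ℤ[X]), IsSkewGem (N + 1) f →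
    (∀ p ≤ Q, bnd p j < 2 ^ N + 1) → K ≤ Q →
    ∃ x ∈ f.roots, (Q : ℝ) / K ≤ 2 ^ N * Real.log (4 * |(x : ℝ)|) := by
  obtain ⟨K, hK1, hK⟩ := theta38
  refine ⟨K, hK1, ?_⟩
  intro N j Q f hf hb hQ
  obtain ⟨e, c, -, hT, hcard⟩ := gem_data hf
  set A := f.roots.toFinset.image fun x => 2 * x + e with hA
  -- a node of the last level which is not zero
  have h1 : (lev c A N).card = 2 := by
    rw [hcard N (by omega), show N + 1 - N = 1 by omega, pow_one]
  obtain ⟨s, hs, hs0⟩ : ∃ s ∈ lev c A N, s ≠ 0 := by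
    by_contra hcon
    push Not at hcon
    have : (lev c A N).card ≤ 1 := card_le_one.2 fun a ha b hb => by rw [hcon a ha, hcon b hb]
    omega
  -- the largest root
  have hne : f.roots.toFinset.Nonempty := by
    rw [← card_pos, hf.2.2]
    exact pow_pos (by norm_num) _
  obtain ⟨x, hx, hmax⟩ := exists_max_image f.roots.toFinset (fun x => |x|) hne
  refine ⟨x, Multiset.mem_toFinset.1 hx, ?_⟩
  have hbound : ∀ y ∈ lev c A 0, |y| ≤ 4 * |x| := by
    intro y hy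
    have hny := hT.neg 0 (by omega) y hy
    rw [lev_zero, hA, mem_image] at hy hny
    obtain ⟨a, ha, rfl⟩ := hy
    obtain ⟨b, hb', hab⟩ := hny
    have h2 := hmax a ha
    have h3 := hmax b hb'
    have h4 : 2 * a + e = a - b := by omega
    rw [h4]
    have := abs_sub a b
    have := abs_nonneg x
    linarith
  have hsize := hT.size_le hbound (i := N) (by omega) s hs
  -- the product of the primes
  set P := (Icc 1 Q).filter (fun p => p.Prime ∧ p % 8 = 3) with hP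
  have hdvd : ((∏ p ∈ P, p : ℕ) : ℤ) ∣ s := by
    rw [Int.natCast_dvd]
    refine prod_primes_dvd _ ?_ ?_
    · intro p hp
      rw [hP, mem_filter] at hp
      exact hp.2.1.prime
    · intro p hp
      rw [hP, mem_filter, mem_Icc] at hp
      rw [← Int.natCast_dvd]
      exact dvd_level hT (by omega) p hp.2.1 hp.2.2 j (hb p hp.1.2) hs
  have hle : (∏ p ∈ P, (p : ℝ)) ≤ ((4 * |x| : ℤ) : ℝ) ^ 2 ^ N := by
    have h2 := Int.le_of_dvd (abs_pos.2 hs0) ((dvd_abs _ _).2 hdvd)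
    have h3 := h2.trans hsize
    have h4 : (((∏ p ∈ P, p : ℕ) : ℤ) : ℝ) ≤ (((4 * |x|) ^ 2 ^ N : ℤ) : ℝ) := by
      exact_mod_cast h3
    push_cast at h4 ⊢
    exact h4
  have hpos : (0 : ℝ) < ∏ p ∈ P, (p : ℝ) := by
    refine prod_pos fun p hp => ?_
    rw [hP, mem_filter] at hp
    exact_mod_cast hp.2.1.pos
  have hlog := Real.log_le_log hpos hle
  rw [Real.log_prod fun p hp => ?_, Real.log_pow] at hlog
  · have h5 := (hK Q hQ).trans hlog
    push_cast at h5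
    exact h5
  · rw [hP, mem_filter] at hp
    exact_mod_cast hp.2.1.pos.ne'

theorem bnd_lt (N : ℕ) (j : ℕ) (hj : j = Nat.sqrt (2 * (N + 1)) + 3) (hN : 2 * j + 12 ≤ N + 1)
    (p : ℕ) (hp : p ≤ 4 ^ (N + 1 - 2 * j - 12)) : bnd p j < 2 ^ N + 1 := by
  unfold bnd
  -- the parameters
  obtain ⟨q, hq⟩ : ∃ q, N + 1 = 2 * j + 12 + q := ⟨N + 1 - (2 * j + 12), by omega⟩
  have e1 : N + 1 - 2 * j - 12 = q := by omega
  rw [e1] at hp
  have hJ : N + 4 ≤ j * (j + 1) / 2 := by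
    have h1 := Nat.lt_succ_sqrt (2 * (N + 1))
    set s := Nat.sqrt (2 * (N + 1))
    have h2 : 2 * (N + 4) ≤ j * (j + 1) := by
      rw [hj]
      rw [Nat.succ_eq_add_one] at h1
      nlinarith
    omega
  have hpR : (p : ℝ) ≤ 4 ^ q := by exact_mod_cast hp
  have hsq : √(p : ℝ) ≤ 2 ^ q := by
    rw [show (2 : ℝ) ^ q = √(4 ^ q) by
      rw [show (4 : ℝ) ^ q = (2 ^ q) ^ 2 by rw [← pow_mul, mul_comm, pow_mul]; norm_num]
      rw [Real.sqrt_sq (by positivity)]]
    exact Real.sqrt_le_sqrt hpR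
  have h1 : (2 : ℝ) ^ j ≤ 2 ^ N / 4 := by
    rw [le_div_iff₀ (by norm_num)]
    calc (2 : ℝ) ^ j * 4 = 2 ^ (j + 2) := by rw [pow_add]; norm_num
      _ ≤ 2 ^ N := pow_le_pow_right₀ (by norm_num) (by omega)
  have h2 : (p : ℝ) / 2 ^ (j * (j + 1) / 2) ≤ 2 ^ N / 4 := by
    rw [div_le_div_iff₀ (by positivity) (by norm_num)]
    calc (p : ℝ) * 4 ≤ 4 ^ q * 4 := by linarith
      _ = 2 ^ (2 * q + 2) := by
        rw [pow_add, pow_mul]
        norm_num
      _ ≤ 2 ^ (N + (N + 4)) := pow_le_pow_right₀ (by norm_num) (by omega)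
      _ = 2 ^ N * 2 ^ (N + 4) := pow_add _ _ _
      _ ≤ 2 ^ N * 2 ^ (j * (j + 1) / 2) :=
        mul_le_mul_of_nonneg_left (pow_le_pow_right₀ (by norm_num) hJ) (by positivity)
  have h3 : ((j * 2 ^ (j + 1) : ℕ) : ℝ) * (40 * √p + 1) ≤ 2 ^ N / 4 := by
    have h4 : ((j * 2 ^ (j + 1) : ℕ) : ℝ) ≤ 2 ^ (2 * j + 1) := by
      have : j * 2 ^ (j + 1) ≤ 2 ^ (2 * j + 1) := by
        calc j * 2 ^ (j + 1) ≤ 2 ^ j * 2 ^ (j + 1) :=
              Nat.mul_le_mul_right _ (Nat.lt_two_pow_self).le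
          _ = 2 ^ (2 * j + 1) := by rw [← pow_add]; congr 1; omega
      exact_mod_cast this
    have h5 : 40 * √(p : ℝ) + 1 ≤ 2 ^ (q + 6) := by
      have : (1 : ℝ) ≤ 2 ^ q := one_le_pow₀ (by norm_num)
      rw [pow_add]
      linarith
    calc ((j * 2 ^ (j + 1) : ℕ) : ℝ) * (40 * √p + 1) ≤ 2 ^ (2 * j + 1) * 2 ^ (q + 6) := by
          apply mul_le_mul h4 h5 (by positivity) (by positivity)
      _ = 2 ^ (2 * j + 1 + (q + 6)) := (pow_add _ _ _).symm
      _ ≤ 2 ^ N / 4 := by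
        rw [le_div_iff₀ (by norm_num)]
        calc (2 : ℝ) ^ (2 * j + 1 + (q + 6)) * 4 = 2 ^ (2 * j + 1 + (q + 6) + 2) := by
              rw [pow_add _ _ 2]; norm_num
          _ ≤ 2 ^ N := pow_le_pow_right₀ (by norm_num) (by omega)
  have h6 : (0 : ℝ) < 2 ^ N := by positivity
  linarith

/-- The sizes of the roots. -/
theorem height : ∃ K : ℝ, ∀ (n : ℕ) (f : ℤ[X]), 2 ≤ n → IsSkewGem n f →
    ∃ x ∈ f.roots, (2 : ℝ) ^ ((n : ℝ) - K * √n) ≤ Real.log |(x : ℝ)| := by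
  obtain ⟨K, hK1, hK⟩ := height_core
  obtain ⟨k0, hk0⟩ : ∃ k0 : ℕ, K ≤ 2 ^ k0 := by
    obtain ⟨k, hk⟩ := pow_unbounded_of_one_lt K (by norm_num : (1 : ℝ) < 2)
    exact ⟨k, hk.le⟩
  refine ⟨46 + k0, ?_⟩
  intro n f hn hf
  obtain ⟨N, rfl⟩ : ∃ N, n = N + 1 := ⟨n - 1, by omega⟩
  set j := Nat.sqrt (2 * (N + 1)) + 3 with hj
  have hsn : (1 : ℝ) ≤ √((N + 1 : ℕ) : ℝ) := by
    rw [Real.one_le_sqrt]
    push_cast
    have : (0 : ℝ) ≤ N := Nat.cast_nonneg N
    linarith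
  have hjle : (j : ℝ) ≤ 2 * √((N + 1 : ℕ) : ℝ) + 3 := by
    rw [hj]
    push_cast
    have h1 : ((Nat.sqrt (2 * (N + 1)) : ℕ) : ℝ) ≤ √((2 * (N + 1) : ℕ) : ℝ) := Real.nat_sqrt_le_real_sqrt
    have h2 : √((2 * (N + 1) : ℕ) : ℝ) ≤ √(2 ^ 2 * ((N + 1 : ℕ) : ℝ)) := by
      apply Real.sqrt_le_sqrt
      push_cast
      have : (0 : ℝ) ≤ N := Nat.cast_nonneg N
      linarith
    rw [Real.sqrt_mul (by norm_num), Real.sqrt_sq (by norm_num)] at h2
    push_cast at h1 h2 ⊢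
    linarith
  rcases Nat.lt_or_ge (N + 1) (4 * j + 25 + k0) with hlt | hge
  · -- trivial case
    have h1 : ((N + 1 : ℕ) : ℝ) + 1 ≤ (46 + k0) * √((N + 1 : ℕ) : ℝ) := by
      have h2 : ((N + 1 : ℕ) : ℝ) + 1 ≤ 4 * j + 25 + k0 := by exact_mod_cast hlt
      have h3 : (0 : ℝ) ≤ k0 := Nat.cast_nonneg k0
      nlinarith
    have h4 : (2 : ℝ) ^ (((N + 1 : ℕ) : ℝ) - (46 + k0) * √((N + 1 : ℕ) : ℝ)) ≤ 1 / 2 := by
      calc (2 : ℝ) ^ (((N + 1 : ℕ) : ℝ) - (46 + k0) * √((N + 1 : ℕ) : ℝ)) ≤ (2 : ℝ) ^ (-1 : ℝ) :=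
            Real.rpow_le_rpow_of_exponent_le (by norm_num) (by linarith)
        _ = 1 / 2 := by
          rw [Real.rpow_neg_one]
          norm_num
    obtain ⟨x, hx, hx2⟩ : ∃ x ∈ f.roots.toFinset, x ∉ ({-1, 0, 1} : Finset ℤ) := by
      by_contra hcon
      push Not at hcon
      have h5 := card_le_card (show f.roots.toFinset ⊆ ({-1, 0, 1} : Finset ℤ) from hcon)
      have h6 : ({-1, 0, 1} : Finset ℤ).card = 3 := rfl
      rw [hf.2.2, h6] at h5
      have h7 : 2 ^ 2 ≤ 2 ^ (N + 1) := Nat.pow_le_pow_right (by norm_num) hn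
      omega
    refine ⟨x, Multiset.mem_toFinset.1 hx, h4.trans ?_⟩
    have h5 : 2 ≤ |x| := by
      simp only [mem_insert, mem_singleton, not_or] at hx2
      rcases abs_cases x with h | h <;> omega
    have h6 : (2 : ℝ) ≤ |(x : ℝ)| := by exact_mod_cast h5
    have h7 := Real.log_le_log (by norm_num) h6
    have h8 := Real.log_two_gt_d9
    linarith
  · -- main case
    set q := N + 1 - 2 * j - 12 with hq
    have hKQ : K ≤ ((4 ^ q : ℕ) : ℝ) := by
      push_cast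
      refine hk0.trans ?_
      calc (2 : ℝ) ^ k0 ≤ 2 ^ (2 * q) := pow_le_pow_right₀ (by norm_num) (by omega)
        _ = 4 ^ q := by rw [pow_mul]; norm_num
    obtain ⟨x, hx, h1⟩ := hK N j (4 ^ q) f hf (fun p hp => bnd_lt N j hj (by omega) p hp) hKQ
    refine ⟨x, hx, ?_⟩
    push_cast at h1
    -- `x` is not zero
    obtain ⟨y, hy⟩ : ∃ y : ℕ, N + 1 = 4 * j + 25 + k0 + y := ⟨N + 1 - (4 * j + 25 + k0), by omega⟩
    have hqe : 2 * q = N + (y + 2 + k0) := by omega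
    have h2 : (2 : ℝ) ^ (y + 2) ≤ Real.log (4 * |(x : ℝ)|) := by
      have h3 : (2 : ℝ) ^ N * 2 ^ (y + 2) ≤ 2 ^ N * Real.log (4 * |(x : ℝ)|) := by
        refine le_trans ?_ h1
        rw [le_div_iff₀ (by linarith)]
        calc (2 : ℝ) ^ N * 2 ^ (y + 2) * K ≤ 2 ^ N * 2 ^ (y + 2) * 2 ^ k0 :=
              mul_le_mul_of_nonneg_left hk0 (by positivity)
          _ = 2 ^ (2 * q) := by rw [hqe]; ring
          _ = 4 ^ q := by rw [pow_mul]; norm_num
      exact le_of_mul_le_mul_left h3 (by positivity)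
    have hx0 : |(x : ℝ)| ≠ 0 := by
      intro h
      rw [h, mul_zero, Real.log_zero] at h2
      have : (0 : ℝ) < 2 ^ (y + 2) := by positivity
      linarith
    rw [Real.log_mul (by norm_num) hx0] at h2
    have hlog4 : Real.log 4 ≤ 2 := by
      have : Real.log 4 = 2 * Real.log 2 := by
        rw [show (4 : ℝ) = 2 ^ 2 by norm_num, Real.log_pow]
        norm_num
      rw [this]
      have := Real.log_two_lt_d9
      linarith
    have h4 : (2 : ℝ) ^ (y + 1) ≤ Real.log |(x : ℝ)| := by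
      have : (2 : ℝ) ^ (y + 2) = 2 * 2 ^ (y + 1) := by ring
      have : (2 : ℝ) ≤ 2 ^ (y + 1) := by
        calc (2 : ℝ) = 2 ^ 1 := by norm_num
          _ ≤ 2 ^ (y + 1) := pow_le_pow_right₀ (by norm_num) (by omega)
      linarith
    refine le_trans ?_ h4
    rw [← Real.rpow_natCast 2 (y + 1)]
    apply Real.rpow_le_rpow_of_exponent_le (by norm_num)
    have h5 : ((N + 1 : ℕ) : ℝ) = 4 * j + 25 + k0 + y := by rw [hy]; push_cast; ring
    have h6 : (0 : ℝ) ≤ k0 := Nat.cast_nonneg k0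
    have h7 : (k0 : ℝ) ≤ k0 * √((N + 1 : ℕ) : ℝ) := le_mul_of_one_le_right h6 hsn
    have h8 : (46 + (k0 : ℝ)) * √((N + 1 : ℕ) : ℝ) =
        46 * √((N + 1 : ℕ) : ℝ) + k0 * √((N + 1 : ℕ) : ℝ) := by ring
    rw [h8, h5]
    rw [h5] at h7 hjle hsn
    push_cast
    linarith

end Pool.Agent.SkewGem
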