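import Mathlib
import Pool.Agent.Lib_MP_009b3c_lc.Main
import Pool.Agent.Lib_MP_009b3c_lc.Dec

/-!
# The values of the inner polynomials of a skew gem at its roots
-/

namespace Pool.Agent.SkewGem

open Polynomial Finset

theorem inner_affine {n : ℕ} {f : ℤ[X]} (hf : IsSkewGem n f) {e : ℤ} {c : ℕ → ℤ} {σ : ℤ}
    (hσ : σ = 1 ∨ σ = -1)
    (hnf : C (2 ^ 2 ^ n) * f = C σ * (twr c n).comp (C 2 * X + C e)) {g h : ℤ[X]} {i : ℕ}
    (hfg : f = h.comp g) (hg : g.natDegree = 2 ^ i) :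
    i ≤ n ∧ ∀ x y : ℤ, 2 ^ 2 ^ i * (g.eval x - g.eval y) =
      g.leadingCoeff * ((twr c i).eval (2 * x + e) - (twr c i).eval (2 * y + e)) := by
  have h1 : h.natDegree * 2 ^ i = 2 ^ n := by
    rw [← hf.2.1, hfg, natDegree_comp, hg]
  have hi : i ≤ n := by
    by_contra hcon
    push Not at hcon
    have h2 : 2 ^ n < 2 ^ i := Nat.pow_lt_pow_right (by norm_num) hcon
    have h3 : 0 < 2 ^ n := pow_pos (by norm_num) n
    rcases Nat.eq_zero_or_pos h.natDegree with h4 | h4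
    · rw [h4, zero_mul] at h1
      omega
    · have := Nat.le_mul_of_pos_left (2 ^ i) h4
      omega
  refine ⟨hi, ?_⟩
  have h2 : h.natDegree = 2 ^ (n - i) := by
    have h3 : 2 ^ (n - i) * 2 ^ i = 2 ^ n := by rw [← pow_add, Nat.sub_add_cancel hi]
    exact Nat.eq_of_mul_eq_mul_right (pow_pos (by norm_num) i) (h1.trans h3.symm)
  have hL : (C 2 * X + C e : ℤ[X]).natDegree = 1 := natDegree_linear (by norm_num)
  have hLl : (C 2 * X + C e : ℤ[X]).leadingCoeff = 2 := leadingCoeff_linear (by norm_num)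
  have hσ0 : σ ≠ 0 := by rcases hσ with rfl | rfl <;> norm_num
  have h20 : (2 : ℤ) ^ 2 ^ n ≠ 0 := pow_ne_zero _ (by norm_num)
  obtain ⟨β, hβ⟩ := comp_unique (A := C (2 ^ 2 ^ n) * h)
    (B := C σ * twr (fun m => c (i + m)) (n - i)) (G := g)
    (G' := (twr c i).comp (C 2 * X + C e)) (m := 2 ^ (n - i)) (d := 2 ^ i)
    Nat.one_le_two_pow Nat.one_le_two_pow (by rw [natDegree_C_mul h20, h2])
    (by rw [natDegree_C_mul hσ0, twr_natDegree]) hg
    (by rw [natDegree_comp, hL, twr_natDegree, mul_one])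
    (by
      rw [mul_comp, mul_comp, C_comp, C_comp, ← comp_assoc, ← twr_add, Nat.add_sub_cancel' hi,
        ← hfg, hnf])
  have hlead : ((twr c i).comp (C 2 * X + C e)).leadingCoeff = 2 ^ 2 ^ i := by
    rw [leadingCoeff_comp (by rw [hL]; norm_num), hLl, (twr_monic c i).leadingCoeff, one_mul,
      twr_natDegree]
  rw [hlead] at hβ
  intro x y
  have ex := congrArg (eval x) hβ
  have ey := congrArg (eval y) hβ
  simp only [eval_sub, eval_mul, eval_C, eval_comp, eval_add, eval_X] at ex ey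
  linear_combination ex - ey

theorem level_dvd {n : ℕ} {f : ℤ[X]} (hf : IsSkewGem n f) {g h : ℤ[X]} {i : ℕ}
    (hfg : f = h.comp g) (hg : g.natDegree = 2 ^ i) (p : ℕ) (hpr : p.Prime) (hp : p % 8 = 3)
    (j : ℕ) (hb : bnd p j < 2 ^ i + 1) {x y : ℤ} (hx : x ∈ f.roots) (hy : y ∈ f.roots) :
    (p : ℤ) ∣ g.eval x - g.eval y := by
  obtain ⟨e, c, ⟨σ, hσ, hnf⟩, hT, -⟩ := gem_data hf
  obtain ⟨hi, haff⟩ := inner_affine hf hσ hnf hfg hg
  have h1 := haff x y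
  have hmem : ∀ z ∈ f.roots, (twr c i).eval (2 * z + e) ∈
      lev c (f.roots.toFinset.image fun x => 2 * x + e) i := by
    intro z hz
    unfold lev
    refine mem_image_of_mem _ ?_
    rw [mem_image]
    exact ⟨z, Multiset.mem_toFinset.2 hz, rfl⟩
  have h2 : (p : ℤ) ∣ (twr c i).eval (2 * x + e) - (twr c i).eval (2 * y + e) := by
    rcases Nat.lt_or_ge i n with hlt | hge
    · exact dvd_sub (dvd_level hT hlt p hpr hp j hb (hmem x hx))
        (dvd_level hT hlt p hpr hp j hb (hmem y hy))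
    · obtain rfl : i = n := by omega
      have h3 := hmem x hx
      have h4 := hmem y hy
      rw [hT.top, mem_singleton] at h3 h4
      rw [h3, h4, sub_self]
      exact dvd_zero _
  have h3 : (p : ℤ) ∣ 2 ^ 2 ^ i * (g.eval x - g.eval y) := by
    rw [h1]
    exact h2.mul_left _
  have hpp : Prime (p : ℤ) := Nat.prime_iff_prime_int.1 hpr
  rcases hpp.dvd_or_dvd h3 with h4 | h4
  · exfalso
    have h5 : (p : ℤ) ∣ 2 := hpp.dvd_of_dvd_pow h4
    have h6 : p ∣ 2 := by exact_mod_cast h5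
    have h7 := Nat.le_of_dvd (by norm_num) h6
    omega
  · exact h4

/-- The parameters of level `i`. -/
theorem level_params (i : ℕ) (hi : 1 ≤ i) :
    ((Nat.sqrt (2 * (i + 1)) + 3 : ℕ) : ℝ) ≤ 2 * √(i : ℝ) + 3 := by
  push_cast
  have h1 : ((Nat.sqrt (2 * (i + 1)) : ℕ) : ℝ) ≤ √((2 * (i + 1) : ℕ) : ℝ) :=
    Real.nat_sqrt_le_real_sqrt
  have h2 : √((2 * (i + 1) : ℕ) : ℝ) ≤ √(2 ^ 2 * (i : ℝ)) := by
    apply Real.sqrt_le_sqrt
    push_cast
    have : (1 : ℝ) ≤ i := by exact_mod_cast hi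
    linarith
  rw [Real.sqrt_mul (by norm_num), Real.sqrt_sq (by norm_num)] at h2
  linarith

theorem level_range {i j : ℕ} (hj : j = Nat.sqrt (2 * (i + 1)) + 3) {K : ℝ} (hK : 21 ≤ K) {p : ℕ}
    (hp3 : 3 ≤ p) (hp : (p : ℝ) ≤ 4 ^ ((i : ℝ) - K * √i)) :
    2 * j + 12 ≤ i + 1 ∧ p ≤ 4 ^ (i + 1 - 2 * j - 12) := by
  have hp3' : (3 : ℝ) ≤ p := by exact_mod_cast hp3
  rcases Nat.eq_zero_or_pos i with rfl | hi
  · exfalso
    have h1 : ((0 : ℕ) : ℝ) - K * √((0 : ℕ) : ℝ) = 0 := by simp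
    rw [h1, Real.rpow_zero] at hp
    linarith
  have hs1 : (1 : ℝ) ≤ √(i : ℝ) := by
    rw [Real.one_le_sqrt]
    exact_mod_cast hi
  have hjle := level_params i hi
  rw [← hj] at hjle
  have hexp : (i : ℝ) - K * √i ≤ (i : ℝ) - (2 * j + 11) := by nlinarith
  have h1 : (p : ℝ) ≤ 4 ^ ((i : ℝ) - (2 * j + 11)) :=
    hp.trans (Real.rpow_le_rpow_of_exponent_le (by norm_num) hexp)
  have h2 : 2 * j + 12 ≤ i + 1 := by
    by_contra hcon
    push Not at hcon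
    have h3 : (i : ℝ) + 1 ≤ 2 * j + 12 := by exact_mod_cast hcon.le
    have h4 : (4 : ℝ) ^ ((i : ℝ) - (2 * j + 11)) ≤ 1 := by
      apply Real.rpow_le_one_of_one_le_of_nonpos (by norm_num)
      linarith
    linarith
  refine ⟨h2, ?_⟩
  have h3 : (i : ℝ) - (2 * j + 11) = ((i + 1 - 2 * j - 12 : ℕ) : ℝ) := by
    obtain ⟨q, hq⟩ : ∃ q, i + 1 = 2 * j + 12 + q := ⟨i + 1 - (2 * j + 12), by omega⟩
    have e1 : i + 1 - 2 * j - 12 = q := by omega
    rw [e1]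
    have e2 : (i : ℝ) + 1 = 2 * j + 12 + q := by exact_mod_cast hq
    linarith
  rw [h3, Real.rpow_natCast] at h1
  exact_mod_cast h1

theorem levels_dvd {K : ℝ} (hK : 21 ≤ K) {n : ℕ} {f : ℤ[X]} (hf : IsSkewGem n f) {g h : ℤ[X]}
    {i : ℕ} (hfg : f = h.comp g) (hg : g.natDegree = 2 ^ i) {x y : ℤ} (hx : x ∈ f.roots)
    (hy : y ∈ f.roots) (p : ℕ) (hpr : p.Prime) (hp : p % 8 = 3)
    (hpK : (p : ℝ) ≤ 4 ^ ((i : ℝ) - K * √i)) : (p : ℤ) ∣ g.eval x - g.eval y := by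
  obtain ⟨j, hj⟩ : ∃ j, j = Nat.sqrt (2 * (i + 1)) + 3 := ⟨_, rfl⟩
  have hp3 : 3 ≤ p := by
    have := hpr.two_le
    omega
  obtain ⟨h1, h2⟩ := level_range hj hK hp3 hpK
  exact level_dvd hf hfg hg p hpr hp j (bnd_lt i j hj h1 p h2) hx hy

/-- Different values of an inner polynomial at the roots are far apart. -/
theorem levels_log : ∃ K₀ : ℝ, 21 ≤ K₀ ∧ ∀ K : ℝ, K₀ ≤ K → ∀ {n : ℕ} {f : ℤ[X]},
    IsSkewGem n f → ∀ {g h : ℤ[X]} {i : ℕ}, f = h.comp g → g.natDegree = 2 ^ i →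
    ∀ {x y : ℤ}, x ∈ f.roots → y ∈ f.roots → g.eval x ≠ g.eval y →
      (4 : ℝ) ^ ((i : ℝ) - K * √i) ≤ 1 + Real.log |((g.eval x - g.eval y : ℤ) : ℝ)| := by
  obtain ⟨M, hM1, hM⟩ := theta38
  obtain ⟨k0, hk0⟩ : ∃ k0 : ℕ, M ≤ 2 ^ k0 := by
    obtain ⟨k, hk⟩ := pow_unbounded_of_one_lt M (by norm_num : (1 : ℝ) < 2)
    exact ⟨k, hk.le⟩
  have hk00 : (0 : ℝ) ≤ k0 := Nat.cast_nonneg k0
  refine ⟨21 + k0, by linarith, ?_⟩
  intro K hK n f hf g h i hfg hg x y hx hy hne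
  have hd0 : g.eval x - g.eval y ≠ 0 := sub_ne_zero.2 hne
  have hd1 : (1 : ℝ) ≤ |((g.eval x - g.eval y : ℤ) : ℝ)| := by
    exact_mod_cast Int.one_le_abs hd0
  have hlog0 : 0 ≤ Real.log |((g.eval x - g.eval y : ℤ) : ℝ)| := Real.log_nonneg hd1
  rcases Nat.eq_zero_or_pos i with rfl | hi
  · have h1 : ((0 : ℕ) : ℝ) - K * √((0 : ℕ) : ℝ) = 0 := by simp
    rw [h1, Real.rpow_zero]
    linarith
  have hs1 : (1 : ℝ) ≤ √(i : ℝ) := by
    rw [Real.one_le_sqrt]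
    exact_mod_cast hi
  obtain ⟨j, hj⟩ : ∃ j, j = Nat.sqrt (2 * (i + 1)) + 3 := ⟨_, rfl⟩
  have hjle := level_params i hi
  rw [← hj] at hjle
  have hexp : (i : ℝ) - K * √i ≤ (i : ℝ) - (2 * j + 11 + k0) := by nlinarith
  rcases Nat.lt_or_ge i (2 * j + 11 + k0) with hlt | hge
  · have h3 : (i : ℝ) ≤ 2 * j + 11 + k0 := by exact_mod_cast hlt.le
    have h4 : (4 : ℝ) ^ ((i : ℝ) - K * √i) ≤ 1 := by
      apply Real.rpow_le_one_of_one_le_of_nonpos (by norm_num)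
      linarith
    linarith
  · obtain ⟨q, hq⟩ : ∃ q, i = 2 * j + 11 + k0 + q := ⟨i - (2 * j + 11 + k0), by omega⟩
    have hQ : i + 1 - 2 * j - 12 = k0 + q := by omega
    set P := (Icc 1 (4 ^ (k0 + q))).filter (fun p => p.Prime ∧ p % 8 = 3) with hP
    have hdvd : ((∏ p ∈ P, p : ℕ) : ℤ) ∣ g.eval x - g.eval y := by
      rw [Int.natCast_dvd]
      refine prod_primes_dvd _ ?_ ?_
      · intro p hp
        rw [hP, mem_filter] at hp
        exact hp.2.1.prime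
      · intro p hp
        rw [hP, mem_filter, mem_Icc] at hp
        rw [← Int.natCast_dvd]
        exact level_dvd hf hfg hg p hp.2.1 hp.2.2 j
          (bnd_lt i j hj (by omega) p (by rw [hQ]; exact hp.1.2)) hx hy
    have hle : (∏ p ∈ P, (p : ℝ)) ≤ |((g.eval x - g.eval y : ℤ) : ℝ)| := by
      have h2 := Int.le_of_dvd (abs_pos.2 hd0) ((dvd_abs _ _).2 hdvd)
      have h4 : (((∏ p ∈ P, p : ℕ) : ℤ) : ℝ) ≤ ((|g.eval x - g.eval y| : ℤ) : ℝ) := by
        exact_mod_cast h2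
      push_cast at h4 ⊢
      exact h4
    have hpos : (0 : ℝ) < ∏ p ∈ P, (p : ℝ) := by
      refine prod_pos fun p hp => ?_
      rw [hP, mem_filter] at hp
      exact_mod_cast hp.2.1.pos
    have hlog := Real.log_le_log hpos hle
    rw [Real.log_prod fun p hp => ?_] at hlog
    · have hMQ : M ≤ ((4 ^ (k0 + q) : ℕ) : ℝ) := by
        push_cast
        refine hk0.trans ?_
        calc (2 : ℝ) ^ k0 ≤ 4 ^ k0 := pow_le_pow_left₀ (by norm_num) (by norm_num) k0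
          _ ≤ 4 ^ (k0 + q) := pow_le_pow_right₀ (by norm_num) (by omega)
      have h5 := (hM _ hMQ).trans hlog
      have h6 : (4 : ℝ) ^ q ≤ ((4 ^ (k0 + q) : ℕ) : ℝ) / M := by
        rw [le_div_iff₀ (by linarith)]
        push_cast
        calc (4 : ℝ) ^ q * M ≤ 4 ^ q * 4 ^ k0 := by
              refine mul_le_mul_of_nonneg_left (hk0.trans ?_) (by positivity)
              exact pow_le_pow_left₀ (by norm_num) (by norm_num) k0
          _ = 4 ^ (k0 + q) := by rw [pow_add]; ring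
      have h7 : (4 : ℝ) ^ ((i : ℝ) - K * √i) ≤ 4 ^ q := by
        rw [← Real.rpow_natCast 4 q]
        apply Real.rpow_le_rpow_of_exponent_le (by norm_num)
        have h8 : (i : ℝ) = 2 * j + 11 + k0 + q := by exact_mod_cast hq
        linarith
      linarith
    · rw [hP, mem_filter] at hp
      exact_mod_cast hp.2.1.pos.ne'

end Pool.Agent.SkewGem
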