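import Mathlib
import Pool.Agent.Lib_MP_009b3c_lc.Main

/-!
# The number of residue classes of the roots of a skew gem
-/

namespace Pool.Agent.SkewGem

open Polynomial Finset

theorem bnd_le (p : ℕ) (hp : 1 ≤ p) (j : ℕ) (hj : j = Nat.sqrt (2 * (Nat.log 2 p + 1)) + 1) :
    bnd p j ≤ √p * 2 ^ (2 * j + 7) := by
  unfold bnd
  have hJ : Nat.log 2 p + 1 ≤ j * (j + 1) / 2 := by
    have h1 := Nat.lt_succ_sqrt (2 * (Nat.log 2 p + 1))
    have h2 : 2 * (Nat.log 2 p + 1) ≤ j * (j + 1) := by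
      rw [hj]
      rw [Nat.succ_eq_add_one] at h1
      nlinarith
    omega
  have hs1 : (1 : ℝ) ≤ √(p : ℝ) := by
    rw [Real.one_le_sqrt]
    exact_mod_cast hp
  have h1 : (p : ℝ) / 2 ^ (j * (j + 1) / 2) ≤ 1 := by
    rw [div_le_one (by positivity)]
    have h2 : p < 2 ^ (Nat.log 2 p + 1) := Nat.lt_pow_succ_log_self (by norm_num) p
    have h3 : p ≤ 2 ^ (j * (j + 1) / 2) := h2.le.trans (Nat.pow_le_pow_right (by norm_num) hJ)
    exact_mod_cast h3
  have h4 : ((j * 2 ^ (j + 1) : ℕ) : ℝ) ≤ 2 ^ (2 * j + 1) := by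
    have : j * 2 ^ (j + 1) ≤ 2 ^ (2 * j + 1) := by
      calc j * 2 ^ (j + 1) ≤ 2 ^ j * 2 ^ (j + 1) :=
            Nat.mul_le_mul_right _ (Nat.lt_two_pow_self).le
        _ = 2 ^ (2 * j + 1) := by rw [← pow_add]; congr 1; omega
    exact_mod_cast this
  have h5 : ((j * 2 ^ (j + 1) : ℕ) : ℝ) * (40 * √p + 1) ≤ 2 ^ (2 * j + 1) * (41 * √p) :=
    mul_le_mul h4 (by linarith) (by positivity) (by positivity)
  have h6 : (2 : ℝ) ^ j ≤ 2 ^ (2 * j + 1) := pow_le_pow_right₀ (by norm_num) (by omega)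
  have h7 : (1 : ℝ) ≤ 2 ^ (2 * j + 1) := one_le_pow₀ (by norm_num)
  have h8 : (2 : ℝ) ^ (2 * j + 7) = 2 ^ (2 * j + 1) * 64 := by
    rw [show 2 * j + 7 = 2 * j + 1 + 6 by ring, pow_add]
    norm_num
  rw [h8]
  have h9 : (2 : ℝ) ^ (2 * j + 1) ≤ 2 ^ (2 * j + 1) * √p := le_mul_of_one_le_right (by positivity) hs1
  nlinarith

/-- The roots of a skew gem lie in few residue classes modulo every prime `3 mod 8`. -/
theorem residues (n : ℕ) (f : ℤ[X]) (hf : IsSkewGem n f) (p : ℕ) (hpr : p.Prime)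
    (hp : p % 8 = 3) :
    ((f.roots.toFinset.image fun x : ℤ => (x : ZMod p)).card : ℝ) ≤
      √p * 2 ^ (15 * √(Real.log p)) := by
  have : Fact p.Prime := ⟨hpr⟩
  obtain ⟨j, hj⟩ : ∃ j, j = Nat.sqrt (2 * (Nat.log 2 p + 1)) + 1 := ⟨_, rfl⟩
  have h1 := (residues_bnd hf p hp j).trans (bnd_le p hpr.one_lt.le j hj)
  refine h1.trans (mul_le_mul_of_nonneg_left ?_ (Real.sqrt_nonneg _))
  rw [← Real.rpow_natCast 2 (2 * j + 7)]
  apply Real.rpow_le_rpow_of_exponent_le (by norm_num)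
  have hp3 : (3 : ℝ) ≤ p := by
    have : 3 ≤ p := by
      have := hpr.two_le
      omega
    exact_mod_cast this
  have hlog1 : 1 ≤ Real.log p := by
    rw [Real.le_log_iff_exp_le (by linarith)]
    have := Real.exp_one_lt_d9
    linarith
  have hr1 : 1 ≤ √(Real.log p) := by
    rw [Real.one_le_sqrt]
    exact hlog1
  have hL : (Nat.log 2 p : ℝ) ≤ 1.5 * Real.log p := by
    have h2 : ((2 : ℕ) ^ Nat.log 2 p : ℕ) ≤ p := Nat.pow_log_le_self 2 (by omega)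
    have h3 : (2 : ℝ) ^ Nat.log 2 p ≤ p := by exact_mod_cast h2
    have h4 := Real.log_le_log (by positivity) h3
    rw [Real.log_pow] at h4
    have h5 := Real.log_two_gt_d9
    have h6 : (0 : ℝ) ≤ Nat.log 2 p := Nat.cast_nonneg _
    nlinarith
  have hjle : (j : ℝ) ≤ 3 * √(Real.log p) + 1 := by
    rw [hj]
    push_cast
    have h2 : ((Nat.sqrt (2 * (Nat.log 2 p + 1)) : ℕ) : ℝ) ≤
        √((2 * (Nat.log 2 p + 1) : ℕ) : ℝ) := Real.nat_sqrt_le_real_sqrt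
    have h3 : √((2 * (Nat.log 2 p + 1) : ℕ) : ℝ) ≤ √(3 ^ 2 * Real.log p) := by
      apply Real.sqrt_le_sqrt
      push_cast
      linarith
    rw [Real.sqrt_mul (by norm_num), Real.sqrt_sq (by norm_num)] at h3
    linarith
  push_cast
  linarith

end Pool.Agent.SkewGem
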